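import Mathlib
import Pool.Agent.LibOT77.Final

/-! # Counting odd `k` with `D T(k)` not an integer: definitions -/

set_option autoImplicit false

namespace Pool.Agent.LibCN21

open Pool.Agent.LibOT77 Polynomial MeasureTheory Filter Topology

/-- two-sided Laplace transform -/
noncomputable def Lap (k : ℝ → ℝ) (y : ℝ) : ℝ := ∫ t : ℝ, Real.exp (y * t) * k t

/-- continuous and of size `e^{-|t|}` up to powers of `1 + |t|` -/
def IsK (k : ℝ → ℝ) : Prop :=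
  Continuous k ∧ ∃ (A : ℝ) (N : ℕ), ∀ t, |k t| ≤ A * (1 + |t|) ^ N * Real.exp (-|t|)

/-- the kernel `t^j sech(t)^p` -/
noncomputable def kr (j p : ℕ) (t : ℝ) : ℝ := t ^ j * (Real.cosh t)⁻¹ ^ p

/-- its Laplace transform -/
noncomputable def ph (j p : ℕ) (y : ℝ) : ℝ := Lap (kr j p) y

/-- `f` has (at least) `k` zeros in `U` -/
def HasZeros (U : Set ℝ) (k : ℕ) (f : ℝ → ℝ) : Prop :=
  ∃ z : Fin k → ℝ, StrictMono z ∧ ∀ i, z i ∈ U ∧ f (z i) = 0

/-- the integer polynomial `w^q (1-w)^n ∑ x_l w^l`, `w = X (2 - X)`, `1 - w = (1 - X)^2` -/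
noncomputable def RU (q n M : ℕ) (x : Fin M → ℤ) : ℤ[X] :=
  ∑ l, C (x l) * ((X * (2 - X)) ^ (q + l) * (1 - X) ^ (2 * n))

/-- `∏_{c<a} ((2c+1)^2 - (X-1)^2)` -/
noncomputable def be (a : ℕ) : ℤ[X] := ∏ c ∈ Finset.range a, (C ((2 * (c : ℤ) + 1) ^ 2) - (X - 1) ^ 2)

/-- the polynomial whose value `FF` is an integer over `D` -/
noncomputable def SU (q n M : ℕ) (x : Fin M → ℤ) (a b : ℕ) : ℤ[X] := be a * hasseDeriv (2 * b) (RU q n M x)

/-- the linear form in the `T k`, `k` odd -/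
noncomputable def FF (S : ℤ[X]) : ℝ :=
  ∑ κ ∈ Finset.range (S.natDegree + 1), (-1) ^ κ * (S.coeff (2 * κ) : ℝ) * T (2 * κ + 1)

/-- real value of an integer polynomial at `1 + y` -/
noncomputable def at1 (S : ℤ[X]) (y : ℝ) : ℝ := (S.map (Int.castRingHom ℝ)).eval (1 + y)

/-- the set of bad `k` -/
def Bad (D n : ℕ) : Set ℕ := {k : ℕ | n ≤ k ∧ k ≤ 5 * n ∧ Odd k ∧ ¬ ∃ z : ℤ, (D : ℝ) * T k = z}

end Pool.Agent.LibCN21
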