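import Mathlib
import Pool.Agent.LibCN21.Defs

/-! Row R01.
FF S = (1/2) int_{-1}^1 S(1+y)/cos(pi y/2) dy for S in Z[X] with S(2-X) = S, S(0) = 0 (so S(2) = 0).
This is LibOT77 (Poly.lean, Kernel.lean, Final.lean) with RR b P replaced by the real polynomial p = S.map.
-/

set_option autoImplicit false

namespace Pool.Agent.LibCN21

open Pool.Agent.LibOT77 Polynomial MeasureTheory Filter Topology

namespace R1

/-- the quotient -/
noncomputable def g (p : ℝ[X]) (u : ℝ) : ℝ := p.eval u / Real.sin (Real.pi * u / 2)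

section
variable (p : ℝ[X]) (hp : p.comp (2 - X) = p) (h0 : p.coeff 0 = 0)

include h0 in
lemma p_zero : p.eval 0 = 0 := by
  rw [← coeff_zero_eq_eval_zero]; exact h0

include hp h0 in
lemma p_two : p.eval 2 = 0 := by
  have h := congrArg (fun q => eval 2 q) hp
  simp only [eval_comp, eval_sub, eval_X, eval_ofNat] at h
  rw [← h, sub_self]
  exact p_zero p h0

include hp h0 in
lemma factor : ∃ r : ℝ[X], ∀ u : ℝ, p.eval u = (u * (2 - u)) * r.eval u := by
  obtain ⟨q, hq⟩ := X_dvd_iff.2 h0
  have hq2 : q.eval 2 = 0 := by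
    have h2 := p_two p hp h0
    rw [hq, eval_mul, eval_X] at h2
    rcases mul_eq_zero.1 h2 with h | h
    · norm_num at h
    · exact h
  obtain ⟨r, hr⟩ := dvd_iff_isRoot.2 (show q.IsRoot 2 from hq2)
  refine ⟨-r, fun u => ?_⟩
  rw [hq, hr]
  simp only [eval_mul, eval_X, eval_sub, eval_C, eval_neg]
  ring

include hp h0 in
lemma g_mul_sin (u : ℝ) (hu0 : 0 ≤ u) (hu2 : u ≤ 2) :
    p.eval u = g p u * Real.sin (Real.pi * u / 2) := by
  unfold g
  rcases hu0.eq_or_lt with h | h
  · rw [← h, p_zero p h0]; simp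
  rcases hu2.eq_or_lt with h' | h'
  · rw [h', p_two p hp h0]; simp
  have := sin_pos' u h h'
  field_simp

include hp h0 in
lemma g_bdd : ∃ M : ℝ, ∀ u : ℝ, 0 ≤ u → u ≤ 2 → ‖g p u‖ ≤ M := by
  obtain ⟨r, hr⟩ := factor p hp h0
  have hpi := Real.pi_pos
  obtain ⟨M, hM⟩ := (isCompact_Icc (a := (0 : ℝ)) (b := 2)).exists_bound_of_continuousOn
    (r.continuous.continuousOn)
  refine ⟨4 / Real.pi * M, ?_⟩
  intro u hu0 hu2
  have hMu := hM u ⟨hu0, hu2⟩
  have hM0 : 0 ≤ M := (norm_nonneg _).trans hMu
  rcases hu0.eq_or_lt with h | h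
  · have : g p u = 0 := by unfold g; rw [← h, p_zero p h0]; simp
    rw [this, norm_zero]
    positivity
  rcases hu2.eq_or_lt with h' | h'
  · have : g p u = 0 := by unfold g; rw [h', p_two p hp h0]; simp
    rw [this, norm_zero]
    positivity
  have hs := sin_pos' u h h'
  have hl := sin_lower u hu0 hu2
  have hw : 0 < u * (2 - u) := mul_pos h (by linarith)
  unfold g
  rw [norm_div, Real.norm_of_nonneg hs.le, div_le_iff₀ hs, hr, norm_mul, Real.norm_of_nonneg hw.le]
  calc u * (2 - u) * ‖r.eval u‖ ≤ u * (2 - u) * M := mul_le_mul_of_nonneg_left hMu hw.le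
    _ = 4 / Real.pi * M * (Real.pi / 4 * (u * (2 - u))) := by field_simp
    _ ≤ _ := mul_le_mul_of_nonneg_left hl (by positivity)

lemma g_meas : Measurable (g p) := by
  unfold g
  apply Measurable.div
  · exact p.continuous.measurable
  · exact (Real.continuous_sin.comp (by fun_prop)).measurable

include hp h0 in
lemma g_integrableOn : IntegrableOn (g p) (Set.Ioc 0 2) := by
  obtain ⟨M, hM⟩ := g_bdd p hp h0
  apply Measure.integrableOn_of_bounded (M := M)
  · simp
  · exact (g_meas p).aestronglyMeasurable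
  · rw [ae_restrict_iff' measurableSet_Ioc]
    apply Filter.Eventually.of_forall
    intro u hu
    exact hM u hu.1.le hu.2

include hp h0 in
lemma g_intervalIntegrable : IntervalIntegrable (g p) volume 0 2 := by
  rw [intervalIntegrable_iff_integrableOn_Ioc_of_le (by norm_num)]
  exact g_integrableOn p hp h0

include hp h0 in
lemma gcos_intervalIntegrable (w : ℝ) :
    IntervalIntegrable (fun u => g p u * Real.cos (w * u)) volume 0 2 := by
  apply (g_intervalIntegrable p hp h0).mul_continuousOn
  exact (Real.continuous_cos.comp (by fun_prop)).continuousOn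

include hp h0 in
lemma partial_sum (K : ℕ) :
    ∑ m ∈ Finset.range K, ∫ u in (0 : ℝ)..2, p.eval u * Real.sin (om m * u) =
      (∫ u in (0 : ℝ)..2, g p u) / 2 -
        (∫ u in (0 : ℝ)..2, g p u * Real.cos (K * Real.pi * u)) / 2 := by
  rw [← intervalIntegral.integral_finsetSum]
  · rw [← sub_div, ← intervalIntegral.integral_sub (g_intervalIntegrable p hp h0)
      (gcos_intervalIntegrable p hp h0 _), ← intervalIntegral.integral_div]
    apply intervalIntegral.integral_congr
    intro u hu
    rw [Set.uIcc_of_le (by norm_num)] at hu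
    show ∑ m ∈ Finset.range K, p.eval u * Real.sin (om m * u) =
      (g p u - g p u * Real.cos (K * Real.pi * u)) / 2
    rw [← Finset.mul_sum, g_mul_sin p hp h0 u hu.1 hu.2, mul_assoc]
    have h := sum_sin K (Real.pi * u / 2)
    have e1 : ∀ m ∈ Finset.range K, Real.sin (om m * u) =
        Real.sin ((2 * (m : ℝ) + 1) * (Real.pi * u / 2)) := by
      intro m _
      congr 1
      unfold om
      ring
    rw [Finset.sum_congr rfl e1, h]
    have e2 : 2 * (K : ℝ) * (Real.pi * u / 2) = K * Real.pi * u := by ring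
    rw [e2]
    ring
  · intro m _
    apply Continuous.intervalIntegrable
    exact p.continuous.mul (Real.continuous_sin.comp (by fun_prop))

include hp h0 in
lemma tendsto_gcos :
    Tendsto (fun K : ℕ => ∫ u in (0 : ℝ)..2, g p u * Real.cos (K * Real.pi * u)) atTop (𝓝 0) := by
  obtain ⟨M, hM⟩ := g_bdd p hp h0
  set F : ℝ → ℂ := Set.indicator (Set.Ioc 0 2) (fun u => (g p u : ℂ)) with hF
  have hRL := Real.tendsto_integral_exp_smul_cocompact F
  have hcast : Tendsto (fun K : ℕ => (K : ℝ) / 2) atTop (cocompact ℝ) := by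
    have h1 : Tendsto (fun K : ℕ => (K : ℝ) / 2) atTop atTop :=
      tendsto_natCast_atTop_atTop.atTop_div_const (by norm_num)
    rw [cocompact_eq_atBot_atTop]
    exact h1.mono_right le_sup_right
  have h2 := (Complex.continuous_re.tendsto _).comp (hRL.comp hcast)
  simp only [Complex.zero_re] at h2
  refine h2.congr ?_
  intro K
  simp only [Function.comp_apply]
  have hint : IntegrableOn (fun v : ℝ => (Real.fourierChar (-(v * ((K : ℝ) / 2)))) • (g p v : ℂ))
      (Set.Ioc 0 2) := by
    apply Measure.integrableOn_of_bounded (M := M)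
    · simp
    · apply Measurable.aestronglyMeasurable
      have hm : Measurable (fun v : ℝ => (Real.fourierChar (-(v * ((K : ℝ) / 2))) : ℂ)) := by
        apply Continuous.measurable
        exact continuous_subtype_val.comp (Real.continuous_fourierChar.comp (by fun_prop))
      exact hm.mul (Complex.measurable_ofReal.comp (g_meas p))
    · rw [ae_restrict_iff' measurableSet_Ioc]
      apply Filter.Eventually.of_forall
      intro u hu
      rw [Circle.norm_smul]
      rw [Complex.norm_real]
      exact hM u hu.1.le hu.2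
  have e1 : (∫ v : ℝ, (Real.fourierChar (-(v * ((K : ℝ) / 2)))) • F v) =
      ∫ v in Set.Ioc (0 : ℝ) 2, (Real.fourierChar (-(v * ((K : ℝ) / 2)))) • (g p v : ℂ) := by
    rw [← integral_indicator measurableSet_Ioc]
    congr 1
    funext v
    rw [hF]
    by_cases hv : v ∈ Set.Ioc (0 : ℝ) 2
    · rw [Set.indicator_of_mem hv, Set.indicator_of_mem hv]
    · rw [Set.indicator_of_notMem hv, Set.indicator_of_notMem hv, smul_zero]
  rw [e1, intervalIntegral.integral_of_le (by norm_num)]
  have e2 := integral_re hint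
  simp only [RCLike.re_to_complex] at e2
  rw [← e2]
  congr 1
  funext v
  rw [Circle.smul_def, smul_eq_mul, Complex.re_mul_ofReal, mul_comm]
  congr 1
  rw [Real.fourierChar_apply, Complex.exp_ofReal_mul_I_re]
  rw [← Real.cos_neg]
  congr 1
  ring

include hp h0 in
lemma tendsto_partial :
    Tendsto (fun K : ℕ => ∑ m ∈ Finset.range K,
      ∫ u in (0 : ℝ)..2, p.eval u * Real.sin (om m * u)) atTop
        (𝓝 ((∫ u in (0 : ℝ)..2, g p u) / 2)) := by
  have h := (tendsto_gcos p hp h0).div_const 2
  have h2 := (tendsto_const_nhds (x := (∫ u in (0 : ℝ)..2, g p u) / 2)).sub h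
  simp only [zero_div, sub_zero] at h2
  refine h2.congr ?_
  intro K
  rw [partial_sum p hp h0]

lemma iter_eval_zero (j : ℕ) : (derivative^[2 * j] p).eval 0 =
    (2 * j).factorial * (p.coeff (2 * j)) := by
  rw [← coeff_zero_eq_eval_zero, coeff_iterate_derivative, zero_add, Nat.descFactorial_self,
    nsmul_eq_mul]

include hp in
lemma iter_eval_two (j : ℕ) : (derivative^[2 * j] p).eval 2 =
    (2 * j).factorial * (p.coeff (2 * j)) := by
  rw [← iter_eval_zero]
  have h := congrArg (fun P => eval 0 P) (comp_iter p j)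
  rw [hp] at h
  simp only [eval_comp, eval_sub, eval_X, eval_ofNat, sub_zero] at h
  exact h

include hp in
lemma int_sin (m J : ℕ) (hJ : p.natDegree < 2 * J) :
    ∫ u in (0 : ℝ)..2, p.eval u * Real.sin (om m * u) =
      ∑ j ∈ Finset.range J,
        (-1) ^ j * (2 * (2 * j).factorial * (p.coeff (2 * j)))
        / om m ^ (2 * j + 1) := by
  rw [ibp_iter p m J]
  have hz : derivative^[2 * J] p = 0 := iterate_derivative_eq_zero hJ
  rw [hz]
  simp only [eval_zero, zero_mul, intervalIntegral.integral_zero, mul_zero, add_zero]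
  apply Finset.sum_congr rfl
  intro j _
  rw [iter_eval_zero, iter_eval_two p hp]
  ring

include hp h0 in
lemma lim_eq (J : ℕ) (hJ : p.natDegree < 2 * J) :
    (∫ u in (0 : ℝ)..2, g p u) / 2 = ∑ j ∈ Finset.range J,
      (-1) ^ j * (p.coeff (2 * j)) * T (2 * j + 1) := by
  have h1 := tendsto_partial p hp h0
  refine tendsto_nhds_unique h1 ?_
  have h2 : ∀ j ∈ Finset.range J,
      Tendsto (fun K : ℕ => ∑ m ∈ Finset.range K,
      (-1) ^ j * (2 * (2 * j).factorial * (p.coeff (2 * j))) / om m ^ (2 * j + 1)) atTop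
      (𝓝 ((-1) ^ j * (p.coeff (2 * j)) * T (2 * j + 1))) := by
    intro j _
    rcases Nat.eq_zero_or_pos j with h | h
    · subst h
      have : p.coeff (2 * 0) = 0 := h0
      rw [this]
      simp
    · have h3 := (om_sum (2 * j + 1) (by omega)).mul_left ((-1) ^ j * (p.coeff (2 * j)))
      refine h3.tendsto_sum_nat.congr ?_
      intro K
      apply Finset.sum_congr rfl
      intro m _
      rw [Nat.add_sub_cancel]
      ring
  have h3 := tendsto_finsetSum _ h2
  refine h3.congr ?_
  intro K
  rw [Finset.sum_comm]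
  apply Finset.sum_congr rfl
  intro m _
  rw [int_sin p hp m J hJ]

end

end R1

theorem FF_eq (S : ℤ[X]) (hs : S.comp (2 - X) = S) (h0 : S.coeff 0 = 0) :
    IntervalIntegrable (fun y : ℝ => at1 S y / Real.cos (Real.pi * y / 2)) volume (-1) 1 ∧
    FF S = (∫ y in (-1 : ℝ)..1, at1 S y / Real.cos (Real.pi * y / 2)) / 2 := by
  set p : ℝ[X] := S.map (Int.castRingHom ℝ) with hpdef
  have hp : p.comp (2 - X) = p := by
    have h := congrArg (Polynomial.map (Int.castRingHom ℝ)) hs
    rw [Polynomial.map_comp, Polynomial.map_sub, map_X, Polynomial.map_ofNat] at h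
    exact h
  have hc : ∀ i, p.coeff i = (S.coeff i : ℝ) := by
    intro i
    rw [hpdef, coeff_map]
    simp
  have hp0 : p.coeff 0 = 0 := by rw [hc, h0]; simp
  have hfun : (fun y : ℝ => at1 S y / Real.cos (Real.pi * y / 2)) =
      fun y => R1.g p (1 + y) := by
    funext y
    unfold at1 R1.g
    congr 1
    rw [← Real.sin_pi_div_two_sub, ← Real.sin_pi_sub]
    congr 1
    ring
  rw [hfun]
  constructor
  · have h := (R1.g_intervalIntegrable p hp hp0).comp_add_left 1
    have e1 : (0 : ℝ) - 1 = -1 := by norm_num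
    have e2 : (2 : ℝ) - 1 = 1 := by norm_num
    rw [e1, e2] at h
    exact h
  · rw [intervalIntegral.integral_comp_add_left (fun x => R1.g p x) 1]
    have e1 : (1 : ℝ) + -1 = 0 := by norm_num
    have e2 : (1 : ℝ) + 1 = 2 := by norm_num
    rw [e1, e2, R1.lim_eq p hp hp0 (S.natDegree + 1)]
    · unfold FF
      apply Finset.sum_congr rfl
      intro κ _
      rw [hc]
    · have h1 : p.natDegree ≤ S.natDegree := natDegree_map_le
      omega

end Pool.Agent.LibCN21
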