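import Mathlib
import Pool.Agent.LibCN21.Defs

/-! Row R02.
IsK k: continuous, |k t| <= A (1+|t|)^N e^(-|t|). mul_id: |t - c| <= (1+|c|)(1+|t|). integrable: |e^(yt) k t| <= A (1+|t|)^N e^(-(1-|y|)|t|),
integrable (e.g. (1+|t|)^N <= C_d e^(d|t|), `integrable_exp_mul_abs`, or domination by C (1+|t|)^(-2)). hasDerivAt: `hasDerivAt_integral_of_dominated_loc_of_deriv_le`
on a ball of radius (1-|y|)/2 around y, bound |t k t| e^(r|t|), r = (1+|y|)/2 < 1.
-/

set_option autoImplicit false

namespace Pool.Agent.LibCN21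

open Pool.Agent.LibOT77 Polynomial MeasureTheory Filter Topology

private theorem R02_exp {a : ℝ} (ha : 0 < a) : Integrable (fun t : ℝ => Real.exp (-(a * |t|))) := by
  rw [← integrableOn_univ, ← Set.Iic_union_Ioi (a := (0 : ℝ))]
  refine IntegrableOn.union ?_ ?_
  · refine (integrableOn_exp_mul_Iic ha 0).congr_fun (fun t ht => ?_) measurableSet_Iic
    have ht' : t ≤ 0 := ht
    show Real.exp (a * t) = Real.exp (-(a * |t|))
    rw [abs_of_nonpos ht']
    congr 1
    ring
  · refine (integrableOn_exp_mul_Ioi (neg_lt_zero.2 ha) 0).congr_fun (fun t ht => ?_)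
      measurableSet_Ioi
    have ht' : 0 < t := ht
    show Real.exp (-a * t) = Real.exp (-(a * |t|))
    rw [abs_of_pos ht']
    congr 1
    ring

private theorem R02_int (N : ℕ) {δ : ℝ} (hδ : 0 < δ) :
    Integrable (fun t : ℝ => (1 + |t|) ^ N * Real.exp (-(δ * |t|))) := by
  set a : ℝ := δ / 2 with ha
  have ha0 : 0 < a := by positivity
  refine ((R02_exp ha0).const_mul ((N.factorial : ℝ) / a ^ N * Real.exp a)).mono'
    (Continuous.aestronglyMeasurable (by fun_prop)) (Filter.Eventually.of_forall fun t => ?_)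
  have h0 := abs_nonneg t
  rw [Real.norm_of_nonneg (by positivity)]
  have h1 := Real.pow_div_factorial_le_exp (a * (1 + |t|)) (by positivity) N
  have h2 : (1 + |t|) ^ N ≤ (N.factorial : ℝ) / a ^ N * Real.exp (a * (1 + |t|)) := by
    rw [mul_pow, div_le_iff₀ (by positivity)] at h1
    rw [div_mul_eq_mul_div, le_div_iff₀ (by positivity)]
    linarith
  refine (mul_le_mul_of_nonneg_right h2 (Real.exp_nonneg _)).trans (le_of_eq ?_)
  rw [mul_assoc, mul_assoc, ← Real.exp_add, ← Real.exp_add]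
  congr 2
  rw [ha]
  ring

private theorem R02_A {k : ℝ → ℝ} {A : ℝ} {N : ℕ}
    (h : ∀ t, |k t| ≤ A * (1 + |t|) ^ N * Real.exp (-|t|)) : 0 ≤ A := by
  have := (abs_nonneg _).trans (h 0)
  simpa using this

theorem IsK.mul_id {k : ℝ → ℝ} (hk : IsK k) (c : ℝ) : IsK (fun t => (t - c) * k t) := by
  obtain ⟨hc, A, N, h⟩ := hk
  have hA := R02_A h
  refine ⟨by fun_prop, (1 + |c|) * A, N + 1, fun t => ?_⟩
  rw [abs_mul]
  have h1 : |t - c| ≤ (1 + |c|) * (1 + |t|) := by
    have := abs_sub t c
    nlinarith [abs_nonneg t, abs_nonneg c]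
  refine (mul_le_mul h1 (h t) (abs_nonneg _) (by positivity)).trans (le_of_eq ?_)
  ring

theorem IsK.integrable {k : ℝ → ℝ} (hk : IsK k) {y : ℝ} (hy : |y| < 1) :
    Integrable (fun t : ℝ => Real.exp (y * t) * k t) := by
  obtain ⟨hc, A, N, h⟩ := hk
  have hA := R02_A h
  refine ((R02_int N (sub_pos.2 hy)).const_mul A).mono'
    (Continuous.aestronglyMeasurable (by fun_prop)) (Filter.Eventually.of_forall fun t => ?_)
  rw [Real.norm_eq_abs, abs_mul, Real.abs_exp]
  have h1 : Real.exp (y * t) ≤ Real.exp (|y| * |t|) := by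
    rw [← abs_mul]
    exact Real.exp_le_exp.2 (le_abs_self _)
  refine (mul_le_mul h1 (h t) (abs_nonneg _) (Real.exp_nonneg _)).trans (le_of_eq ?_)
  have h2 : Real.exp (-((1 - |y|) * |t|)) = Real.exp (|y| * |t|) * Real.exp (-|t|) := by
    rw [← Real.exp_add]
    congr 1
    ring
  rw [h2]
  ring

theorem IsK.hasDerivAt {k : ℝ → ℝ} (hk : IsK k) {y : ℝ} (hy : |y| < 1) :
    HasDerivAt (Lap k) (Lap (fun t => t * k t) y) y := by
  have hint := hk.integrable hy
  obtain ⟨hc, A, N, h⟩ := hk
  have hA := R02_A h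
  set r : ℝ := (1 + |y|) / 2 with hr
  have hr1 : r < 1 := by rw [hr]; linarith
  have hyr : |y| < r := by rw [hr]; linarith
  have hs : {z : ℝ | |z| < r} ∈ 𝓝 y :=
    (isOpen_lt continuous_abs continuous_const).mem_nhds hyr
  refine (hasDerivAt_integral_of_dominated_loc_of_deriv_le
    (bound := fun t => A * ((1 + |t|) ^ (N + 1) * Real.exp (-((1 - r) * |t|))))
    (F := fun y t => Real.exp (y * t) * k t) (F' := fun y t => Real.exp (y * t) * (t * k t))
    hs (Filter.Eventually.of_forall fun z => Continuous.aestronglyMeasurable (by fun_prop)) hint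
    (Continuous.aestronglyMeasurable (by fun_prop)) ?_ ?_ ?_).2
  · refine Filter.Eventually.of_forall fun t z hz => ?_
    have hz' : |z| < r := hz
    rw [Real.norm_eq_abs, abs_mul, abs_mul, Real.abs_exp]
    have h1 : Real.exp (z * t) ≤ Real.exp (r * |t|) := by
      refine Real.exp_le_exp.2 ((le_abs_self _).trans ?_)
      rw [abs_mul]
      exact mul_le_mul_of_nonneg_right hz'.le (abs_nonneg _)
    have h2 : |t| * |k t| ≤ (1 + |t|) * (A * (1 + |t|) ^ N * Real.exp (-|t|)) :=
      mul_le_mul (by linarith) (h t) (abs_nonneg _) (by positivity)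
    refine (mul_le_mul h1 h2 (by positivity) (Real.exp_nonneg _)).trans (le_of_eq ?_)
    have h3 : Real.exp (-((1 - r) * |t|)) = Real.exp (r * |t|) * Real.exp (-|t|) := by
      rw [← Real.exp_add]
      congr 1
      ring
    rw [h3]
    ring
  · exact (R02_int (N + 1) (sub_pos.2 hr1)).const_mul A
  · refine Filter.Eventually.of_forall fun t z _ => ?_
    have h1 : HasDerivAt (fun z : ℝ => Real.exp (z * t) * k t)
        (Real.exp (z * t) * (1 * t) * k t) z :=
      (((hasDerivAt_id z).mul_const t).exp).mul_const (k t)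
    exact h1.congr_deriv (by ring)

end Pool.Agent.LibCN21
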