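import Mathlib
import Pool.Agent.LibCN21.Defs
import Pool.Agent.LibCN21.R02

/-! Row R03.
IsK.sum: Finset induction (IsK of 0, add, const_mul: A1 (1+|t|)^N1 + A2 (1+|t|)^N2 <= (|A1|+|A2|)(1+|t|)^(N1+N2)); Lap of a finite sum by
`integral_finset_sum`/`integral_finsetSum` and integrability (R02). kr_isK: (cosh t)⁻¹ ^ p <= (cosh t)⁻¹ <= 2 e^(-|t|), |t|^j <= (1+|t|)^j. ph_even: substitute t -> -t
(`integral_comp_neg`/`integral_neg_eq_self`), (-t)^(2b) = t^(2b), cosh even. ph_deriv: IsK.hasDerivAt with t * kr j p t = kr (j+1) p t.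
-/

set_option autoImplicit false

namespace Pool.Agent.LibCN21

open Pool.Agent.LibOT77 Polynomial MeasureTheory Filter Topology

private theorem r03_nonneg {k : ℝ → ℝ} {A : ℝ} {N : ℕ}
    (h : ∀ t, |k t| ≤ A * (1 + |t|) ^ N * Real.exp (-|t|)) : 0 ≤ A := by
  have h1 := (abs_nonneg _).trans (h 0)
  simpa using h1

private theorem r03_zero : IsK (fun _ => (0 : ℝ)) :=
  ⟨continuous_const, 0, 0, fun t => by simp⟩

private theorem r03_const {k : ℝ → ℝ} (hk : IsK k) (c : ℝ) : IsK (fun t => c * k t) := by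
  obtain ⟨hc, A, N, h⟩ := hk
  refine ⟨continuous_const.mul hc, |c| * A, N, fun t => ?_⟩
  rw [abs_mul, mul_assoc, mul_assoc]
  refine mul_le_mul_of_nonneg_left ?_ (abs_nonneg c)
  rw [← mul_assoc]
  exact h t

private theorem r03_add {k l : ℝ → ℝ} (hk : IsK k) (hl : IsK l) : IsK (fun t => k t + l t) := by
  obtain ⟨hc, A, N, h⟩ := hk
  obtain ⟨hc', A', N', h'⟩ := hl
  have hA := r03_nonneg h
  have hA' := r03_nonneg h'
  refine ⟨hc.add hc', A + A', N + N', fun t => ?_⟩
  have h1 : (1 : ℝ) ≤ 1 + |t| := by linarith [abs_nonneg t]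
  have h2 : (1 + |t|) ^ N ≤ (1 + |t|) ^ (N + N') := pow_le_pow_right₀ h1 (Nat.le_add_right _ _)
  have h3 : (1 + |t|) ^ N' ≤ (1 + |t|) ^ (N + N') := pow_le_pow_right₀ h1 (Nat.le_add_left _ _)
  have he := Real.exp_pos (-|t|)
  calc |k t + l t| ≤ |k t| + |l t| := abs_add_le _ _
    _ ≤ A * (1 + |t|) ^ N * Real.exp (-|t|) + A' * (1 + |t|) ^ N' * Real.exp (-|t|) :=
        add_le_add (h t) (h' t)
    _ ≤ A * (1 + |t|) ^ (N + N') * Real.exp (-|t|) +
          A' * (1 + |t|) ^ (N + N') * Real.exp (-|t|) := by gcongr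
    _ = (A + A') * (1 + |t|) ^ (N + N') * Real.exp (-|t|) := by ring

theorem IsK.sum {ι : Type*} (s : Finset ι) (c : ι → ℝ) (k : ι → ℝ → ℝ) (hk : ∀ i ∈ s, IsK (k i)) :
    IsK (fun t => ∑ i ∈ s, c i * k i t) ∧
    ∀ y : ℝ, |y| < 1 → Lap (fun t => ∑ i ∈ s, c i * k i t) y = ∑ i ∈ s, c i * Lap (k i) y := by
  classical
  constructor
  · induction s using Finset.induction_on with
    | empty =>
      simp only [Finset.sum_empty]
      exact r03_zero
    | insert a s ha ih =>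
      simp only [Finset.sum_insert ha]
      exact r03_add (r03_const (hk a (Finset.mem_insert_self _ _)) (c a))
        (ih fun i hi => hk i (Finset.mem_insert_of_mem hi))
  · intro y hy
    unfold Lap
    have h1 : ∀ t : ℝ, Real.exp (y * t) * ∑ i ∈ s, c i * k i t =
        ∑ i ∈ s, c i * (Real.exp (y * t) * k i t) := by
      intro t
      rw [Finset.mul_sum]
      exact Finset.sum_congr rfl fun i _ => by ring
    simp only [h1]
    rw [integral_finsetSum s fun i hi => ((hk i hi).integrable hy).const_mul (c i)]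
    exact Finset.sum_congr rfl fun i _ => integral_const_mul _ _

private theorem r03_cosh (t : ℝ) : (Real.cosh t)⁻¹ ≤ 2 * Real.exp (-|t|) := by
  have h1 : Real.exp |t| / 2 ≤ Real.cosh t := by
    rw [← Real.cosh_abs t, Real.cosh_eq]
    have := Real.exp_pos (-|t|)
    linarith
  have h2 : (0 : ℝ) < Real.exp |t| / 2 := by positivity
  calc (Real.cosh t)⁻¹ ≤ (Real.exp |t| / 2)⁻¹ := inv_anti₀ h2 h1
    _ = 2 * Real.exp (-|t|) := by
        rw [Real.exp_neg, inv_div, div_eq_mul_inv]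

theorem kr_isK (j p : ℕ) (hp : 1 ≤ p) : IsK (kr j p) := by
  refine ⟨?_, 2, j, fun t => ?_⟩
  · unfold kr
    exact (continuous_id.pow j).mul
      ((Real.continuous_cosh.inv₀ fun t => (Real.cosh_pos t).ne').pow p)
  · unfold kr
    have hc : 0 < (Real.cosh t)⁻¹ := inv_pos.2 (Real.cosh_pos t)
    have hc1 : (Real.cosh t)⁻¹ ≤ 1 := inv_le_one_of_one_le₀ (Real.one_le_cosh t)
    have h1 : (Real.cosh t)⁻¹ ^ p ≤ (Real.cosh t)⁻¹ :=
      pow_le_of_le_one hc.le hc1 (by omega)
    have h2 := h1.trans (r03_cosh t)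
    rw [abs_mul, abs_pow, abs_pow, abs_of_pos hc]
    calc |t| ^ j * (Real.cosh t)⁻¹ ^ p ≤ (1 + |t|) ^ j * (2 * Real.exp (-|t|)) := by
          gcongr
          linarith
      _ = 2 * (1 + |t|) ^ j * Real.exp (-|t|) := by ring

theorem ph_even (b p : ℕ) (y : ℝ) : ph (2 * b) p (-y) = ph (2 * b) p y := by
  unfold ph Lap
  rw [← integral_neg_eq_self]
  refine integral_congr_ae (Filter.Eventually.of_forall fun t => ?_)
  simp only [kr, Real.cosh_neg, (even_two_mul b).neg_pow]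
  rw [neg_mul_neg]

theorem ph_deriv (j p : ℕ) (hp : 1 ≤ p) {y : ℝ} (hy : |y| < 1) :
    HasDerivAt (ph j p) (ph (j + 1) p y) y := by
  have h1 := (kr_isK j p hp).hasDerivAt hy
  have h2 : (fun t => t * kr j p t) = kr (j + 1) p := by
    funext t
    unfold kr
    ring
  rw [h2] at h1
  exact h1

end Pool.Agent.LibCN21
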