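import Mathlib
import Pool.Agent.LibCN21.Defs
import Pool.Agent.LibCN21.R02
import Pool.Agent.LibCN21.R03

/-! Row R04.
|ph j p y| <= int e^(|y||t|) |t|^j 2 e^(-|t|) dt = 4 int_0^oo t^j e^(-(1-|y|)t) dt = 4 j!/(1-|y|)^(j+1).
(cosh t)⁻¹ ^ p <= (cosh t)⁻¹ <= 2 e^(-|t|) (p >= 1). Mathlib: `integral_comp_abs` (int f(|x|) = 2 int_{Ioi 0} f), `Real.integral_rpow_mul_exp_neg_mul_Ioi`
or `integral_pow_mul_exp_neg_mul_Ioi`-like, Real.Gamma_nat_eq_factorial. `norm_integral_le_of_norm_le`.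
-/

set_option autoImplicit false

namespace Pool.Agent.LibCN21

open Pool.Agent.LibOT77 Polynomial MeasureTheory Filter Topology

private theorem r04_cosh (t : ℝ) : (Real.cosh t)⁻¹ ≤ 2 * Real.exp (-|t|) := by
  have h1 : Real.exp |t| / 2 ≤ Real.cosh t := by
    rw [← Real.cosh_abs t, Real.cosh_eq]
    have := Real.exp_pos (-|t|)
    linarith
  have h2 : (0 : ℝ) < Real.exp |t| / 2 := by positivity
  calc (Real.cosh t)⁻¹ ≤ (Real.exp |t| / 2)⁻¹ := inv_anti₀ h2 h1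
    _ = 2 * Real.exp (-|t|) := by
        rw [Real.exp_neg, inv_div, div_eq_mul_inv]

private theorem r04_int (j : ℕ) {r : ℝ} (hr : 0 < r) :
    ∫ t : ℝ, 2 * (|t| ^ j * Real.exp (-(r * |t|))) = 4 * j.factorial / r ^ (j + 1) := by
  have h1 := integral_comp_abs (f := fun t : ℝ => 2 * (t ^ j * Real.exp (-(r * t))))
  rw [h1, integral_const_mul]
  have h2 := Real.integral_rpow_mul_exp_neg_mul_Ioi (a := (j : ℝ) + 1) (r := r) (by positivity) hr
  have h3 : ∫ t in Set.Ioi (0 : ℝ), t ^ j * Real.exp (-(r * t)) =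
      ∫ t in Set.Ioi (0 : ℝ), t ^ ((j : ℝ) + 1 - 1) * Real.exp (-(r * t)) := by
    refine setIntegral_congr_fun measurableSet_Ioi fun t _ => ?_
    rw [add_sub_cancel_right, Real.rpow_natCast]
  rw [h3, h2, Real.Gamma_nat_eq_factorial]
  have h4 : (1 / r) ^ ((j : ℝ) + 1) = 1 / r ^ (j + 1) := by
    have : ((j : ℝ) + 1) = ((j + 1 : ℕ) : ℝ) := by push_cast; ring
    rw [this, Real.rpow_natCast, one_div_pow]
  rw [h4]
  ring

theorem ph_bound (j p : ℕ) (hp : 1 ≤ p) {y : ℝ} (hy : |y| < 1) :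
    |ph j p y| ≤ 4 * j.factorial / (1 - |y|) ^ (j + 1) := by
  have hr : 0 < 1 - |y| := by linarith
  have hI := r04_int j hr
  have hpos : 0 < 4 * (j.factorial : ℝ) / (1 - |y|) ^ (j + 1) := by positivity
  have hint : Integrable (fun t : ℝ => 2 * (|t| ^ j * Real.exp (-((1 - |y|) * |t|)))) := by
    apply Integrable.of_integral_ne_zero
    rw [hI]
    exact hpos.ne'
  rw [← hI, ← Real.norm_eq_abs]
  unfold ph Lap
  refine norm_integral_le_of_norm_le hint (Filter.Eventually.of_forall fun t => ?_)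
  have hc : 0 < (Real.cosh t)⁻¹ := inv_pos.2 (Real.cosh_pos t)
  have hc1 : (Real.cosh t)⁻¹ ≤ 1 := inv_le_one_of_one_le₀ (Real.one_le_cosh t)
  have h1 : (Real.cosh t)⁻¹ ^ p ≤ (Real.cosh t)⁻¹ := pow_le_of_le_one hc.le hc1 (by omega)
  have h2 := h1.trans (r04_cosh t)
  have h3 : Real.exp (y * t) ≤ Real.exp (|y| * |t|) := by
    apply Real.exp_le_exp.2
    rw [← abs_mul]
    exact le_abs_self _
  unfold kr
  rw [Real.norm_eq_abs, abs_mul, abs_mul, abs_pow, abs_pow, abs_of_pos hc, abs_of_pos (Real.exp_pos _)]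
  have h4 : Real.exp (-((1 - |y|) * |t|)) = Real.exp (|y| * |t|) * Real.exp (-|t|) := by
    rw [← Real.exp_add]
    congr 1
    ring
  calc Real.exp (y * t) * (|t| ^ j * (Real.cosh t)⁻¹ ^ p)
      ≤ Real.exp (|y| * |t|) * (|t| ^ j * (2 * Real.exp (-|t|))) := by gcongr
    _ = 2 * (|t| ^ j * Real.exp (-((1 - |y|) * |t|))) := by rw [h4]; ring

end Pool.Agent.LibCN21
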