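import Mathlib
import Pool.Agent.LibCN21.Defs
import Pool.Agent.LibCN21.R02
import Pool.Agent.LibCN21.R03

/-! Row R05: the recursion for the Laplace transforms of the powers of the hyperbolic secant. -/

set_option autoImplicit false

namespace Pool.Agent.LibCN21

open Pool.Agent.LibOT77 Polynomial MeasureTheory Filter Topology

/-- the derivative of `sech^p` -/
noncomputable def R05_d (p : ℕ) (t : ℝ) : ℝ := -(p * (Real.sinh t * (Real.cosh t)⁻¹ ^ (p + 1)))

theorem R05_kr (p : ℕ) : kr 0 p = fun t => (Real.cosh t)⁻¹ ^ p := by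
  funext t
  unfold kr
  rw [pow_zero, one_mul]

theorem R05_deriv (p : ℕ) (t : ℝ) : HasDerivAt (kr 0 p) (R05_d p t) t := by
  rw [R05_kr]
  have hc := Real.cosh_pos t
  have h1 : HasDerivAt (fun t => (Real.cosh t)⁻¹) (-Real.sinh t / Real.cosh t ^ 2) t :=
    (Real.hasDerivAt_cosh t).inv hc.ne'
  have h2 := h1.pow p
  refine h2.congr_deriv ?_
  unfold R05_d
  cases p with
  | zero => simp
  | succ p =>
    simp only [Nat.add_sub_cancel]
    push_cast
    rw [pow_succ _ (p + 1), pow_succ _ p]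
    field_simp

theorem R05_deriv2 (p : ℕ) (t : ℝ) : HasDerivAt (R05_d p) ((p : ℝ) ^ 2 * kr 0 p t - p * (p + 1) * kr 0 (p + 2) t) t := by
  have hc := Real.cosh_pos t
  have h1 : HasDerivAt (fun t => (Real.cosh t)⁻¹) (-Real.sinh t / Real.cosh t ^ 2) t :=
    (Real.hasDerivAt_cosh t).inv hc.ne'
  have h2 := h1.pow (p + 1)
  have h3 := (((Real.hasDerivAt_sinh t).mul h2).const_mul (p : ℝ)).neg
  refine h3.congr_deriv ?_
  rw [R05_kr, R05_kr]
  have h4 : Real.sinh t ^ 2 = Real.cosh t ^ 2 - 1 := by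
    have := Real.cosh_sq t
    linarith
  simp only [Nat.add_sub_cancel, Pi.pow_apply]
  push_cast
  have h5 : (Real.cosh t)⁻¹ * Real.cosh t = 1 := inv_mul_cancel₀ hc.ne'
  have e1 : (Real.cosh t)⁻¹ ^ (p + 1) = (Real.cosh t)⁻¹ ^ p * (Real.cosh t)⁻¹ := pow_succ _ _
  have e2 : (Real.cosh t)⁻¹ ^ (p + 2) = (Real.cosh t)⁻¹ ^ p * (Real.cosh t)⁻¹ ^ 2 := pow_add _ _ _
  rw [e1, e2]
  generalize (Real.cosh t)⁻¹ ^ p = u
  have e3 : -Real.sinh t / Real.cosh t ^ 2 = -Real.sinh t * (Real.cosh t)⁻¹ ^ 2 := by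
    field_simp
  rw [e3]
  generalize (Real.cosh t)⁻¹ = v at h5 ⊢
  generalize Real.cosh t = w at h4 h5 ⊢
  have e4 : v ^ 2 * w ^ 2 = 1 := by rw [← mul_pow, h5, one_pow]
  linear_combination (p : ℝ) * (p + 1) * u * v ^ 2 * h4 + (p : ℝ) * (p + 1) * u * e4 - (p : ℝ) * u * h5

theorem R05_isK (p : ℕ) (hp : 1 ≤ p) : IsK (R05_d p) := by
  constructor
  · exact continuous_iff_continuousAt.2 fun t => (R05_deriv2 p t).continuousAt
  · obtain ⟨_, A, N, h⟩ := kr_isK 0 p hp
    refine ⟨p * A, N, fun t => ?_⟩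
    have h1 := h t
    rw [R05_kr] at h1
    have hc := Real.cosh_pos t
    have h2 : |R05_d p t| ≤ p * |(Real.cosh t)⁻¹ ^ p| := by
      unfold R05_d
      rw [abs_neg, abs_mul, Nat.abs_cast, abs_mul, pow_succ, abs_mul]
      refine mul_le_mul_of_nonneg_left ?_ (Nat.cast_nonneg p)
      have h3 : |Real.sinh t| * |(Real.cosh t)⁻¹| ≤ 1 := by
        rw [abs_of_pos (inv_pos.2 hc), ← div_eq_mul_inv, div_le_one hc, abs_le]
        constructor
        · have := Real.exp_pos t
          have e := Real.sinh_add_cosh t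
          linarith
        · have := Real.exp_pos (-t)
          have e := Real.cosh_sub_sinh t
          linarith
      calc |Real.sinh t| * (|(Real.cosh t)⁻¹ ^ p| * |(Real.cosh t)⁻¹|)
          = |(Real.cosh t)⁻¹ ^ p| * (|Real.sinh t| * |(Real.cosh t)⁻¹|) := by ring
        _ ≤ |(Real.cosh t)⁻¹ ^ p| * 1 := mul_le_mul_of_nonneg_left h3 (abs_nonneg _)
        _ = _ := mul_one _
    refine h2.trans ?_
    calc (p : ℝ) * |(Real.cosh t)⁻¹ ^ p| ≤ p * (A * (1 + |t|) ^ N * Real.exp (-|t|)) :=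
          mul_le_mul_of_nonneg_left h1 (Nat.cast_nonneg p)
      _ = _ := by ring

theorem R05_parts {k k' : ℝ → ℝ} (hk : IsK k) (hk' : IsK k') (hd : ∀ t, HasDerivAt k (k' t) t) {y : ℝ} (hy : |y| < 1) :
    Lap k' y = -(y * Lap k y) := by
  unfold Lap
  have hu : ∀ t : ℝ, HasDerivAt (fun t : ℝ => Real.exp (y * t)) (y * Real.exp (y * t)) t := by
    intro t
    have h1 : HasDerivAt (fun t : ℝ => y * t) y t := by
      simpa using (hasDerivAt_id t).const_mul y
    have h2 := h1.exp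
    rw [mul_comm] at h2
    exact h2
  have h := integral_mul_deriv_eq_deriv_mul_of_integrable (u := fun t : ℝ => Real.exp (y * t)) (v := k)
    (u' := fun t => y * Real.exp (y * t)) (v' := k') (fun t _ => hu t) (fun t _ => hd t) (hk'.integrable hy)
    (by
      have := (hk.integrable hy).const_mul y
      refine this.congr (Eventually.of_forall fun t => ?_)
      simp only [Pi.mul_apply]
      ring) (hk.integrable hy)
  rw [h, ← integral_const_mul]
  congr 2
  funext t
  ring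

theorem ph_rec (p : ℕ) (hp : 1 ≤ p) {y : ℝ} (hy : |y| < 1) :
    ((p : ℝ) ^ 2 - y ^ 2) * ph 0 p y = p * (p + 1) * ph 0 (p + 2) y := by
  have k0 := kr_isK 0 p hp
  have k1 := R05_isK p hp
  have k2' := kr_isK 0 (p + 2) (by omega)
  have h1 := R05_parts k0 k1 (R05_deriv p) hy
  have k3 := (IsK.sum (Finset.univ : Finset (Fin 2)) ![(p : ℝ) ^ 2, -(p * (p + 1))] ![kr 0 p, kr 0 (p + 2)] (by
    intro i _
    fin_cases i
    · exact k0
    · exact k2'))
  have h2 : (fun t => ∑ i, (![(p : ℝ) ^ 2, -(p * (p + 1))] : Fin 2 → ℝ) i * (![kr 0 p, kr 0 (p + 2)] : Fin 2 → ℝ → ℝ) i t) =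
      fun t => (p : ℝ) ^ 2 * kr 0 p t - p * (p + 1) * kr 0 (p + 2) t := by
    funext t
    rw [Fin.sum_univ_two]
    simp
    ring
  rw [h2] at k3
  have h3 := R05_parts k1 k3.1 (R05_deriv2 p) hy
  have h4 := k3.2 y hy
  rw [Fin.sum_univ_two] at h4
  simp only [Matrix.cons_val_zero, Matrix.cons_val_one] at h4
  unfold ph
  rw [h3, h1] at h4
  linear_combination -h4

theorem be_ph (a : ℕ) {y : ℝ} (hy : |y| < 1) :
    at1 (be a) y * ph 0 1 y = (2 * a).factorial * ph 0 (2 * a + 1) y := by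
  induction a with
  | zero =>
    have : at1 (be 0) y = 1 := by
      unfold at1 be
      simp
    rw [this]
    simp
  | succ a ih =>
    have h1 : at1 (be (a + 1)) y = at1 (be a) y * ((2 * (a : ℝ) + 1) ^ 2 - y ^ 2) := by
      unfold at1 be
      rw [Finset.prod_range_succ, Polynomial.map_mul, eval_mul]
      congr 1
      simp
    have h2 := ph_rec (2 * a + 1) (by omega) hy
    have h3 : (2 * (a + 1)).factorial = (2 * a + 2) * ((2 * a + 1) * (2 * a).factorial) := by
      have : 2 * (a + 1) = (2 * a + 1) + 1 := by ring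
      rw [this, Nat.factorial_succ, Nat.factorial_succ]
    rw [h1, h3]
    have h4 : 2 * (a + 1) + 1 = 2 * a + 1 + 2 := by ring
    rw [h4]
    push_cast at h2 ⊢
    linear_combination ((2 * (a : ℝ) + 1) ^ 2 - y ^ 2) * ih + ((2 * a).factorial : ℝ) * h2

end Pool.Agent.LibCN21
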