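import Mathlib
import Pool.Agent.LibCN21.Defs
import Pool.Agent.LibCN21.R02
import Pool.Agent.LibCN21.R03

/-! Row R06: the Laplace transform of the hyperbolic secant. -/

set_option autoImplicit false

namespace Pool.Agent.LibCN21

open Pool.Agent.LibOT77 Polynomial MeasureTheory Filter Topology

/-- the substitution -/
noncomputable def R06_f (t : ℝ) : ℝ := (1 + Real.exp (-2 * t))⁻¹

theorem R06_image : R06_f '' Set.univ = Set.Ioo 0 1 := by
  rw [Set.image_univ]
  ext x
  constructor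
  · rintro ⟨t, rfl⟩
    have h := Real.exp_pos (-2 * t)
    exact ⟨by unfold R06_f; positivity, inv_lt_one_of_one_lt₀ (by linarith)⟩
  · rintro ⟨h0, h1⟩
    refine ⟨-(1 / 2) * Real.log ((1 - x) / x), ?_⟩
    have h2 : 0 < (1 - x) / x := div_pos (by linarith) h0
    unfold R06_f
    have h3 : -2 * (-(1 / 2) * Real.log ((1 - x) / x)) = Real.log ((1 - x) / x) := by ring
    rw [h3, Real.exp_log h2]
    field_simp
    ring

theorem R06_inj : Set.InjOn R06_f Set.univ := by
  intro s _ t _ h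
  unfold R06_f at h
  have h1 : 1 + Real.exp (-2 * s) = 1 + Real.exp (-2 * t) := inv_injective h
  have h2 : Real.exp (-2 * s) = Real.exp (-2 * t) := by linarith
  have h3 := Real.exp_injective h2
  linarith

theorem R06_deriv (t : ℝ) : HasDerivAt R06_f (2 * Real.exp (-2 * t) / (1 + Real.exp (-2 * t)) ^ 2) t := by
  have h1 : HasDerivAt (fun t : ℝ => 1 + Real.exp (-2 * t)) (Real.exp (-2 * t) * (-2)) t := by
    have h2 : HasDerivAt (fun t : ℝ => -2 * t) (-2) t := by
      simpa using (hasDerivAt_id t).const_mul (-2 : ℝ)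
    exact (h2.exp).const_add 1
  have h0 : 1 + Real.exp (-2 * t) ≠ 0 := by positivity
  have h3 := h1.inv h0
  have h4 : -(Real.exp (-2 * t) * (-2)) / (1 + Real.exp (-2 * t)) ^ 2 = 2 * Real.exp (-2 * t) / (1 + Real.exp (-2 * t)) ^ 2 := by
    ring
  rw [h4] at h3
  exact h3

theorem R06_integrand (a y t : ℝ) (ha : a = (1 + y) / 2) :
    |2 * Real.exp (-2 * t) / (1 + Real.exp (-2 * t)) ^ 2| • ((R06_f t) ^ (a - 1) * (1 - R06_f t) ^ (-a)) =
      Real.exp (y * t) * (t ^ 0 * (Real.cosh t)⁻¹ ^ 1) := by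
  have hE := Real.exp_pos (-2 * t)
  have h1E : 0 < 1 + Real.exp (-2 * t) := by positivity
  have h1 : 1 - R06_f t = Real.exp (-2 * t) / (1 + Real.exp (-2 * t)) := by
    unfold R06_f
    field_simp
    ring
  rw [abs_of_pos (by positivity), h1, Real.div_rpow hE.le h1E.le]
  unfold R06_f
  rw [Real.inv_rpow h1E.le, ← Real.rpow_neg h1E.le, smul_eq_mul, pow_zero, one_mul, pow_one]
  have h2 : Real.exp (-2 * t) ^ (-a) = Real.exp (2 * t * a) := by
    rw [← Real.exp_mul]
    congr 1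
    ring
  rw [h2]
  have h3 : (1 + Real.exp (-2 * t)) ^ (-(a - 1)) * (Real.exp (2 * t * a) / (1 + Real.exp (-2 * t)) ^ (-a)) =
      (1 + Real.exp (-2 * t)) * Real.exp (2 * t * a) := by
    have h4 : (1 + Real.exp (-2 * t)) ^ (-(a - 1)) / (1 + Real.exp (-2 * t)) ^ (-a) = 1 + Real.exp (-2 * t) := by
      rw [← Real.rpow_sub h1E]
      have h5 : -(a - 1) - -a = 1 := by ring
      rw [h5, Real.rpow_one]
    rw [mul_div_assoc', mul_comm ((1 + Real.exp (-2 * t)) ^ (-(a - 1))), mul_div_assoc, h4]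
    ring
  rw [h3, Real.cosh_eq]
  have h6 : Real.exp t + Real.exp (-t) = Real.exp t * (1 + Real.exp (-2 * t)) := by
    rw [mul_add, mul_one, ← Real.exp_add]
    congr 2
    ring
  rw [h6]
  have h7 : Real.exp (-2 * t) * Real.exp (2 * t * a) * Real.exp t = Real.exp (y * t) := by
    rw [← Real.exp_add, ← Real.exp_add, ha]
    congr 1
    ring
  have h8 := Real.exp_pos t
  rw [← h7]
  field_simp

theorem R06_beta {a : ℝ} (h0 : 0 < a) (h1 : a < 1) :
    ∫ x in Set.Ioo (0 : ℝ) 1, x ^ (a - 1) * (1 - x) ^ (-a) = Real.pi / Real.sin (Real.pi * a) := by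
  have e1 := Complex.Gamma_mul_Gamma_eq_betaIntegral (s := (a : ℂ)) (t := 1 - (a : ℂ)) (by simpa using h0)
    (by simp [h1])
  rw [Complex.Gamma_mul_Gamma_one_sub] at e1
  have e2 : (a : ℂ) + (1 - (a : ℂ)) = 1 := by ring
  rw [e2, Complex.Gamma_one, one_mul] at e1
  have e3 : Complex.betaIntegral (a : ℂ) (1 - (a : ℂ)) =
      ((∫ x in Set.Ioo (0 : ℝ) 1, x ^ (a - 1) * (1 - x) ^ (-a) : ℝ) : ℂ) := by
    unfold Complex.betaIntegral
    rw [intervalIntegral.integral_of_le zero_le_one, integral_Ioc_eq_integral_Ioo, ← integral_complex_ofReal]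
    refine setIntegral_congr_fun measurableSet_Ioo fun x hx => ?_
    have hx0 : (0 : ℝ) ≤ x := hx.1.le
    have hx1 : (0 : ℝ) ≤ 1 - x := by linarith [hx.2]
    rw [Complex.ofReal_mul, Complex.ofReal_cpow hx0, Complex.ofReal_cpow hx1]
    push_cast
    congr 2
    ring
  rw [e3] at e1
  have e4 : ((Real.pi / Real.sin (Real.pi * a) : ℝ) : ℂ) =
      ((∫ x in Set.Ioo (0 : ℝ) 1, x ^ (a - 1) * (1 - x) ^ (-a) : ℝ) : ℂ) := by
    rw [← e1]
    push_cast
    rfl
  exact (Complex.ofReal_injective e4).symm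

theorem ph_one {y : ℝ} (hy : |y| < 1) : ph 0 1 y = Real.pi / Real.cos (Real.pi * y / 2) := by
  obtain ⟨h0, h1⟩ := abs_lt.1 hy
  have hb := R06_beta (a := (1 + y) / 2) (by linarith) (by linarith)
  have hs : Real.sin (Real.pi * ((1 + y) / 2)) = Real.cos (Real.pi * y / 2) := by
    have : Real.pi * ((1 + y) / 2) = Real.pi * y / 2 + Real.pi / 2 := by ring
    rw [this, Real.sin_add_pi_div_two]
  rw [hs] at hb
  rw [← hb, ← R06_image, integral_image_eq_integral_abs_deriv_smul MeasurableSet.univ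
    (fun t _ => (R06_deriv t).hasDerivWithinAt) R06_inj, setIntegral_univ]
  unfold ph Lap kr
  refine integral_congr_ae (Eventually.of_forall fun t => ?_)
  exact (R06_integrand _ y t rfl).symm

end Pool.Agent.LibCN21
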