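import Mathlib
import Pool.Agent.LibCN21.Defs
import Pool.Agent.LibCN21.R02
import Pool.Agent.LibCN21.R03
import Pool.Agent.LibCN21.R04

/-! Row R07.
|ph j i y| <= 4 j!/(1-|y|)^(j+1) (ph_bound), p(1+y) = (1-y^2)^(j+1) r(1+y), (1-y^2)/(1-|y|) = 1+|y| <= 2: p(1+y) ph j i y is bounded on (-1,1), continuous there
(ph_deriv), value 0 at ±1. by_parts: `intervalIntegral.integral_eq_sub_of_hasDerivAt_of_tendsto` for p(1+y) ph j i y on (-1,1), derivative
p'(1+y) ph j i y + p(1+y) ph (j+1) i y (both integrable by int_ph; p' is divisible by w^(j+1)), limits 0 at ±1 as |p(1+y)| <= C (1-|y|)^(j+2).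
-/

set_option autoImplicit false

namespace Pool.Agent.LibCN21

open Pool.Agent.LibOT77 Polynomial MeasureTheory Filter Topology

theorem R07_bd (r : ℝ[X]) : ∃ R : ℝ, 0 ≤ R ∧ ∀ y : ℝ, |y| < 1 → |r.eval (1 + y)| ≤ R := by
  have hc : ContinuousOn (fun y : ℝ => r.eval (1 + y)) (Set.Icc (-1) 1) := by
    fun_prop
  obtain ⟨R, hR⟩ := isCompact_Icc.exists_bound_of_continuousOn hc
  refine ⟨max R 0, le_max_right _ _, fun y hy => ?_⟩
  have h1 := abs_lt.1 hy
  exact (hR y ⟨h1.1.le, h1.2.le⟩).trans (le_max_left _ _)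

theorem R07_eval (r : ℝ[X]) (m : ℕ) (y : ℝ) :
    ((X * (2 - X)) ^ m * r : ℝ[X]).eval (1 + y) = (1 - y ^ 2) ^ m * r.eval (1 + y) := by
  simp only [eval_mul, eval_pow, eval_X, eval_sub, eval_ofNat]
  congr 2
  ring

theorem R07_key (r : ℝ[X]) (j i k : ℕ) (hi : 1 ≤ i) : ∃ C : ℝ, 0 ≤ C ∧ ∀ y : ℝ, |y| < 1 →
    |((X * (2 - X)) ^ (j + 1 + k) * r : ℝ[X]).eval (1 + y) * ph j i y| ≤ C * (1 - y ^ 2) ^ k := by
  obtain ⟨R, hR0, hR⟩ := R07_bd r
  refine ⟨R * (4 * j.factorial * 2 ^ (j + 1)), by positivity, fun y hy => ?_⟩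
  have h1 := ph_bound j i hi hy
  have h2 := hR y hy
  have h3 : 0 < 1 - |y| := by linarith
  have h4 : 1 - y ^ 2 = (1 - |y|) * (1 + |y|) := by
    rw [← sq_abs]
    ring
  have h5 : 0 < 1 - y ^ 2 := by
    rw [h4]
    have := abs_nonneg y
    positivity
  rw [R07_eval, abs_mul, abs_mul, abs_pow, abs_of_pos h5]
  have h6 : (1 + |y|) ^ (j + 1) ≤ 2 ^ (j + 1) := by
    apply pow_le_pow_left₀
    · have := abs_nonneg y
      positivity
    · linarith
  have h7 : 4 * (j.factorial : ℝ) / (1 - |y|) ^ (j + 1) * (1 - y ^ 2) ^ (j + 1) =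
      4 * j.factorial * (1 + |y|) ^ (j + 1) := by
    rw [h4, mul_pow]
    field_simp
  calc (1 - y ^ 2) ^ (j + 1 + k) * |eval (1 + y) r| * |ph j i y|
      ≤ (1 - y ^ 2) ^ (j + 1 + k) * R * (4 * j.factorial / (1 - |y|) ^ (j + 1)) := by
        gcongr
    _ = R * (4 * (j.factorial : ℝ) / (1 - |y|) ^ (j + 1) * (1 - y ^ 2) ^ (j + 1)) *
        (1 - y ^ 2) ^ k := by
        ring
    _ = R * (4 * j.factorial * (1 + |y|) ^ (j + 1)) * (1 - y ^ 2) ^ k := by
        rw [h7]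
    _ ≤ R * (4 * j.factorial * 2 ^ (j + 1)) * (1 - y ^ 2) ^ k := by
        gcongr

theorem int_ph (p : ℝ[X]) (j i : ℕ) (hi : 1 ≤ i) (hp : (X * (2 - X)) ^ (j + 1) ∣ p) :
    IntervalIntegrable (fun y : ℝ => p.eval (1 + y) * ph j i y) volume (-1) 1 := by
  obtain ⟨r, rfl⟩ := hp
  obtain ⟨C, hC0, hC⟩ := R07_key r j i 0 hi
  rw [intervalIntegrable_iff_integrableOn_Ioo_of_le (by norm_num)]
  have hcont : ContinuousOn (fun y : ℝ => ((X * (2 - X)) ^ (j + 1) * r : ℝ[X]).eval (1 + y) *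
      ph j i y) (Set.Ioo (-1) 1) := by
    intro y hy
    have hy' : |y| < 1 := abs_lt.2 ⟨hy.1, hy.2⟩
    apply ContinuousAt.continuousWithinAt
    refine ContinuousAt.mul ?_ (ph_deriv j i hi hy').continuousAt
    exact Continuous.continuousAt (by fun_prop)
  refine IntegrableOn.of_bound measure_Ioo_lt_top
    (hcont.aestronglyMeasurable measurableSet_Ioo) C ?_
  · refine (ae_restrict_iff' measurableSet_Ioo).2 (Eventually.of_forall fun y hy => ?_)
    have hy' : |y| < 1 := abs_lt.2 ⟨hy.1, hy.2⟩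
    have := hC y hy'
    simpa using this

theorem by_parts (p : ℝ[X]) (j i : ℕ) (hi : 1 ≤ i) (hp : (X * (2 - X)) ^ (j + 2) ∣ p) :
    ∫ y in (-1 : ℝ)..1, (derivative p).eval (1 + y) * ph j i y =
      -∫ y in (-1 : ℝ)..1, p.eval (1 + y) * ph (j + 1) i y := by
  have hd : (X * (2 - X)) ^ (j + 1) ∣ derivative p := by
    have := pow_sub_one_dvd_derivative_of_pow_dvd hp
    simpa using this
  have i1 := int_ph (derivative p) j i hi hd
  have i2 := int_ph p (j + 1) i hi hp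
  obtain ⟨r, hr⟩ := hp
  obtain ⟨C, hC0, hC⟩ := R07_key r j i 1 hi
  have hder : ∀ y ∈ Set.Ioo (-1 : ℝ) 1, HasDerivAt (fun y : ℝ => p.eval (1 + y) * ph j i y)
      ((derivative p).eval (1 + y) * ph j i y + p.eval (1 + y) * ph (j + 1) i y) y := by
    intro y hy
    have hy' : |y| < 1 := abs_lt.2 ⟨hy.1, hy.2⟩
    refine HasDerivAt.mul ?_ (ph_deriv j i hi hy')
    have h1 : HasDerivAt (fun y : ℝ => 1 + y) 1 y := by
      simpa using (hasDerivAt_id y).const_add 1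
    have h2 := (p.hasDerivAt (1 + y)).comp y h1
    rw [mul_one] at h2
    exact h2
  have hbound : ∀ y : ℝ, |y| < 1 → |p.eval (1 + y) * ph j i y| ≤ C * (1 - y ^ 2) := by
    intro y hy
    have h1 := hC y hy
    rw [pow_one] at h1
    have h2 : j + 1 + 1 = j + 2 := rfl
    rw [h2, ← hr] at h1
    exact h1
  have hlim : Continuous fun y : ℝ => C * (1 - y ^ 2) := by fun_prop
  have ha : Tendsto (fun y : ℝ => p.eval (1 + y) * ph j i y) (𝓝[>] (-1)) (𝓝 0) := by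
    refine squeeze_zero_norm' ?_ ?_ (a := fun y : ℝ => C * (1 - y ^ 2))
    · have h1 : Set.Ioo (-1 : ℝ) 1 ∈ 𝓝[>] (-1 : ℝ) := Ioo_mem_nhdsGT (by norm_num)
      filter_upwards [h1] with y hy
      exact hbound y (abs_lt.2 ⟨hy.1, hy.2⟩)
    · have h1 := (hlim.tendsto (-1)).mono_left (nhdsWithin_le_nhds (s := Set.Ioi (-1)))
      simpa using h1
  have hb : Tendsto (fun y : ℝ => p.eval (1 + y) * ph j i y) (𝓝[<] 1) (𝓝 0) := by
    refine squeeze_zero_norm' ?_ ?_ (a := fun y : ℝ => C * (1 - y ^ 2))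
    · have h1 : Set.Ioo (-1 : ℝ) 1 ∈ 𝓝[<] (1 : ℝ) := Ioo_mem_nhdsLT (by norm_num)
      filter_upwards [h1] with y hy
      exact hbound y (abs_lt.2 ⟨hy.1, hy.2⟩)
    · have h1 := (hlim.tendsto 1).mono_left (nhdsWithin_le_nhds (s := Set.Iio 1))
      simpa using h1
  have h3 := intervalIntegral.integral_eq_sub_of_hasDerivAt_of_tendsto (by norm_num) hder
    (i1.add i2) ha hb
  rw [intervalIntegral.integral_add i1 i2] at h3
  linarith

end Pool.Agent.LibCN21
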