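import Mathlib
import Pool.Agent.LibCN21.Defs
import Pool.Agent.LibCN21.R07

/-! Row R08.
Prove by induction on j the statement: for all k and p with (X(2-X))^(k+j+1) | p : int (D^j p)(1+y) ph k i y = (-1)^j int p(1+y) ph (k+j) i y; step:
D^(j+1) p = D^j (D p), D p is divisible by w^(k+j+1) if p is divisible by w^(k+j+2); then by_parts with (p, k+j). k = 0 is the claim.
-/

set_option autoImplicit false

namespace Pool.Agent.LibCN21

open Pool.Agent.LibOT77 Polynomial MeasureTheory Filter Topology

private theorem r08_gen (i : ℕ) (hi : 1 ≤ i) : ∀ (j k : ℕ) (p : ℝ[X]), (X * (2 - X)) ^ (k + j + 1) ∣ p →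
    ∫ y in (-1 : ℝ)..1, (derivative^[j] p).eval (1 + y) * ph k i y =
      (-1) ^ j * ∫ y in (-1 : ℝ)..1, p.eval (1 + y) * ph (k + j) i y := by
  intro j
  induction j with
  | zero =>
    intro k p _
    rw [Function.iterate_zero, id_eq, pow_zero, one_mul, add_zero]
  | succ j ih =>
    intro k p hp
    have h1 : (X * (2 - X)) ^ (k + j + 1) ∣ derivative p := by
      have h2 := Polynomial.pow_sub_one_dvd_derivative_of_pow_dvd hp
      have h3 : k + (j + 1) + 1 - 1 = k + j + 1 := by omega
      rwa [h3] at h2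
    have h4 := by_parts p (k + j) i hi (by
      have h5 : k + (j + 1) + 1 = k + j + 2 := by omega
      rwa [h5] at hp)
    rw [Function.iterate_succ_apply, ih k (derivative p) h1, h4, pow_succ]
    have h6 : k + (j + 1) = k + j + 1 := by omega
    rw [h6]
    ring

theorem by_parts_iter (p : ℝ[X]) (j i : ℕ) (hi : 1 ≤ i) (hp : (X * (2 - X)) ^ (j + 1) ∣ p) :
    ∫ y in (-1 : ℝ)..1, (derivative^[j] p).eval (1 + y) * ph 0 i y =
      (-1) ^ j * ∫ y in (-1 : ℝ)..1, p.eval (1 + y) * ph j i y := by
  have h1 := r08_gen i hi j 0 p (by rwa [zero_add])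
  rwa [zero_add] at h1

end Pool.Agent.LibCN21
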