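import Mathlib
import Pool.Agent.LibCN21.Defs

/-! Row R09: symmetry and support of the polynomials `SU`. -/

set_option autoImplicit false

namespace Pool.Agent.LibCN21

open Pool.Agent.LibOT77 Polynomial MeasureTheory Filter Topology

private theorem R09_der (p : ℤ[X]) (k : ℕ) : derivative^[k] (p.comp (2 - X)) =
    (-1) ^ k * (derivative^[k] p).comp (2 - X) := by
  induction k with
  | zero => simp
  | succ k ih =>
    rw [Function.iterate_succ_apply', ih, Function.iterate_succ_apply']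
    have h1 : derivative (((-1) ^ k : ℤ[X]) * (derivative^[k] p).comp (2 - X)) =
        (-1) ^ k * derivative ((derivative^[k] p).comp (2 - X)) := by
      have h2 : ((-1) ^ k : ℤ[X]) = C ((-1) ^ k) := by simp
      rw [h2, derivative_C_mul]
    have h3 : derivative (2 - X : ℤ[X]) = -1 := by
      rw [derivative_sub, derivative_X]
      simp
    rw [h1, derivative_comp, h3, pow_succ]
    ring

private theorem R09_hasse (p : ℤ[X]) (b : ℕ) :
    (hasseDeriv (2 * b) p).comp (2 - X) = hasseDeriv (2 * b) (p.comp (2 - X)) := by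
  have h1 := congrFun (factorial_smul_hasseDeriv (R := ℤ) (2 * b)) p
  have h2 := congrFun (factorial_smul_hasseDeriv (R := ℤ) (2 * b)) (p.comp (2 - X))
  rw [R09_der, ← h1] at h2
  have h3 : ((-1 : ℤ[X])) ^ (2 * b) = 1 := by rw [pow_mul]; simp
  rw [h3, one_mul] at h2
  simp only [LinearMap.smul_apply, Pi.smul_apply] at h2
  have h4 : (((2 * b).factorial • (hasseDeriv (2 * b)) p) : ℤ[X]).comp (2 - X) =
      (2 * b).factorial • ((hasseDeriv (2 * b)) p).comp (2 - X) := smul_comp _ _ _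
  rw [h4] at h2
  exact (smul_right_injective ℤ[X] (Nat.factorial_ne_zero (2 * b)) h2).symm

private theorem R09_RU (q n M : ℕ) (x : Fin M → ℤ) : (RU q n M x).comp (2 - X) = RU q n M x := by
  unfold RU
  rw [Polynomial.sum_comp]
  refine Finset.sum_congr rfl fun l _ => ?_
  rw [mul_comp, C_comp, mul_comp, pow_comp, pow_comp, mul_comp, X_comp, sub_comp, sub_comp, X_comp]
  have h2 : (2 : ℤ[X]).comp (2 - X) = 2 := by
    have : (2 : ℤ[X]) = C 2 := rfl
    rw [this, C_comp]
  have h1 : (1 : ℤ[X]).comp (2 - X) = 1 := one_comp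
  rw [h2, h1]
  have e1 : (2 - X) * (2 - (2 - X)) = (X * (2 - X) : ℤ[X]) := by ring
  have e2 : ((1 - (2 - X)) ^ (2 * n) : ℤ[X]) = (1 - X) ^ (2 * n) := by
    rw [pow_mul, pow_mul]
    congr 1
    ring
  rw [e1, e2]

private theorem R09_be (a : ℕ) : (be a).comp (2 - X) = be a := by
  unfold be
  rw [Polynomial.prod_comp]
  refine Finset.prod_congr rfl fun c _ => ?_
  rw [sub_comp, C_comp, pow_comp, sub_comp, X_comp, one_comp]
  ring

theorem SU_symm (q n M : ℕ) (x : Fin M → ℤ) (a b : ℕ) :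
    (SU q n M x a b).comp (2 - X) = SU q n M x a b := by
  unfold SU
  rw [mul_comp, R09_be, R09_hasse, R09_RU]

private theorem R09_deg_be (a : ℕ) : (be a).natDegree ≤ 2 * a := by
  unfold be
  refine (natDegree_prod_le _ _).trans ?_
  calc ∑ c ∈ Finset.range a, (C ((2 * (c : ℤ) + 1) ^ 2) - (X - 1) ^ 2 : ℤ[X]).natDegree ≤
      ∑ c ∈ Finset.range a, 2 := by
        refine Finset.sum_le_sum fun c _ => ?_
        refine (natDegree_sub_le _ _).trans ?_
        rw [natDegree_C]
        refine max_le (by norm_num) ?_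
        refine (natDegree_pow_le).trans ?_
        have : (X - 1 : ℤ[X]).natDegree ≤ 1 := by
          have : (X - 1 : ℤ[X]) = X - C 1 := by simp
          rw [this, natDegree_X_sub_C]
        omega
    _ = 2 * a := by simp [mul_comm]

private theorem R09_deg_RU (q n M : ℕ) (x : Fin M → ℤ) :
    (RU q n M x).natDegree ≤ 2 * q + 2 * M + 2 * n := by
  unfold RU
  refine natDegree_sum_le_of_forall_le _ _ fun l _ => ?_
  refine natDegree_C_mul_le _ _ |>.trans ?_
  refine natDegree_mul_le.trans ?_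
  have h2 : (2 - X : ℤ[X]).natDegree ≤ 1 := by
    refine (natDegree_sub_le _ _).trans ?_
    rw [natDegree_X]
    have : (2 : ℤ[X]) = C 2 := rfl
    rw [this, natDegree_C]
    norm_num
  have h1 : (1 - X : ℤ[X]).natDegree ≤ 1 := by
    refine (natDegree_sub_le _ _).trans ?_
    rw [natDegree_X, natDegree_one]
    norm_num
  have h3 : (X * (2 - X) : ℤ[X]).natDegree ≤ 2 := by
    refine natDegree_mul_le.trans ?_
    rw [natDegree_X]
    omega
  have h4 : ((X * (2 - X)) ^ (q + (l : ℕ)) : ℤ[X]).natDegree ≤ (q + l) * 2 :=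
    natDegree_pow_le.trans (Nat.mul_le_mul_left _ h3)
  have h5 : ((1 - X) ^ (2 * n) : ℤ[X]).natDegree ≤ 2 * n * 1 :=
    natDegree_pow_le.trans (Nat.mul_le_mul_left _ h1)
  have := l.2
  omega

private theorem R09_low (q n M : ℕ) (x : Fin M → ℤ) {j : ℕ} (hj : (RU q n M x).coeff j ≠ 0) :
    q ≤ j := by
  by_contra h
  push Not at h
  apply hj
  have hd : (X ^ q : ℤ[X]) ∣ RU q n M x := by
    unfold RU
    refine Finset.dvd_sum fun l _ => ?_
    refine Dvd.dvd.mul_left ?_ _
    refine Dvd.dvd.mul_right ?_ _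
    rw [mul_pow]
    exact (pow_dvd_pow X (Nat.le_add_right q l)).mul_right _
  exact (X_pow_dvd_iff.1 hd) j h

private theorem R09_coeff {q n M : ℕ} (x : Fin M → ℤ) {a b κ : ℕ}
    (h : (SU q n M x a b).coeff κ ≠ 0) :
    ∃ i j : ℕ, i + j = κ ∧ i ≤ 2 * a ∧ (RU q n M x).coeff (j + 2 * b) ≠ 0 := by
  unfold SU at h
  rw [coeff_mul] at h
  obtain ⟨⟨i, j⟩, hij, hne⟩ := Finset.exists_ne_zero_of_sum_ne_zero h
  rw [Finset.HasAntidiagonal.mem_antidiagonal] at hij
  have h1 : (be a).coeff i ≠ 0 := left_ne_zero_of_mul hne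
  have h2 : (hasseDeriv (2 * b) (RU q n M x)).coeff j ≠ 0 := right_ne_zero_of_mul hne
  refine ⟨i, j, hij, (le_natDegree_of_ne_zero h1).trans (R09_deg_be a), ?_⟩
  rw [hasseDeriv_coeff] at h2
  exact right_ne_zero_of_mul h2

theorem SU_coeff {q n M : ℕ} (x : Fin M → ℤ) {a b m : ℕ} (ha : a ≤ m) (hb : b ≤ m) (hq : q = n + 2 * m) {κ : ℕ}
    (h : (SU q n M x a b).coeff κ ≠ 0) : n ≤ κ ∧ κ ≤ 4 * n + 2 * M + 6 * m := by
  obtain ⟨i, j, hij, hi, hj⟩ := R09_coeff x h
  have h1 := R09_low q n M x hj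
  have h2 := (le_natDegree_of_ne_zero hj).trans (R09_deg_RU q n M x)
  omega

theorem SU_vanish {q n M : ℕ} (x : Fin M → ℤ) {a b m : ℕ} (ha : a ≤ m) (hb : b ≤ m) {κ : ℕ}
    (h : ∀ j : ℕ, κ ≤ j + 2 * m → j ≤ κ + 2 * m → (RU q n M x).coeff j = 0) :
    (SU q n M x a b).coeff κ = 0 := by
  by_contra h0
  obtain ⟨i, j, hij, hi, hj⟩ := R09_coeff x h0
  exact hj (h _ (by omega) (by omega))

end Pool.Agent.LibCN21
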