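import Mathlib
import Pool.Agent.LibCN21.Defs
import Pool.Agent.LibCN21.R01
import Pool.Agent.LibCN21.R05
import Pool.Agent.LibCN21.R06
import Pool.Agent.LibCN21.R08
import Pool.Agent.LibCN21.R09

set_option autoImplicit false

namespace Pool.Agent.LibCN21

open Pool.Agent.LibOT77 Polynomial MeasureTheory Filter Topology

lemma at1_mul (p r : ℤ[X]) (y : ℝ) : at1 (p * r) y = at1 p y * at1 r y := by
  unfold at1
  rw [Polynomial.map_mul, eval_mul]

/-- the real polynomial of `RU` is divisible by a power of `X (2 - X)` -/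
lemma RU_dvd (q n M : ℕ) (x : Fin M → ℤ) :
    (X * (2 - X)) ^ q ∣ (RU q n M x).map (Int.castRingHom ℝ) := by
  unfold RU
  rw [Polynomial.map_sum]
  apply Finset.dvd_sum
  intro l _
  rw [Polynomial.map_mul, Polynomial.map_mul, Polynomial.map_pow, Polynomial.map_mul, Polynomial.map_sub,
    map_X, Polynomial.map_ofNat]
  apply Dvd.dvd.mul_left
  apply Dvd.dvd.mul_right
  rw [pow_add]
  exact Dvd.intro _ rfl

lemma RU_coeff_low (q n M : ℕ) (x : Fin M → ℤ) {κ : ℕ} (h : κ < q) : (RU q n M x).coeff κ = 0 := by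
  unfold RU
  rw [finsetSum_coeff]
  apply Finset.sum_eq_zero
  intro l _
  rw [coeff_C_mul, mul_pow, mul_assoc, coeff_X_pow_mul', if_neg (by omega), mul_zero]

lemma map_hasse (k : ℕ) (p : ℤ[X]) : (hasseDeriv k p).map (Int.castRingHom ℝ) = hasseDeriv k (p.map (Int.castRingHom ℝ)) := by
  ext i
  rw [coeff_map, hasseDeriv_coeff, hasseDeriv_coeff, coeff_map]
  simp

lemma hasse_eq (k : ℕ) (p : ℝ[X]) : (derivative^[k] p) = (k.factorial : ℝ) • hasseDeriv k p := by
  have h := congrFun (factorial_smul_hasseDeriv (R := ℝ) k) p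
  rw [← h]
  simp [Nat.cast_smul_eq_nsmul]

theorem main_id {q n M : ℕ} (x : Fin M → ℤ) {a b : ℕ} (hq : 2 * b + 1 ≤ q) :
    FF (SU q n M x a b) = (2 * a).factorial / (2 * Real.pi * (2 * b).factorial) *
      ∫ y in (-1 : ℝ)..1, at1 (RU q n M x) y * ph (2 * b) (2 * a + 1) y := by
  have hpi := Real.pi_pos
  have hb0 : ((2 * b).factorial : ℝ) ≠ 0 := by exact_mod_cast (Nat.factorial_ne_zero _)
  have h0 : (SU q n M x a b).coeff 0 = 0 := by
    unfold SU
    rw [mul_coeff_zero, hasseDeriv_coeff, RU_coeff_low q n M x (by omega)]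
    simp
  obtain ⟨-, h1⟩ := FF_eq (SU q n M x a b) (SU_symm q n M x a b) h0
  rw [h1]
  set p : ℝ[X] := (RU q n M x).map (Int.castRingHom ℝ) with hp
  have hpd : (X * (2 - X)) ^ (2 * b + 1) ∣ p := (pow_dvd_pow _ hq).trans (RU_dvd q n M x)
  have h2 := by_parts_iter p (2 * b) (2 * a + 1) (by omega) hpd
  rw [Even.neg_one_pow (even_two_mul b), one_mul] at h2
  have h3 : ∫ y in (-1 : ℝ)..1, at1 (SU q n M x a b) y / Real.cos (Real.pi * y / 2) =
      ∫ y in (-1 : ℝ)..1, ((2 * a).factorial / (Real.pi * (2 * b).factorial)) *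
        ((derivative^[2 * b] p).eval (1 + y) * ph 0 (2 * a + 1) y) := by
    rw [intervalIntegral.integral_of_le (by norm_num), intervalIntegral.integral_of_le (by norm_num),
      integral_Ioc_eq_integral_Ioo, integral_Ioc_eq_integral_Ioo]
    apply setIntegral_congr_fun measurableSet_Ioo
    intro y hy
    have hy1 : |y| < 1 := abs_lt.mpr ⟨hy.1, hy.2⟩
    have hcos : 0 < Real.cos (Real.pi * y / 2) := by
      apply Real.cos_pos_of_mem_Ioo
      constructor
      · nlinarith [hy.1]
      · nlinarith [hy.2]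
    have e1 := ph_one hy1
    have e2 := be_ph a hy1
    have e3 : at1 (SU q n M x a b) y = at1 (be a) y * (hasseDeriv (2 * b) p).eval (1 + y) := by
      unfold SU
      rw [at1_mul]
      congr 1
      unfold at1
      rw [map_hasse]
    simp only
    rw [e3, hasse_eq, eval_smul, smul_eq_mul]
    have e4 : 1 / Real.cos (Real.pi * y / 2) = ph 0 1 y / Real.pi := by
      rw [e1]
      field_simp
    calc at1 (be a) y * (hasseDeriv (2 * b) p).eval (1 + y) / Real.cos (Real.pi * y / 2)
        = at1 (be a) y * (hasseDeriv (2 * b) p).eval (1 + y) * (1 / Real.cos (Real.pi * y / 2)) := by ring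
      _ = (at1 (be a) y * ph 0 1 y) * (hasseDeriv (2 * b) p).eval (1 + y) / Real.pi := by rw [e4]; ring
      _ = _ := by
        rw [e2]
        field_simp
  rw [h3, intervalIntegral.integral_const_mul, h2]
  have e5 : ∀ y : ℝ, at1 (RU q n M x) y = p.eval (1 + y) := fun y => rfl
  simp only [e5]
  field_simp

end Pool.Agent.LibCN21
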