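import Mathlib
import Pool.Agent.LibCN21.Defs

/-! Row R11.
rolle: for i : Fin k, z i.castSucc < z i.succ, `exists_hasDerivAt_eq_zero` (Rolle) on that interval (contained in U by OrdConnected) gives c i in the open
interval; c is strictly increasing (`Fin.strictMono_iff_lt_succ` or directly). finite_zeros: if {x in U | f x = 0} is infinite or has >= k elements take a Finset of
exactly k of them (`Set.Infinite.exists_subset_card_eq`, `Finset.exists_subset_card_eq`) and `Finset.orderEmbOfFin`.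
-/

set_option autoImplicit false

namespace Pool.Agent.LibCN21

open Pool.Agent.LibOT77 Polynomial MeasureTheory Filter Topology

theorem rolle {U : Set ℝ} (hU : U.OrdConnected) {f f' : ℝ → ℝ} (hf : ∀ x ∈ U, HasDerivAt f (f' x) x) {k : ℕ}
    (h : HasZeros U (k + 1) f) : HasZeros U k f' := by
  obtain ⟨z, hz, hzU⟩ := h
  have hsub : ∀ i : Fin k, Set.Icc (z i.castSucc) (z i.succ) ⊆ U := fun i =>
    hU.out (hzU _).1 (hzU _).1
  have hex : ∀ i : Fin k, ∃ c ∈ Set.Ioo (z i.castSucc) (z i.succ), f' c = 0 := by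
    intro i
    apply exists_hasDerivAt_eq_zero (hz i.castSucc_lt_succ)
    · intro x hx
      exact (hf x (hsub i hx)).continuousAt.continuousWithinAt
    · rw [(hzU _).2, (hzU _).2]
    · intro x hx
      exact hf x (hsub i (Set.Ioo_subset_Icc_self hx))
  choose c hc hc0 using hex
  refine ⟨c, ?_, fun i => ⟨hsub i (Set.Ioo_subset_Icc_self (hc i)), hc0 i⟩⟩
  intro i j hij
  have h1 : i.succ ≤ j.castSucc := by
    rw [Fin.le_def, Fin.val_succ, Fin.val_castSucc]
    exact hij
  exact (hc i).2.trans_le ((hz.monotone h1).trans (hc j).1.le)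

theorem finite_zeros {U : Set ℝ} {f : ℝ → ℝ} {k : ℕ} (h : ¬ HasZeros U k f) :
    ∃ Z : Finset ℝ, Z.card < k ∧ ∀ x, x ∈ Z ↔ x ∈ U ∧ f x = 0 := by
  classical
  have key : ∀ s : Finset ℝ, (∀ x ∈ s, x ∈ U ∧ f x = 0) → s.card ≠ k := by
    intro s hs hk
    exact h ⟨s.orderEmbOfFin hk, (s.orderEmbOfFin hk).strictMono,
      fun i => hs _ (s.orderEmbOfFin_mem hk i)⟩
  have hfin : {x : ℝ | x ∈ U ∧ f x = 0}.Finite := by
    by_contra hinf
    obtain ⟨t, ht, hk⟩ := Set.Infinite.exists_subset_card_eq hinf k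
    exact key t (fun x hx => ht hx) hk
  refine ⟨hfin.toFinset, ?_, fun x => by simp⟩
  by_contra hge
  obtain ⟨t, ht, hk⟩ := Finset.exists_subset_card_eq (not_lt.1 hge)
  exact key t (fun x hx => by simpa using ht hx) hk

end Pool.Agent.LibCN21
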