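import Mathlib
import Pool.Agent.LibCN21.Defs
import Pool.Agent.LibCN21.R11

/-! Row R12.
Induction on N. N = 0: all d i = 0, so all p i = 0 (degree < 0). N+1: take i0 with d i0 > 0, G t = e^(-α i0 t) f t, G' = e^(-α i0 t) g t with g = sum (q i) e^(α i t),
q i = derivative (p i) + C (α i - α i0) * p i, degree q i < d' i, d' = d lowered by 1 at i0 (q i0 = derivative (p i0)). rolle (U = univ): g has N zeros,
so g = 0 by induction, G' = 0, G is constant (`is_const_of_deriv_eq_zero`) and has a zero, so f = 0.
-/

set_option autoImplicit false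

namespace Pool.Agent.LibCN21

open Pool.Agent.LibOT77 Polynomial MeasureTheory Filter Topology

private theorem R12_hasZeros_mul {U : Set ℝ} {k : ℕ} {f g h : ℝ → ℝ} (hf : HasZeros U k f)
    (he : ∀ t, g t = h t * f t) : HasZeros U k g := by
  obtain ⟨z, hz, h0⟩ := hf
  exact ⟨z, hz, fun i => ⟨(h0 i).1, by rw [he, (h0 i).2, mul_zero]⟩⟩

theorem exp_zeros {ι : Type*} [Fintype ι] (α : ι → ℝ) (N : ℕ) : ∀ (d : ι → ℕ) (p : ι → ℝ[X]), ∑ i, d i = N →
    (∀ i, (p i).degree < d i) → HasZeros Set.univ N (fun t => ∑ i, (p i).eval t * Real.exp (α i * t)) →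
    ∀ t, ∑ i, (p i).eval t * Real.exp (α i * t) = 0 := by
  classical
  induction N with
  | zero =>
    intro d p hd hp _ t
    refine Finset.sum_eq_zero fun i hi => ?_
    have h1 : d i = 0 := (Finset.sum_eq_zero_iff.1 hd) i hi
    have h2 := hp i
    rw [h1] at h2
    have h3 : p i = 0 := by
      by_contra h0
      have h4 : (0 : WithBot ℕ) ≤ (p i).degree := zero_le_degree_iff.2 h0
      exact absurd h2 (not_lt.2 h4)
    rw [h3, eval_zero, zero_mul]
  | succ N ih =>
    intro d p hd hp hz
    obtain ⟨i0, hi0⟩ : ∃ i0, 0 < d i0 := by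
      by_contra hcon
      push Not at hcon
      have : ∑ i, d i = 0 := Finset.sum_eq_zero fun i _ => by
        have := hcon i
        omega
      omega
    obtain ⟨q, hq⟩ : ∃ q : ι → ℝ[X], ∀ i, q i = derivative (p i) + C (α i - α i0) * p i :=
      ⟨_, fun i => rfl⟩
    obtain ⟨f, hf⟩ : ∃ f : ℝ → ℝ, ∀ t, f t = ∑ i, (p i).eval t * Real.exp (α i * t) :=
      ⟨_, fun t => rfl⟩
    obtain ⟨g, hg⟩ : ∃ g : ℝ → ℝ, ∀ t, g t = ∑ i, (q i).eval t * Real.exp (α i * t) :=
      ⟨_, fun t => rfl⟩
    have hzf : HasZeros Set.univ (N + 1) f := by
      have : f = fun t => ∑ i, (p i).eval t * Real.exp (α i * t) := funext hf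
      rw [this]
      exact hz
    -- the function `e^(-α i0 t) f t`
    have hG : HasZeros Set.univ (N + 1) (fun t => Real.exp (-(α i0) * t) * f t) :=
      R12_hasZeros_mul hzf (h := fun t => Real.exp (-(α i0) * t)) fun t => rfl
    have hder : ∀ t, HasDerivAt (fun t => Real.exp (-(α i0) * t) * f t)
        (Real.exp (-(α i0) * t) * g t) t := by
      intro t
      have hexp : ∀ c : ℝ, HasDerivAt (fun t => Real.exp (c * t)) (Real.exp (c * t) * c) t := by
        intro c
        have h1 : HasDerivAt (fun t : ℝ => c * t) c t := by
          simpa using (hasDerivAt_id t).const_mul c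
        exact h1.exp
      have hfd : HasDerivAt f (∑ i, ((derivative (p i)).eval t * Real.exp (α i * t) +
          (p i).eval t * (Real.exp (α i * t) * α i))) t := by
        have h1 : f = fun t => ∑ i, (p i).eval t * Real.exp (α i * t) := funext hf
        rw [h1]
        have h2 : ∀ i ∈ (Finset.univ : Finset ι),
            HasDerivAt (fun t => (p i).eval t * Real.exp (α i * t))
            ((derivative (p i)).eval t * Real.exp (α i * t) +
              (p i).eval t * (Real.exp (α i * t) * α i)) t := fun i _ =>
          ((p i).hasDerivAt t).mul (hexp (α i))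
        exact HasDerivAt.fun_sum h2
      have h3 := (hexp (-(α i0))).mul hfd
      refine h3.congr_deriv ?_
      rw [hg, hf, Finset.mul_sum, Finset.mul_sum, Finset.mul_sum, ← Finset.sum_add_distrib]
      refine Finset.sum_congr rfl fun i _ => ?_
      rw [hq, eval_add, eval_mul, eval_C]
      ring
    have hR := rolle Set.ordConnected_univ (fun x _ => hder x) hG
    have hzg : HasZeros Set.univ N g := by
      refine R12_hasZeros_mul hR (h := fun t => Real.exp (α i0 * t)) fun t => ?_
      rw [← mul_assoc, ← Real.exp_add]
      have : α i0 * t + -(α i0) * t = 0 := by ring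
      rw [this, Real.exp_zero, one_mul]
    have hg0 : ∀ t, g t = 0 := by
      have h1 := ih (Function.update d i0 (d i0 - 1)) q ?_ ?_ ?_
      · intro t
        rw [hg]
        exact h1 t
      · have h2 := Finset.add_sum_erase Finset.univ d (Finset.mem_univ i0)
        have h3 := Finset.add_sum_erase Finset.univ (Function.update d i0 (d i0 - 1))
          (Finset.mem_univ i0)
        have h4 : ∑ i ∈ Finset.univ.erase i0, Function.update d i0 (d i0 - 1) i =
            ∑ i ∈ Finset.univ.erase i0, d i := Finset.sum_congr rfl fun i hi => by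
          rw [Function.update_of_ne (Finset.ne_of_mem_erase hi)]
        rw [Function.update_self, h4] at h3
        omega
      · intro i
        by_cases hi : i = i0
        · subst hi
          rw [Function.update_self, hq, sub_self, C_0, zero_mul, add_zero]
          by_cases h0 : p i = 0
          · rw [h0, derivative_zero, degree_zero]
            exact WithBot.bot_lt_coe _
          · have h2 := degree_derivative_lt h0
            have h3 := hp i
            rw [degree_eq_natDegree h0] at h2 h3
            have h4 : (p i).natDegree < d i := by exact_mod_cast h3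
            have h5 : (((p i).natDegree : ℕ) : WithBot ℕ) ≤ ((d i - 1 : ℕ) : WithBot ℕ) := by
              have : (p i).natDegree ≤ d i - 1 := by omega
              exact_mod_cast this
            exact lt_of_lt_of_le h2 h5
        · rw [Function.update_of_ne hi, hq]
          refine lt_of_le_of_lt (degree_add_le _ _) (max_lt ?_ ?_)
          · exact lt_of_le_of_lt (degree_derivative_le) (hp i)
          · refine lt_of_le_of_lt ?_ (hp i)
            rw [← smul_eq_C_mul]
            exact degree_smul_le _ _
      · have h2 : (fun t => ∑ i, (q i).eval t * Real.exp (α i * t)) = g := (funext hg).symm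
        rw [h2]
        exact hzg
    -- conclusion
    have hdiff : Differentiable ℝ (fun t => Real.exp (-(α i0) * t) * f t) := fun t =>
      (hder t).differentiableAt
    have hd0 : ∀ t, deriv (fun t => Real.exp (-(α i0) * t) * f t) t = 0 := by
      intro t
      rw [(hder t).deriv, hg0, mul_zero]
    obtain ⟨z, _, hz0⟩ := hG
    have hz1 := (hz0 0).2
    intro t
    have hc := is_const_of_deriv_eq_zero hdiff hd0 t (z 0)
    have h1 : Real.exp (-(α i0) * t) * f t = 0 := hc.trans hz1
    have h2 : f t = 0 := by
      rcases mul_eq_zero.1 h1 with h | h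
      · exact absurd h (Real.exp_ne_zero _)
      · exact h
    rw [← hf]
    exact h2

end Pool.Agent.LibCN21
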