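import Mathlib
import Pool.Agent.LibCN21.Defs

/-! Row R13.
`Finset.induction_on_max`. Empty Z: f has no zero on the preconnected set U, so it has constant sign (IVT: `IsPreconnected.intermediate_value`; OrdConnected.isPreconnected).
Step insert a Z' (all z in Z' < a): apply the hypothesis to U ∩ Iio a (OrdConnected) with Z': I'. On U ∩ Ioi a f has no zeros, constant sign, and
prod_{z in I'} (x - z) > 0 there; at x = a (if a in U) f a = 0. If the signs on both sides agree take I = I', otherwise I = insert a I' (the factor x - a changes the sign on the left only).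
-/

set_option autoImplicit false

namespace Pool.Agent.LibCN21

open Pool.Agent.LibOT77 Polynomial MeasureTheory Filter Topology

theorem R13_const (U : Set ℝ) (hU : U.OrdConnected) (f : ℝ → ℝ) (hf : ContinuousOn f U)
    (h0 : ∀ x ∈ U, f x ≠ 0) : (∀ x ∈ U, 0 ≤ f x) ∨ ∀ x ∈ U, f x ≤ 0 := by
  by_contra hcon
  push Not at hcon
  obtain ⟨⟨x, hx, hfx⟩, y, hy, hfy⟩ := hcon
  have h1 := hU.isPreconnected.intermediate_value hx hy hf
  obtain ⟨z, hz, hfz⟩ := h1 (show (0 : ℝ) ∈ Set.Icc (f x) (f y) from ⟨hfx.le, hfy.le⟩)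
  exact h0 z hz hfz

theorem sign_set (Z : Finset ℝ) : ∀ (U : Set ℝ), U.OrdConnected → ∀ f : ℝ → ℝ, ContinuousOn f U →
    (∀ x ∈ U, f x = 0 → x ∈ Z) → (∀ x ∈ U, x ∈ Z → f x = 0) →
    ∃ I ⊆ Z, (∀ x ∈ U, 0 ≤ f x * ∏ z ∈ I, (x - z)) ∨ (∀ x ∈ U, f x * ∏ z ∈ I, (x - z) ≤ 0) := by
  induction Z using Finset.induction_on_max with
  | empty =>
    intro U hU f hf h1 _
    refine ⟨∅, Finset.Subset.refl _, ?_⟩
    simp only [Finset.prod_empty, mul_one]
    exact R13_const U hU f hf fun x hx h => absurd (h1 x hx h) (Finset.notMem_empty x)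
  | insert a s has ih =>
    intro U hU f hf h1 h2
    have ha : a ∉ s := fun h => lt_irrefl _ (has a h)
    obtain ⟨I, hI, hsgn⟩ := ih (U ∩ Set.Iio a) (hU.inter Set.ordConnected_Iio) f
      (hf.mono Set.inter_subset_left)
      (fun x hx h => by
        have h3 := h1 x hx.1 h
        rw [Finset.mem_insert] at h3
        rcases h3 with h3 | h3
        · exact absurd h3 (ne_of_lt hx.2)
        · exact h3)
      (fun x hx h => h2 x hx.1 (Finset.mem_insert_of_mem h))
    have haI : a ∉ I := fun h => ha (hI h)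
    have hr := R13_const (U ∩ Set.Ioi a) (hU.inter Set.ordConnected_Ioi) f
      (hf.mono Set.inter_subset_left)
      (fun x hx h => by
        have h3 := h1 x hx.1 h
        rw [Finset.mem_insert] at h3
        rcases h3 with h3 | h3
        · exact absurd h3 (ne_of_gt hx.2)
        · exact absurd (has x h3) (not_lt.2 (le_of_lt hx.2)))
    have hpos : ∀ x, a < x → 0 < ∏ z ∈ I, (x - z) := fun x hx =>
      Finset.prod_pos fun z hz => sub_pos.2 ((has z (hI hz)).trans hx)
    have hfa : a ∈ U → f a = 0 := fun h => h2 a h (Finset.mem_insert_self a s)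
    have hins : ∀ x : ℝ, ∏ z ∈ insert a I, (x - z) = (x - a) * ∏ z ∈ I, (x - z) := fun x =>
      Finset.prod_insert haI
    have hIs : I ⊆ insert a s := hI.trans (Finset.subset_insert a s)
    have hIs2 : insert a I ⊆ insert a s := Finset.insert_subset_insert a hI
    rcases hsgn with hl | hl <;> rcases hr with hr | hr
    · refine ⟨I, hIs, Or.inl fun x hx => ?_⟩
      rcases lt_trichotomy x a with h | h | h
      · exact hl x ⟨hx, h⟩
      · subst h
        rw [hfa hx, zero_mul]
      · exact mul_nonneg (hr x ⟨hx, h⟩) (hpos x h).le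
    · refine ⟨insert a I, hIs2, Or.inr fun x hx => ?_⟩
      rw [hins]
      rcases lt_trichotomy x a with h | h | h
      · have h3 := hl x ⟨hx, h⟩
        have h4 : x - a < 0 := sub_neg.2 h
        nlinarith
      · subst h
        rw [hfa hx, zero_mul]
      · have h3 := hr x ⟨hx, h⟩
        have h4 : 0 ≤ (x - a) * ∏ z ∈ I, (x - z) := mul_nonneg (sub_nonneg.2 h.le) (hpos x h).le
        exact mul_nonpos_of_nonpos_of_nonneg h3 h4
    · refine ⟨insert a I, hIs2, Or.inl fun x hx => ?_⟩
      rw [hins]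
      rcases lt_trichotomy x a with h | h | h
      · have h3 := hl x ⟨hx, h⟩
        have h4 : x - a < 0 := sub_neg.2 h
        nlinarith
      · subst h
        rw [hfa hx, zero_mul]
      · have h3 := hr x ⟨hx, h⟩
        have h4 : 0 ≤ (x - a) * ∏ z ∈ I, (x - z) := mul_nonneg (sub_nonneg.2 h.le) (hpos x h).le
        exact mul_nonneg h3 h4
    · refine ⟨I, hIs, Or.inr fun x hx => ?_⟩
      rcases lt_trichotomy x a with h | h | h
      · exact hl x ⟨hx, h⟩
      · subst h
        rw [hfa hx, zero_mul]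
      · exact mul_nonpos_of_nonpos_of_nonneg (hr x ⟨hx, h⟩) (hpos x h).le

end Pool.Agent.LibCN21
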