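import Mathlib
import Pool.Agent.LibCN21.Defs
import Pool.Agent.LibCN21.R02
import Pool.Agent.LibCN21.R11

/-! Row R14.
Finset induction on I (generalising k). Empty: k >= 0 (or <= 0), continuous, not identically 0, so Lap k y > 0 (< 0) for |y| < 1 (`integral_pos_iff_support_of_nonneg`,
or Continuous.integral_pos_of_hasCompactSupport-like; exp > 0). Step insert z I: k1 t = (t - z) k t is IsK (mul_id), not identically 0 (continuity), satisfies the sign
condition for I; G y = e^(-z y) Lap k y has derivative e^(-z y) Lap k1 y on Ioo (-1) 1 (IsK.hasDerivAt and linearity); rolle.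
-/

set_option autoImplicit false

namespace Pool.Agent.LibCN21

open Pool.Agent.LibOT77 Polynomial MeasureTheory Filter Topology

theorem r14_pos {k : ℝ → ℝ} (hk : IsK k) (hne : ∃ t, k t ≠ 0) (h0 : ∀ t, 0 ≤ k t)
    {y : ℝ} (hy : |y| < 1) : Lap k y ≠ 0 := by
  intro h
  obtain ⟨t, ht⟩ := hne
  have h1 : 0 ≤ fun t : ℝ => Real.exp (y * t) * k t := fun t => mul_nonneg (Real.exp_pos _).le (h0 t)
  have h2 := (integral_eq_zero_iff_of_nonneg h1 (hk.integrable hy)).1 h
  have hc : Continuous fun t : ℝ => Real.exp (y * t) * k t := by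
    have := hk.1
    fun_prop
  have h3 : (fun t : ℝ => Real.exp (y * t) * k t) = 0 :=
    (Continuous.ae_eq_iff_eq volume hc continuous_zero).1 h2
  have h4 := congrFun h3 t
  exact ht ((mul_eq_zero.1 h4).resolve_left (Real.exp_pos _).ne')

theorem r14_neg (k : ℝ → ℝ) (y : ℝ) : Lap (fun t => -k t) y = -Lap k y := by
  simp only [Lap, mul_neg]
  exact integral_neg _

theorem r14_isK {k : ℝ → ℝ} (hk : IsK k) : IsK (fun t => -k t) := by
  obtain ⟨h1, A, N, h2⟩ := hk
  exact ⟨h1.neg, A, N, fun t => by rw [abs_neg]; exact h2 t⟩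

theorem r14_abs {y : ℝ} (hy : y ∈ Set.Ioo (-1 : ℝ) 1) : |y| < 1 := abs_lt.2 hy

theorem r14_sub {k : ℝ → ℝ} (hk : IsK k) (z : ℝ) {y : ℝ} (hy : |y| < 1) :
    Lap (fun t => (t - z) * k t) y = Lap (fun t => t * k t) y - z * Lap k y := by
  have h1 : Integrable fun t : ℝ => Real.exp (y * t) * (t * k t) := by
    have := (hk.mul_id 0).integrable hy
    simpa only [sub_zero] using this
  have h2 := hk.integrable hy
  simp only [Lap]
  rw [← integral_const_mul, ← integral_sub h1 (h2.const_mul z)]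
  refine integral_congr_ae (Eventually.of_forall fun t => ?_)
  ring

theorem r14_deriv {k : ℝ → ℝ} (hk : IsK k) (z : ℝ) {y : ℝ} (hy : |y| < 1) :
    HasDerivAt (fun y => Real.exp (-z * y) * Lap k y)
      (Real.exp (-z * y) * Lap (fun t => (t - z) * k t) y) y := by
  have h1 := hk.hasDerivAt hy
  have h2 : HasDerivAt (fun y : ℝ => Real.exp (-z * y)) (Real.exp (-z * y) * -z) y := by
    have h3 : HasDerivAt (fun y : ℝ => -z * y) (-z) y := by
      simpa using (hasDerivAt_id y).const_mul (-z)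
    exact h3.exp
  have h4 := h2.mul h1
  have h5 : Real.exp (-z * y) * Lap (fun t => (t - z) * k t) y =
      Real.exp (-z * y) * -z * Lap k y + Real.exp (-z * y) * Lap (fun t => t * k t) y := by
    rw [r14_sub hk z hy]
    ring
  rw [h5]
  exact h4

theorem r14_ne {k : ℝ → ℝ} (hc : Continuous k) (hne : ∃ t, k t ≠ 0) (z : ℝ) :
    ∃ t, (t - z) * k t ≠ 0 := by
  obtain ⟨t, ht⟩ := hne
  have h1 : {x | k x ≠ 0} ∈ 𝓝 t := (isOpen_ne_fun hc continuous_const).mem_nhds ht
  obtain ⟨x, hx, hxz⟩ : ∃ x, k x ≠ 0 ∧ x ≠ z := by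
    by_contra hcon
    push Not at hcon
    have h2 : {x | k x ≠ 0} ⊆ {z} := fun x hx => hcon x hx
    have h3 : ({z} : Set ℝ) ∈ 𝓝 t := Filter.mem_of_superset h1 h2
    have h4 : (interior ({z} : Set ℝ)).Nonempty := ⟨t, mem_interior_iff_mem_nhds.2 h3⟩
    rw [interior_singleton] at h4
    exact Set.not_nonempty_empty h4
  exact ⟨x, mul_ne_zero (sub_ne_zero.2 hxz) hx⟩

theorem var_dim (I : Finset ℝ) : ∀ k : ℝ → ℝ, IsK k → (∃ t, k t ≠ 0) →
    ((∀ t, 0 ≤ k t * ∏ z ∈ I, (t - z)) ∨ (∀ t, k t * ∏ z ∈ I, (t - z) ≤ 0)) →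
    ¬ HasZeros (Set.Ioo (-1) 1) (I.card + 1) (Lap k) := by
  classical
  induction I using Finset.induction_on with
  | empty =>
    rintro k hk hne hs ⟨z, -, hz⟩
    obtain ⟨h1, h2⟩ := hz 0
    simp only [Finset.prod_empty, mul_one] at hs
    rcases hs with hs | hs
    · exact r14_pos hk hne hs (r14_abs h1) h2
    · refine r14_pos (r14_isK hk) ?_ (fun t => neg_nonneg.2 (hs t)) (r14_abs h1) ?_
      · obtain ⟨t, ht⟩ := hne
        exact ⟨t, neg_ne_zero.2 ht⟩
      · rw [r14_neg, h2, neg_zero]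
  | insert z I hzI ih =>
    intro k hk hne hs hz
    rw [Finset.card_insert_of_notMem hzI] at hz
    have h1 : HasZeros (Set.Ioo (-1) 1) (I.card + 1 + 1)
        (fun y => Real.exp (-z * y) * Lap k y) := by
      obtain ⟨x, hx, hx2⟩ := hz
      exact ⟨x, hx, fun i => ⟨(hx2 i).1, by simp only [(hx2 i).2, mul_zero]⟩⟩
    have h2 := rolle Set.ordConnected_Ioo
      (fun y hy => r14_deriv hk z (r14_abs hy)) h1
    refine ih (fun t => (t - z) * k t) (hk.mul_id z) (r14_ne hk.1 hne z) ?_ ?_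
    · rcases hs with hs | hs
      · refine Or.inl fun t => ?_
        have h3 := hs t
        rw [Finset.prod_insert hzI] at h3
        calc (0 : ℝ) ≤ k t * ((t - z) * ∏ z ∈ I, (t - z)) := h3
          _ = _ := by ring
      · refine Or.inr fun t => ?_
        have h3 := hs t
        rw [Finset.prod_insert hzI] at h3
        calc (t - z) * k t * ∏ z ∈ I, (t - z) = k t * ((t - z) * ∏ z ∈ I, (t - z)) := by ring
          _ ≤ 0 := h3
    · obtain ⟨x, hx, hx2⟩ := h2
      exact ⟨x, hx, fun i => ⟨(hx2 i).1,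
        (mul_eq_zero.1 (hx2 i).2).resolve_left (Real.exp_pos _).ne'⟩⟩

end Pool.Agent.LibCN21
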