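import Mathlib
import Pool.Agent.LibCN21.Defs

/-! Row R15.
For a let p_a t = sum_b c (a,b) t^(2b) (polynomial). Suppose some p_a ≠ 0, a0 minimal; multiply by cosh t^(2 a0+1): p_a0 t = - sum_{a > a0} p_a t (cosh t)⁻¹^(2(a-a0)) -> 0
as t -> +oo ((cosh t)⁻¹ <= 2 e^(-t)), so p_a0 = 0 (`Polynomial.tendsto_nhds_iff` / `Polynomial.tendsto_atTop...`: a polynomial with limit 0 at +oo is 0). Hence all coefficients are 0.
-/

set_option autoImplicit false

namespace Pool.Agent.LibCN21

open Pool.Agent.LibOT77 Polynomial MeasureTheory Filter Topology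

theorem kr_indep_aux (p : ℝ[X]) (k : ℕ) :
    Tendsto (fun t : ℝ => p.eval t * (Real.cosh t)⁻¹ ^ (k + 1)) atTop (𝓝 0) := by
  have h1 := Polynomial.tendsto_div_exp_atTop p
  have h2 : Tendsto (fun t : ℝ => 2 * |p.eval t / Real.exp t|) atTop (𝓝 0) := by
    have := (h1.abs).const_mul 2
    simpa using this
  refine squeeze_zero_norm (fun t => ?_) h2
  have hc : 0 < Real.cosh t := Real.cosh_pos t
  have hc1 : 1 ≤ Real.cosh t := Real.one_le_cosh t
  have hi : (Real.cosh t)⁻¹ ≤ 1 := inv_le_one_of_one_le₀ hc1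
  have hi0 : 0 ≤ (Real.cosh t)⁻¹ := inv_nonneg.2 hc.le
  have h3 : (Real.cosh t)⁻¹ ^ (k + 1) ≤ (Real.cosh t)⁻¹ := by
    rw [pow_succ]
    have := pow_le_one₀ (n := k) hi0 hi
    calc (Real.cosh t)⁻¹ ^ k * (Real.cosh t)⁻¹ ≤ 1 * (Real.cosh t)⁻¹ := by gcongr
      _ = _ := one_mul _
  have h4 : (Real.cosh t)⁻¹ ≤ 2 * (Real.exp t)⁻¹ := by
    have he : 0 < Real.exp t := Real.exp_pos t
    have h5 : Real.exp t / 2 ≤ Real.cosh t := by
      rw [Real.cosh_eq]
      have := Real.exp_pos (-t)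
      linarith
    have h6 : (Real.cosh t)⁻¹ ≤ (Real.exp t / 2)⁻¹ := inv_anti₀ (by positivity) h5
    calc (Real.cosh t)⁻¹ ≤ (Real.exp t / 2)⁻¹ := h6
      _ = 2 * (Real.exp t)⁻¹ := by rw [inv_div, div_eq_mul_inv]
  rw [Real.norm_eq_abs, abs_mul, abs_of_nonneg (pow_nonneg hi0 _), abs_div,
    abs_of_pos (Real.exp_pos t)]
  calc |p.eval t| * (Real.cosh t)⁻¹ ^ (k + 1) ≤ |p.eval t| * (2 * (Real.exp t)⁻¹) := by
        gcongr
        exact h3.trans h4
    _ = 2 * (|p.eval t| / Real.exp t) := by rw [div_eq_mul_inv]; ring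

theorem kr_indep (m : ℕ) (c : Fin (m + 1) × Fin (m + 1) → ℝ)
    (h : ∀ t, ∑ f, c f * kr (2 * (f.2 : ℕ)) (2 * (f.1 : ℕ) + 1) t = 0) : c = 0 := by
  classical
  let P : Fin (m + 1) → ℝ[X] := fun a => ∑ b : Fin (m + 1), C (c (a, b)) * X ^ (2 * (b : ℕ))
  have hPe : ∀ (a : Fin (m + 1)) (t : ℝ), (P a).eval t = ∑ b, c (a, b) * t ^ (2 * (b : ℕ)) := by
    intro a t
    simp [P, eval_finsetSum]
  have hs : ∀ t : ℝ, ∑ a, (P a).eval t * (Real.cosh t)⁻¹ ^ (2 * (a : ℕ) + 1) = 0 := by
    intro t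
    rw [← h t, Fintype.sum_prod_type]
    refine Finset.sum_congr rfl fun a _ => ?_
    rw [hPe, Finset.sum_mul]
    refine Finset.sum_congr rfl fun b _ => ?_
    simp only [kr]
    ring
  have key : ∀ (n : ℕ) (a : Fin (m + 1)), (a : ℕ) = n → P a = 0 := by
    intro n
    induction n using Nat.strong_induction_on with
    | _ n ih =>
      intro a ha
      have h1 : ∀ t : ℝ, (P a).eval t =
          - ∑ b ∈ Finset.univ.filter (fun b : Fin (m + 1) => a < b),
            (P b).eval t * (Real.cosh t)⁻¹ ^ (2 * ((b : ℕ) - a) - 1 + 1) := by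
        intro t
        have hc : Real.cosh t ≠ 0 := (Real.cosh_pos t).ne'
        have h2 := hs t
        have h3 : ∑ b, (P b).eval t * (Real.cosh t)⁻¹ ^ (2 * (b : ℕ) + 1) =
            (P a).eval t * (Real.cosh t)⁻¹ ^ (2 * (a : ℕ) + 1) +
            ∑ b ∈ Finset.univ.filter (fun b : Fin (m + 1) => a < b),
              (P b).eval t * (Real.cosh t)⁻¹ ^ (2 * (b : ℕ) + 1) := by
          rw [← Finset.add_sum_erase _ _ (Finset.mem_univ a)]
          congr 1
          rw [Finset.sum_filter, ← Finset.sum_erase (a := a) Finset.univ (by simp)]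
          refine Finset.sum_congr rfl fun b hb => ?_
          by_cases hab : a < b
          · rw [if_pos hab]
          · rw [if_neg hab]
            have h4 : b < a := lt_of_le_of_ne (not_lt.1 hab) (Finset.ne_of_mem_erase hb)
            rw [ih (b : ℕ) (by rw [← ha]; exact h4) b rfl]
            simp
        rw [h3] at h2
        have h5 : (P a).eval t * (Real.cosh t)⁻¹ ^ (2 * (a : ℕ) + 1) =
            (- ∑ b ∈ Finset.univ.filter (fun b : Fin (m + 1) => a < b),
              (P b).eval t * (Real.cosh t)⁻¹ ^ (2 * ((b : ℕ) - a) - 1 + 1)) *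
              (Real.cosh t)⁻¹ ^ (2 * (a : ℕ) + 1) := by
          rw [eq_neg_of_add_eq_zero_left h2, neg_mul, Finset.sum_mul]
          congr 1
          refine Finset.sum_congr rfl fun b hb => ?_
          have h6 : (a : ℕ) < b := (Finset.mem_filter.1 hb).2
          rw [mul_assoc, ← pow_add]
          congr 2
          omega
        exact mul_right_cancel₀ (pow_ne_zero _ (inv_ne_zero hc)) h5
      have h7 : Tendsto (fun t : ℝ => (P a).eval t) atTop (𝓝 0) := by
        have h8 : Tendsto (fun t : ℝ => - ∑ b ∈ Finset.univ.filter (fun b : Fin (m + 1) => a < b),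
            (P b).eval t * (Real.cosh t)⁻¹ ^ (2 * ((b : ℕ) - a) - 1 + 1)) atTop
            (𝓝 (- ∑ b ∈ Finset.univ.filter (fun b : Fin (m + 1) => a < b), (0 : ℝ))) :=
          (tendsto_finsetSum _ fun b _ => kr_indep_aux (P b) _).neg
        simp only [Finset.sum_const_zero, neg_zero] at h8
        exact h8.congr fun t => (h1 t).symm
      exact leadingCoeff_eq_zero.1 ((Polynomial.tendsto_nhds_iff (P a)).1 h7).1
  funext f
  obtain ⟨a, b⟩ := f
  have h9 : (P a).coeff (2 * (b : ℕ)) = 0 := by rw [key a a rfl, coeff_zero]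
  have h10 : (P a).coeff (2 * (b : ℕ)) = c (a, b) := by
    simp only [P, finsetSum_coeff, coeff_C_mul, coeff_X_pow]
    rw [Finset.sum_eq_single b]
    · simp
    · intro b' _ hb'
      rw [if_neg, mul_zero]
      intro h11
      apply hb'
      exact Fin.ext (by omega)
    · intro h12
      exact absurd (Finset.mem_univ b) h12
  simpa [h10] using h9

end Pool.Agent.LibCN21
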