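import Mathlib
import Pool.Agent.LibCN21.Defs
import Pool.Agent.LibCN21.R12

/-! Row R16.
(cosh t)⁻¹ = 2 e^t/(e^(2t)+1). Multiply by e^(-t)(e^(2t)+1)^(2m+1) > 0: f t = sum_f c f 2^(2a+1) t^(2b) X^a (X+1)^(2(m-a)) at X = e^(2t): with the real polynomials
A_a = X^a (X+1)^(2(m-a)) of degree <= 2m (eval_eq_sum_range' with 2m+1): f t = sum_{l : Fin (2m+1)} p_l(t) e^(2 l t), p_l = sum_f c f 2^(2a+1) coeff l A_a X^(2b), degree < 2m+1.
exp_zeros with d = 2m+1 constant, N = (2m+1)^2.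
-/

set_option autoImplicit false

namespace Pool.Agent.LibCN21

open Pool.Agent.LibOT77 Polynomial MeasureTheory Filter Topology

/-- the polynomial `X^a (X+1)^(2(m-a))` -/
noncomputable def r16A (m a : ℕ) : ℝ[X] := X ^ a * (X + 1) ^ (2 * (m - a))

/-- the coefficient polynomials -/
noncomputable def r16P (m : ℕ) (c : Fin (m + 1) × Fin (m + 1) → ℝ) (l : Fin (2 * m + 1)) : ℝ[X] :=
  ∑ f : Fin (m + 1) × Fin (m + 1),
    C (c f * 2 ^ (2 * (f.1 : ℕ) + 1) * (r16A m f.1).coeff l) * X ^ (2 * (f.2 : ℕ))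

theorem r16_natDegree (m a : ℕ) (ha : a ≤ m) : (r16A m a).natDegree < 2 * m + 1 := by
  have h1 : (r16A m a).natDegree ≤ a + 2 * (m - a) := by
    unfold r16A
    refine natDegree_mul_le.trans (add_le_add (natDegree_X_pow_le a) ?_)
    refine natDegree_pow_le.trans ?_
    have h2 : (X + 1 : ℝ[X]).natDegree ≤ 1 := by
      refine (natDegree_add_le _ _).trans ?_
      simp
    calc 2 * (m - a) * (X + 1 : ℝ[X]).natDegree ≤ 2 * (m - a) * 1 := Nat.mul_le_mul_left _ h2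
      _ = _ := mul_one _
  omega

theorem r16_degree (m : ℕ) (c : Fin (m + 1) × Fin (m + 1) → ℝ) (l : Fin (2 * m + 1)) :
    (r16P m c l).degree < ((2 * m + 1 : ℕ) : WithBot ℕ) := by
  unfold r16P
  refine (degree_sum_le _ _).trans_lt ?_
  refine (Finset.sup_lt_iff (WithBot.bot_lt_coe _)).2 fun f _ => ?_
  refine (degree_C_mul_X_pow_le _ _).trans_lt ?_
  have h1 : 2 * (f.2 : ℕ) < 2 * m + 1 := by
    have := f.2.2
    omega
  exact_mod_cast h1

theorem r16_eval (m : ℕ) (c : Fin (m + 1) × Fin (m + 1) → ℝ) (t : ℝ) :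
    ∑ l, (r16P m c l).eval t * Real.exp (2 * ((l : Fin (2 * m + 1)) : ℕ) * t) =
    Real.exp (-t) * (Real.exp (2 * t) + 1) ^ (2 * m + 1) *
      ∑ f, c f * kr (2 * (f.2 : ℕ)) (2 * (f.1 : ℕ) + 1) t := by
  have h1 : ∀ f : Fin (m + 1) × Fin (m + 1),
      ∑ l : Fin (2 * m + 1), (r16A m f.1).coeff l * Real.exp (2 * (l : ℕ) * t) =
      Real.exp (2 * (f.1 : ℕ) * t) * (Real.exp (2 * t) + 1) ^ (2 * (m - f.1)) := by
    intro f
    have h2 := Polynomial.eval_eq_sum_range' (r16_natDegree m f.1 (by have := f.1.2; omega))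
      (Real.exp (2 * t))
    rw [← Fin.sum_univ_eq_sum_range (fun i => (r16A m f.1).coeff i * Real.exp (2 * t) ^ i)] at h2
    have h3 : ∀ i : ℕ, Real.exp (2 * t) ^ i = Real.exp (2 * i * t) := by
      intro i
      rw [← Real.exp_nat_mul]
      congr 1
      ring
    simp only [h3] at h2
    rw [← h2]
    simp only [r16A, eval_mul, eval_pow, eval_X, eval_add, eval_one, h3]
  have hE : (0 : ℝ) < Real.exp (2 * t) + 1 := by positivity
  have hcosh : (Real.cosh t)⁻¹ = 2 * Real.exp t / (Real.exp (2 * t) + 1) := by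
    have h4 : Real.exp (2 * t) = Real.exp t * Real.exp t := by
      rw [← Real.exp_add]
      congr 1
      ring
    have h5 : Real.exp (-t) = (Real.exp t)⁻¹ := Real.exp_neg t
    have h6 : Real.exp t ≠ 0 := (Real.exp_pos t).ne'
    have h7 : Real.exp t * Real.exp t + 1 ≠ 0 := by rw [← h4]; exact hE.ne'
    rw [Real.cosh_eq, h4, h5]
    field_simp
  calc ∑ l, (r16P m c l).eval t * Real.exp (2 * ((l : Fin (2 * m + 1)) : ℕ) * t)
      = ∑ l : Fin (2 * m + 1), ∑ f : Fin (m + 1) × Fin (m + 1),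
          (c f * 2 ^ (2 * (f.1 : ℕ) + 1) * t ^ (2 * (f.2 : ℕ))) *
            ((r16A m f.1).coeff l * Real.exp (2 * (l : ℕ) * t)) := by
        refine Finset.sum_congr rfl fun l _ => ?_
        rw [r16P, eval_finsetSum, Finset.sum_mul]
        refine Finset.sum_congr rfl fun f _ => ?_
        simp only [eval_mul, eval_C, eval_pow, eval_X]
        ring
    _ = ∑ f : Fin (m + 1) × Fin (m + 1),
          (c f * 2 ^ (2 * (f.1 : ℕ) + 1) * t ^ (2 * (f.2 : ℕ))) *
            (Real.exp (2 * (f.1 : ℕ) * t) * (Real.exp (2 * t) + 1) ^ (2 * (m - f.1))) := by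
        rw [Finset.sum_comm]
        refine Finset.sum_congr rfl fun f _ => ?_
        rw [← Finset.mul_sum, h1 f]
    _ = _ := by
        rw [Finset.mul_sum]
        refine Finset.sum_congr rfl fun f _ => ?_
        have hf : (f.1 : ℕ) ≤ m := by have := f.1.2; omega
        have h8 : 2 * m + 1 = 2 * (m - f.1) + (2 * (f.1 : ℕ) + 1) := by omega
        have h9 : Real.exp (2 * (f.1 : ℕ) * t) = Real.exp (-t) * Real.exp t ^ (2 * (f.1 : ℕ) + 1) := by
          rw [← Real.exp_nat_mul, ← Real.exp_add]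
          congr 1
          push_cast
          ring
        simp only [kr]
        rw [hcosh, div_pow, mul_pow, h9, h8, pow_add (Real.exp (2 * t) + 1)]
        have h10 : (Real.exp (2 * t) + 1) ^ (2 * (f.1 : ℕ) + 1) ≠ 0 := pow_ne_zero _ hE.ne'
        field_simp

theorem kr_zeros (m : ℕ) (c : Fin (m + 1) × Fin (m + 1) → ℝ)
    (h : HasZeros Set.univ ((2 * m + 1) ^ 2) (fun t => ∑ f, c f * kr (2 * (f.2 : ℕ)) (2 * (f.1 : ℕ) + 1) t)) :
    ∀ t, ∑ f, c f * kr (2 * (f.2 : ℕ)) (2 * (f.1 : ℕ) + 1) t = 0 := by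
  obtain ⟨z, hz, hz2⟩ := h
  have h1 := exp_zeros (ι := Fin (2 * m + 1)) (fun l => 2 * ((l : ℕ) : ℝ)) ((2 * m + 1) ^ 2)
    (fun _ => 2 * m + 1) (r16P m c)
    (by rw [Finset.sum_const, Finset.card_univ, Fintype.card_fin, smul_eq_mul, sq])
    (fun i => r16_degree m c i)
    ⟨z, hz, fun i => ⟨Set.mem_univ _, by
      have h2 := r16_eval m c (z i)
      have h5 : ∑ f, c f * kr (2 * (f.2 : ℕ)) (2 * (f.1 : ℕ) + 1) (z i) = 0 := (hz2 i).2
      rw [h5, mul_zero] at h2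
      exact h2⟩⟩
  intro t
  have h3 := r16_eval m c t
  rw [h1 t] at h3
  have h4 : Real.exp (-t) * (Real.exp (2 * t) + 1) ^ (2 * m + 1) ≠ 0 := by positivity
  exact (mul_eq_zero.1 h3.symm).resolve_left h4

end Pool.Agent.LibCN21
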