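import Mathlib
import Pool.Agent.LibCN21.Defs
import Pool.Agent.LibCN21.R02
import Pool.Agent.LibCN21.R03
import Pool.Agent.LibCN21.R07
import Pool.Agent.LibCN21.R11
import Pool.Agent.LibCN21.R13
import Pool.Agent.LibCN21.R14
import Pool.Agent.LibCN21.R15
import Pool.Agent.LibCN21.R16

/-! Row R17.
Suppose sum_f c f row_f = 0, c ≠ 0 (`Fintype.linearIndependent_iff`). Psi = sum c f kr.. is IsK (IsK.sum), not 0 (kr_indep), continuous; kr_zeros + finite_zeros: finite zero set Z,
card < (2m+1)^2; sign_set on univ: I ⊆ Z; var_dim: Phi = Lap Psi = sum c f ph.. on (-1,1) has no |I|+1 zeros there; finite_zeros: zero set Z' of Phi in Ioo (-1) 1, card <= |I| < (2m+1)^2 <= M.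
sign_set on Ico 0 1 with Z'.filter (0 <= ·): I''. P = prod_{z in I''} (y^2 - z^2) = polynomial in w = 1 - y^2 of degree |I''| < M: prod (C (1 - z^2) - X). By linearity
int (1-y^2)^q y^(2n) P Phi = 0 (sum over l of coefficients times the hypothesis; integrability: int_ph). But Phi is even (ph_even), y^2 - z^2 = (y-z)(y+z): the integrand has constant
sign on (-1,1), is continuous there and nonzero off a finite set: its integral is not 0 (`intervalIntegral` / `setIntegral_pos_iff_support_of_nonneg_ae`). Contradiction.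
-/

set_option autoImplicit false

namespace Pool.Agent.LibCN21

open Pool.Agent.LibOT77 Polynomial MeasureTheory Filter Topology

namespace R17

/-- a nonnegative integrable function that is nonzero off a finite set has positive integral -/
lemma pos_int (h : ℝ → ℝ) (hi : IntervalIntegrable h volume (-1) 1)
    (h0 : ∀ y ∈ Set.Ioo (-1 : ℝ) 1, 0 ≤ h y) (F : Finset ℝ)
    (hF : ∀ y ∈ Set.Ioo (-1 : ℝ) 1, h y = 0 → y ∈ F) :
    0 < ∫ y in (-1 : ℝ)..1, h y := by
  have hlt : (-1 : ℝ) < 1 := by norm_num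
  have hae : 0 ≤ᵐ[volume.restrict (Set.uIoc (-1 : ℝ) 1)] h := by
    rw [Set.uIoc_of_le hlt.le, ← restrict_Ioo_eq_restrict_Ioc]
    rw [EventuallyLE, ae_restrict_iff' measurableSet_Ioo]
    exact Filter.Eventually.of_forall h0
  rw [intervalIntegral.integral_pos_iff_support_of_nonneg_ae' hae hi]
  refine ⟨hlt, ?_⟩
  have hsub : Set.Ioo (-1 : ℝ) 1 \ (F : Set ℝ) ⊆ Function.support h ∩ Set.Ioc (-1) 1 := by
    intro y hy
    refine ⟨?_, hy.1.1, hy.1.2.le⟩
    intro hz
    exact hy.2 (Finset.mem_coe.2 (hF y hy.1 hz))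
  refine lt_of_lt_of_le ?_ (measure_mono hsub)
  rw [measure_sdiff_null (F.finite_toSet.measure_zero volume)]
  rw [Real.volume_Ioo]
  norm_num

/-- the polynomial in `w` -/
noncomputable def Q (I : Finset ℝ) : ℝ[X] := ∏ z ∈ I, (C (1 - z ^ 2) - X)

lemma Q_eval (I : Finset ℝ) (y : ℝ) : (Q I).eval (1 - y ^ 2) = ∏ z ∈ I, (y ^ 2 - z ^ 2) := by
  unfold Q
  rw [eval_prod]
  apply Finset.prod_congr rfl
  intro z _
  simp only [eval_sub, eval_C, eval_X]
  ring

lemma Q_deg (I : Finset ℝ) : (Q I).natDegree ≤ I.card := by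
  unfold Q
  refine (natDegree_prod_le _ _).trans ?_
  refine (Finset.sum_le_sum (g := fun _ => 1) ?_).trans (by simp)
  intro z _
  refine (natDegree_sub_le _ _).trans ?_
  rw [natDegree_C, natDegree_X]
  simp

lemma ii_sum {ι : Type*} (s : Finset ι) (f : ι → ℝ → ℝ)
    (h : ∀ i ∈ s, IntervalIntegrable (f i) volume (-1) 1) :
    IntervalIntegrable (fun y => ∑ i ∈ s, f i y) volume (-1) 1 := by
  classical
  induction s using Finset.induction_on with
  | empty => simp
  | insert a s ha ih =>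
    simp only [Finset.sum_insert ha]
    exact (h a (Finset.mem_insert_self _ _)).add
      (ih (fun i hi => h i (Finset.mem_insert_of_mem hi)))

end R17

theorem rows_indep {q n M m : ℕ} (hq : 2 * m + 1 ≤ q) (hM : (2 * m + 1) ^ 2 ≤ M) :
    LinearIndependent ℝ (fun (f : Fin (m + 1) × Fin (m + 1)) (l : Fin M) =>
      ∫ y in (-1 : ℝ)..1, ((1 - y ^ 2) ^ (q + (l : ℕ)) * y ^ (2 * n)) * ph (2 * (f.2 : ℕ)) (2 * (f.1 : ℕ) + 1) y) := by
  rw [Fintype.linearIndependent_iff]
  intro c hc
  by_contra hne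
  -- notation
  set Psi : ℝ → ℝ := fun t => ∑ f, c f * kr (2 * (f.2 : ℕ)) (2 * (f.1 : ℕ) + 1) t with hPsi
  obtain ⟨hK, hLap⟩ := IsK.sum Finset.univ c
    (fun f : Fin (m + 1) × Fin (m + 1) => kr (2 * (f.2 : ℕ)) (2 * (f.1 : ℕ) + 1))
    (fun f _ => kr_isK _ _ (by omega))
  have hK' : IsK Psi := hK
  have hLap' : ∀ y : ℝ, |y| < 1 →
      Lap Psi y = ∑ f, c f * ph (2 * (f.2 : ℕ)) (2 * (f.1 : ℕ) + 1) y := hLap
  have hPne : ∃ t, Psi t ≠ 0 := by
    by_contra hcon
    push Not at hcon
    have := kr_indep m c hcon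
    apply hne
    intro f
    rw [this]; rfl
  have hnz : ¬ HasZeros Set.univ ((2 * m + 1) ^ 2) Psi := by
    intro h
    obtain ⟨t, ht⟩ := hPne
    exact ht (kr_zeros m c h t)
  obtain ⟨Z, hZc, hZ⟩ := finite_zeros hnz
  obtain ⟨I, hIZ, hI⟩ := sign_set Z Set.univ Set.ordConnected_univ Psi hK'.1.continuousOn
    (fun x hx h => (hZ x).2 ⟨hx, h⟩) (fun x _ h => ((hZ x).1 h).2)
  have hvar := var_dim I Psi hK' hPne (by
    rcases hI with h | h
    · left; intro t; exact h t (Set.mem_univ t)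
    · right; intro t; exact h t (Set.mem_univ t))
  obtain ⟨Z', hZc', hZ'⟩ := finite_zeros hvar
  have hcard : Z'.card < M := by
    have h1 := Finset.card_le_card hIZ
    omega
  have hcont : ContinuousOn (Lap Psi) (Set.Ico 0 1) := by
    intro x hx
    have hx1 : |x| < 1 := by rw [abs_of_nonneg hx.1]; exact hx.2
    exact (hK'.hasDerivAt hx1).continuousAt.continuousWithinAt
  obtain ⟨J, hJZ, hJ⟩ := sign_set (Z'.filter (fun x => 0 ≤ x)) (Set.Ico 0 1) Set.ordConnected_Ico
    (Lap Psi) hcont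
    (fun x hx h => by
      rw [Finset.mem_filter]
      exact ⟨(hZ' x).2 ⟨⟨by linarith [hx.1], hx.2⟩, h⟩, hx.1⟩)
    (fun x _ h => by
      rw [Finset.mem_filter] at h
      exact ((hZ' x).1 h.1).2)
  have hJc : J.card < M := by
    have h1 := Finset.card_le_card hJZ
    have h2 := Finset.card_filter_le Z' (fun x => 0 ≤ x)
    omega
  have hJ0 : ∀ z ∈ J, 0 ≤ z := fun z hz => (Finset.mem_filter.1 (hJZ hz)).2
  -- the even function
  set Ph : ℝ → ℝ := fun y => ∑ f : Fin (m + 1) × Fin (m + 1),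
    c f * ph (2 * (f.2 : ℕ)) (2 * (f.1 : ℕ) + 1) y with hPh
  have hPhL : ∀ y ∈ Set.Ioo (-1 : ℝ) 1, Lap Psi y = Ph y := by
    intro y hy
    exact hLap' y (abs_lt.2 ⟨hy.1, hy.2⟩)
  have hPhe : ∀ y, Ph (-y) = Ph y := by
    intro y
    show ∑ f : Fin (m + 1) × Fin (m + 1), c f * ph (2 * (f.2 : ℕ)) (2 * (f.1 : ℕ) + 1) (-y) =
      ∑ f : Fin (m + 1) × Fin (m + 1), c f * ph (2 * (f.2 : ℕ)) (2 * (f.1 : ℕ) + 1) y
    apply Finset.sum_congr rfl
    intro f _
    rw [ph_even]
  -- integrability of the basic integrals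
  have hint : ∀ (f : Fin (m + 1) × Fin (m + 1)) (l : ℕ), IntervalIntegrable (fun y : ℝ =>
      ((1 - y ^ 2) ^ (q + l) * y ^ (2 * n)) * ph (2 * (f.2 : ℕ)) (2 * (f.1 : ℕ) + 1) y)
      volume (-1) 1 := by
    intro f l
    have h := int_ph ((X * (2 - X)) ^ (q + l) * (1 - X) ^ (2 * n)) (2 * (f.2 : ℕ))
      (2 * (f.1 : ℕ) + 1) (by omega) (Dvd.dvd.mul_right (pow_dvd_pow _ (by
        have := f.2.2
        omega)) _)
    refine h.congr ?_
    intro y _
    simp only [eval_mul, eval_pow, eval_sub, eval_X, eval_ofNat, eval_one]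
    have e1 : (1 + y) * (2 - (1 + y)) = 1 - y ^ 2 := by ring
    have e2 : (1 - (1 + y)) = -y := by ring
    rw [e1, e2, Even.neg_pow (even_two_mul n)]
  -- the test function
  set H : ℝ → ℝ := fun y => ((1 - y ^ 2) ^ q * y ^ (2 * n) * ∏ z ∈ J, (y ^ 2 - z ^ 2)) * Ph y
    with hH
  have hHsum : H = fun y => ∑ l ∈ Finset.range M, ∑ f : Fin (m + 1) × Fin (m + 1),
      ((R17.Q J).coeff l * c f) * (((1 - y ^ 2) ^ (q + l) * y ^ (2 * n)) *
        ph (2 * (f.2 : ℕ)) (2 * (f.1 : ℕ) + 1) y) := by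
    funext y
    rw [hH]
    simp only
    rw [← R17.Q_eval, eval_eq_sum_range' (lt_of_le_of_lt (R17.Q_deg J) hJc),
      Finset.mul_sum (Finset.range M), Finset.sum_mul]
    apply Finset.sum_congr rfl
    intro l _
    rw [hPh]
    simp only
    rw [Finset.mul_sum]
    apply Finset.sum_congr rfl
    intro f _
    rw [pow_add]
    ring
  have hHint : IntervalIntegrable H volume (-1) 1 := by
    rw [hHsum]
    apply R17.ii_sum
    intro l _
    apply R17.ii_sum
    intro f _
    exact (hint f l).const_mul _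
  have hH0 : ∫ y in (-1 : ℝ)..1, H y = 0 := by
    rw [hHsum]
    rw [intervalIntegral.integral_finsetSum]
    · apply Finset.sum_eq_zero
      intro l hl
      rw [Finset.mem_range] at hl
      rw [intervalIntegral.integral_finsetSum]
      · have h := congrFun hc ⟨l, hl⟩
        simp only [Finset.sum_apply, Pi.smul_apply, smul_eq_mul, Pi.zero_apply] at h
        have h2 : ∑ f : Fin (m + 1) × Fin (m + 1), ∫ y in (-1 : ℝ)..1,
            ((R17.Q J).coeff l * c f) * (((1 - y ^ 2) ^ (q + l) * y ^ (2 * n)) *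
              ph (2 * (f.2 : ℕ)) (2 * (f.1 : ℕ) + 1) y) =
            (R17.Q J).coeff l * ∑ f : Fin (m + 1) × Fin (m + 1), c f * ∫ y in (-1 : ℝ)..1,
              (((1 - y ^ 2) ^ (q + l) * y ^ (2 * n)) *
              ph (2 * (f.2 : ℕ)) (2 * (f.1 : ℕ) + 1) y) := by
          rw [Finset.mul_sum]
          apply Finset.sum_congr rfl
          intro f _
          rw [intervalIntegral.integral_const_mul]
          ring
        rw [h2, h, mul_zero]
      · intro f _
        exact (hint f l).const_mul _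
    · intro l _
      apply R17.ii_sum
      intro f _
      exact (hint f l).const_mul _
  -- zeros
  have hzero : ∀ y ∈ Set.Ioo (-1 : ℝ) 1, H y = 0 →
      y ∈ (insert 0 (Z' ∪ (J ∪ J.image (fun z => -z))) : Finset ℝ) := by
    intro y hy hHy
    rw [hH] at hHy
    simp only at hHy
    rcases mul_eq_zero.1 hHy with h | h
    · rcases mul_eq_zero.1 h with h | h
      · rcases mul_eq_zero.1 h with h | h
        · exfalso
          have h1 : 1 - y ^ 2 = 0 := eq_zero_of_pow_eq_zero h
          have h2 : 0 < (1 - y) * (1 + y) := mul_pos (by linarith [hy.2]) (by linarith [hy.1])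
          nlinarith
        · have h1 : y = 0 := eq_zero_of_pow_eq_zero h
          rw [h1]
          exact Finset.mem_insert_self _ _
      · obtain ⟨z, hz, hz0⟩ := Finset.prod_eq_zero_iff.1 h
        have h1 : (y - z) * (y + z) = 0 := by
          rw [← hz0]; ring
        apply Finset.mem_insert_of_mem
        apply Finset.mem_union_right
        rcases mul_eq_zero.1 h1 with h2 | h2
        · apply Finset.mem_union_left
          have : y = z := by linarith
          rw [this]; exact hz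
        · apply Finset.mem_union_right
          have : y = -z := by linarith
          rw [this]
          exact Finset.mem_image_of_mem _ hz
    · apply Finset.mem_insert_of_mem
      apply Finset.mem_union_left
      rw [hZ']
      refine ⟨hy, ?_⟩
      rw [hPhL y hy]
      exact h
  have heven : ∀ y, H (-y) = H y := by
    intro y
    rw [hH]
    simp only
    rw [hPhe]
    have e2 : (-y) ^ (2 * n) = y ^ (2 * n) := Even.neg_pow (even_two_mul n) y
    rw [e2]
    have e1 : (-y) ^ 2 = y ^ 2 := by ring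
    rw [e1]
  have hprod : ∀ y, 0 ≤ y → ∃ s : ℝ, 0 ≤ s ∧
      ∏ z ∈ J, (y ^ 2 - z ^ 2) = (∏ z ∈ J, (y - z)) * s := by
    intro y hy
    refine ⟨∏ z ∈ J, (y + z), Finset.prod_nonneg (fun z hz => add_nonneg hy (hJ0 z hz)), ?_⟩
    rw [← Finset.prod_mul_distrib]
    apply Finset.prod_congr rfl
    intro z _
    ring
  have hfac : ∀ y ∈ Set.Ico (0 : ℝ) 1, ∃ s : ℝ, 0 ≤ s ∧
      H y = s * (Lap Psi y * ∏ z ∈ J, (y - z)) := by
    intro y hy
    obtain ⟨s, hs, hs'⟩ := hprod y hy.1
    have hy' : y ∈ Set.Ioo (-1 : ℝ) 1 := ⟨by linarith [hy.1], hy.2⟩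
    refine ⟨(1 - y ^ 2) ^ q * y ^ (2 * n) * s, ?_, ?_⟩
    · have h1 : 0 ≤ 1 - y ^ 2 := by nlinarith [hy.1, hy.2]
      have h2 : 0 ≤ y := hy.1
      positivity
    · rw [hPhL y hy', hH]
      simp only
      rw [hs']
      ring
  rcases hJ with hJ | hJ
  · have hpos := R17.pos_int H hHint (by
      intro y hy
      rcases le_total 0 y with h | h
      · obtain ⟨s, hs, hs'⟩ := hfac y ⟨h, hy.2⟩
        rw [hs']
        exact mul_nonneg hs (hJ y ⟨h, hy.2⟩)
      · rw [← heven]
        have hy2 : (-y) ∈ Set.Ico (0 : ℝ) 1 := ⟨by linarith, by linarith [hy.1]⟩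
        obtain ⟨s, hs, hs'⟩ := hfac (-y) hy2
        rw [hs']
        exact mul_nonneg hs (hJ (-y) hy2)) _ hzero
    rw [hH0] at hpos
    exact lt_irrefl _ hpos
  · have hpos := R17.pos_int (fun y => -H y) hHint.neg (by
      intro y hy
      rcases le_total 0 y with h | h
      · obtain ⟨s, hs, hs'⟩ := hfac y ⟨h, hy.2⟩
        have := mul_nonpos_of_nonneg_of_nonpos hs (hJ y ⟨h, hy.2⟩)
        rw [← hs'] at this
        show 0 ≤ -H y
        linarith
      · have hy2 : (-y) ∈ Set.Ico (0 : ℝ) 1 := ⟨by linarith, by linarith [hy.1]⟩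
        obtain ⟨s, hs, hs'⟩ := hfac (-y) hy2
        have := mul_nonpos_of_nonneg_of_nonpos hs (hJ (-y) hy2)
        rw [← hs', heven] at this
        show 0 ≤ -H y
        linarith) _ (by
      intro y hy h
      exact hzero y hy (neg_eq_zero.1 h))
    rw [intervalIntegral.integral_neg, hH0, neg_zero] at hpos
    exact lt_irrefl _ hpos

end Pool.Agent.LibCN21
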