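import Mathlib
import Pool.Agent.LibCN21.Defs

set_option autoImplicit false

namespace Pool.Agent.LibCN21

open Pool.Agent.LibOT77 Polynomial MeasureTheory Filter Topology

attribute [local instance] Matrix.seminormedAddCommGroup in
/-- Siegel's lemma with exponent `1/3` -/
theorem siegel3 {α κ : Type*} [Fintype α] [Fintype κ] (A : Matrix α κ ℤ) (B N : ℝ) (hB : 1 ≤ B)
    (hA : ∀ i j, |(A i j : ℝ)| ≤ B) (hN : (Fintype.card κ : ℝ) ≤ N) (hc : 4 * Fintype.card α < Fintype.card κ) :
    ∃ t : κ → ℤ, t ≠ 0 ∧ A.mulVec t = 0 ∧ ∀ j, |(t j : ℝ)| ≤ (N * B) ^ (1 / 3 : ℝ) := by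
  have hκ1 : (1 : ℝ) ≤ Fintype.card κ := by
    have : 1 ≤ Fintype.card κ := by omega
    exact_mod_cast this
  have hN1 : 1 ≤ N := hκ1.trans hN
  have hNB : 1 ≤ N * B := one_le_mul_of_one_le_of_one_le hN1 hB
  rcases Nat.eq_zero_or_pos (Fintype.card α) with h0 | hpos
  · have hα : IsEmpty α := Fintype.card_eq_zero_iff.mp h0
    have hκ : 0 < Fintype.card κ := by omega
    obtain ⟨k⟩ := Fintype.card_pos_iff.mp hκ
    classical
    refine ⟨Pi.single k 1, ?_, ?_, ?_⟩
    · intro h
      have := congrFun h k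
      simp at this
    · funext i
      exact hα.elim i
    · intro j
      have h1 : (1 : ℝ) ≤ (N * B) ^ (1 / 3 : ℝ) := Real.one_le_rpow hNB (by norm_num)
      by_cases hj : j = k
      · subst hj
        simpa using h1
      · rw [Pi.single_eq_of_ne hj]
        simp
        linarith
  · obtain ⟨t, ht0, hAt, hnorm⟩ := Int.Matrix.exists_ne_zero_int_vec_norm_le A (by omega) hpos
    refine ⟨t, ht0, hAt, fun j => ?_⟩
    have h1 : |(t j : ℝ)| ≤ ‖t‖ := by
      have := norm_le_pi_norm t j
      rwa [Int.norm_eq_abs] at this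
    refine h1.trans (hnorm.trans ?_)
    have hmax : max 1 ‖A‖ ≤ B := by
      refine max_le hB ?_
      rw [Matrix.norm_le_iff (by linarith)]
      intro i j
      rw [Int.norm_eq_abs]
      exact hA i j
    have hbase : (Fintype.card κ : ℝ) * max 1 ‖A‖ ≤ N * B :=
      mul_le_mul hN hmax (by positivity) (by linarith)
    have hbase1 : (1 : ℝ) ≤ (Fintype.card κ : ℝ) * max 1 ‖A‖ :=
      one_le_mul_of_one_le_of_one_le hκ1 (le_max_left _ _)
    have hexp : ((Fintype.card α : ℝ) / ((Fintype.card κ : ℝ) - Fintype.card α)) ≤ 1 / 3 := by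
      have h4 : 4 * (Fintype.card α : ℝ) < Fintype.card κ := by exact_mod_cast hc
      have h0 : (0 : ℝ) < (Fintype.card κ : ℝ) - Fintype.card α := by
        have : (0 : ℝ) ≤ Fintype.card α := Nat.cast_nonneg _
        linarith
      rw [div_le_iff₀ h0]
      linarith
    have hexp0 : 0 ≤ ((Fintype.card α : ℝ) / ((Fintype.card κ : ℝ) - Fintype.card α)) := by
      have h4 : 4 * (Fintype.card α : ℝ) < Fintype.card κ := by exact_mod_cast hc
      apply div_nonneg (Nat.cast_nonneg _)
      have : (0 : ℝ) ≤ Fintype.card α := Nat.cast_nonneg _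
      linarith
    calc ((Fintype.card κ : ℝ) * max 1 ‖A‖) ^ ((Fintype.card α : ℝ) / ((Fintype.card κ : ℝ) - Fintype.card α))
        ≤ (N * B) ^ ((Fintype.card α : ℝ) / ((Fintype.card κ : ℝ) - Fintype.card α)) :=
          Real.rpow_le_rpow (by linarith) hbase hexp0
      _ ≤ (N * B) ^ (1 / 3 : ℝ) := Real.rpow_le_rpow_of_exponent_le hNB hexp

theorem span_short {α β : Type*} [Fintype α] [Fintype β] [DecidableEq β] (A : Matrix α β ℤ) (B H : ℝ) (hB : 1 ≤ B)
    (hA : ∀ i j, |(A i j : ℝ)| ≤ B) (hH : ((Fintype.card β : ℝ) * B) ^ (1 / 3 : ℝ) ≤ H) :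
    Fintype.card β ≤ 4 * Fintype.card α + Module.finrank ℝ (Submodule.span ℝ
      {v : β → ℝ | ∃ x : β → ℤ, A.mulVec x = 0 ∧ (∀ j, |(x j : ℝ)| ≤ H) ∧ v = fun j => (x j : ℝ)}) := by
  by_contra hcon
  push Not at hcon
  set W : Submodule ℝ (β → ℝ) := Submodule.span ℝ
      {v : β → ℝ | ∃ x : β → ℤ, A.mulVec x = 0 ∧ (∀ j, |(x j : ℝ)| ≤ H) ∧ v = fun j => (x j : ℝ)} with hW
  obtain ⟨κ, a, ha, hspan, hli⟩ := exists_linearIndependent' ℝ (fun j : β => W.mkQ (Pi.single j (1 : ℝ)))
  have hspan' : Submodule.span ℝ (Set.range ((fun j : β => W.mkQ (Pi.single j (1 : ℝ))) ∘ a)) = ⊤ := by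
    rw [hspan]
    have h1 : Set.range (fun j : β => W.mkQ (Pi.single j (1 : ℝ))) = W.mkQ '' Set.range (fun j : β => (Pi.single j (1 : ℝ) : β → ℝ)) := by
      rw [← Set.range_comp]
      rfl
    rw [h1, Submodule.span_image]
    have h2 : Submodule.span ℝ (Set.range (fun j : β => (Pi.single j (1 : ℝ) : β → ℝ))) = ⊤ := by
      have := (Pi.basisFun ℝ β).span_eq
      convert this using 3
      funext j
      simp
    rw [h2, Submodule.map_top, Submodule.range_mkQ]
  have : Fintype κ := Fintype.ofInjective a ha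
  have hcard : Fintype.card κ + Module.finrank ℝ W = Fintype.card β := by
    let b := Module.Basis.mk hli (le_of_eq hspan'.symm)
    have h1 : Module.finrank ℝ ((β → ℝ) ⧸ W) = Fintype.card κ := Module.finrank_eq_card_basis b
    have h2 := Submodule.finrank_quotient_add_finrank W
    rw [h1, Module.finrank_fintype_fun_eq_card] at h2
    exact h2
  obtain ⟨t, ht0, hAt, htH⟩ := siegel3 (fun i (k : κ) => A i (a k)) B (Fintype.card β) hB (fun i k => hA i (a k))
    (by exact_mod_cast Fintype.card_le_of_injective a ha) (by omega)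
  -- extend by zero
  set x : β → ℤ := fun j => ∑ k : κ, if a k = j then t k else 0 with hx
  have hxa : ∀ k, x (a k) = t k := by
    intro k
    rw [hx]
    simp only
    rw [Finset.sum_eq_single k]
    · simp
    · intro k' _ hk'
      rw [if_neg]
      intro h
      exact hk' (ha h)
    · intro h
      exact absurd (Finset.mem_univ k) h
  have hH0 : 0 ≤ ((Fintype.card β : ℝ) * B) ^ (1 / 3 : ℝ) := Real.rpow_nonneg (by positivity) _
  have hxH : ∀ j, |(x j : ℝ)| ≤ H := by
    intro j
    by_cases hj : ∃ k, a k = j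
    · obtain ⟨k, rfl⟩ := hj
      rw [hxa]
      exact (htH k).trans hH
    · have : x j = 0 := by
        rw [hx]
        simp only
        apply Finset.sum_eq_zero
        intro k _
        rw [if_neg]
        intro h
        exact hj ⟨k, h⟩
      rw [this]
      simp
      linarith
  have hAx : A.mulVec x = 0 := by
    funext i
    have h1 := congrFun hAt i
    simp only [Matrix.mulVec, dotProduct, Pi.zero_apply] at h1 ⊢
    rw [← h1, hx]
    simp only [Finset.mul_sum]
    rw [Finset.sum_comm]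
    refine Finset.sum_congr rfl fun k _ => ?_
    rw [Finset.sum_eq_single (a k)]
    · simp
    · intro j _ hj
      rw [if_neg (fun h => hj h.symm), mul_zero]
    · intro h
      exact absurd (Finset.mem_univ _) h
  have hxW : (fun j => (x j : ℝ)) ∈ W := Submodule.subset_span ⟨x, hAx, hxH, rfl⟩
  have hdec : (fun j => (x j : ℝ)) = ∑ k : κ, (t k : ℝ) • (Pi.single (a k) (1 : ℝ) : β → ℝ) := by
    funext j
    rw [Finset.sum_apply, hx]
    push_cast
    refine Finset.sum_congr rfl fun k _ => ?_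
    rw [Pi.smul_apply, smul_eq_mul]
    by_cases h : a k = j
    · subst h
      simp
    · rw [if_neg h, Pi.single_eq_of_ne (fun h' => h h'.symm), mul_zero]
  have hz : ∑ k : κ, (t k : ℝ) • ((fun j : β => W.mkQ (Pi.single j (1 : ℝ))) ∘ a) k = 0 := by
    have h1 : W.mkQ (fun j => (x j : ℝ)) = 0 := by
      rw [Submodule.mkQ_apply, Submodule.Quotient.mk_eq_zero]
      exact hxW
    rw [hdec, map_sum] at h1
    rw [← h1]
    refine Finset.sum_congr rfl fun k _ => ?_
    rw [map_smul]
    rfl
  have h3 := Fintype.linearIndependent_iff.mp hli (fun k => (t k : ℝ)) hz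
  apply ht0
  funext k
  exact_mod_cast h3 k

end Pool.Agent.LibCN21
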