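import Mathlib
import Pool.Agent.LibCN21.Defs
import Pool.Agent.LibCN21.R18

set_option autoImplicit false

namespace Pool.Agent.LibCN21

open Pool.Agent.LibOT77 Polynomial MeasureTheory Filter Topology

theorem count {α β φ : Type*} [Fintype α] [Fintype β] [DecidableEq β] [Fintype φ] (A : Matrix α β ℤ) (L : φ → β → ℝ)
    (B H : ℝ) (hB : 1 ≤ B) (hA : ∀ i j, |(A i j : ℝ)| ≤ B) (hH : ((Fintype.card β : ℝ) * B) ^ (1 / 3 : ℝ) ≤ H)
    (hL : LinearIndependent ℝ L)
    (hsm : ∀ x : β → ℤ, A.mulVec x = 0 → (∀ j, |(x j : ℝ)| ≤ H) → ∀ f, ∑ j, (x j : ℝ) * L f j = 0) :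
    Fintype.card φ ≤ 4 * Fintype.card α := by
  have h1 := span_short A B H hB hA hH
  set W : Submodule ℝ (β → ℝ) := Submodule.span ℝ
      {v : β → ℝ | ∃ x : β → ℤ, A.mulVec x = 0 ∧ (∀ j, |(x j : ℝ)| ≤ H) ∧ v = fun j => (x j : ℝ)} with hW
  have hle : W ≤ LinearMap.ker (Matrix.of L).mulVecLin := by
    rw [hW, Submodule.span_le]
    rintro v ⟨x, hx1, hx2, rfl⟩
    rw [SetLike.mem_coe, LinearMap.mem_ker, Matrix.mulVecLin_apply]
    funext f
    simp only [Matrix.mulVec, dotProduct, Matrix.of_apply, Pi.zero_apply]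
    rw [← hsm x hx1 hx2 f]
    exact Finset.sum_congr rfl fun j _ => mul_comm _ _
  have h2 := Submodule.finrank_mono hle
  have h3 := LinearMap.finrank_range_add_finrank_ker (Matrix.of L).mulVecLin
  have h4 : (Matrix.of L).rank = Fintype.card φ := by
    apply LinearIndependent.rank_matrix
    exact hL
  unfold Matrix.rank at h4
  rw [Module.finrank_fintype_fun_eq_card] at h3
  omega

end Pool.Agent.LibCN21
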