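import Mathlib
import Pool.Agent.LibCN21.Defs

/-! Row R20.
coeff_le: sum of absolute values of the coefficients is submultiplicative: for p : Z[X] let N p = sum |coeff|; X(2-X): 3, (1-X)^2: 4, N(p^k) <= N(p)^k. Or prove by induction on the exponent:
(all |coeff (X(2-X)p)| bounded by ... ) e.g. claim: for all κ |coeff κ p| <= c implies |coeff κ ((X(2-X)) p)| <= 3 c and |coeff κ ((1-X) p)| <= 2 c. Then 3^(q+l) 4^n <= 3^(q+M) 4^n.
at1_RU: simp [Polynomial.map_sum, eval_finset_sum]; (1+y)(2-(1+y)) = 1 - y^2, (1-(1+y))^(2n) = y^(2n).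
-/

set_option autoImplicit false

namespace Pool.Agent.LibCN21

open Pool.Agent.LibOT77 Polynomial MeasureTheory Filter Topology

private theorem R20_X {p : ℤ[X]} {c : ℤ} (hc : 0 ≤ c) (h : ∀ κ, |p.coeff κ| ≤ c) (κ : ℕ) :
    |(X * p).coeff κ| ≤ c := by
  cases κ with
  | zero => rw [Polynomial.coeff_X_mul_zero, abs_zero]; exact hc
  | succ κ => rw [Polynomial.coeff_X_mul]; exact h κ

private theorem R20_w {p : ℤ[X]} {c : ℤ} (hc : 0 ≤ c) (h : ∀ κ, |p.coeff κ| ≤ c) (κ : ℕ) :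
    |(X * (2 - X) * p).coeff κ| ≤ 3 * c := by
  have e : X * (2 - X) * p = C 2 * (X * p) - X * (X * p) := by
    rw [show (C (2 : ℤ) : ℤ[X]) = 2 from rfl]
    ring
  rw [e, Polynomial.coeff_sub, Polynomial.coeff_C_mul]
  have h1 := R20_X hc h κ
  have h2 := R20_X hc (R20_X hc h) κ
  rw [abs_le] at h1 h2 ⊢
  constructor <;> linarith [h1.1, h1.2, h2.1, h2.2]

private theorem R20_u {p : ℤ[X]} {c : ℤ} (hc : 0 ≤ c) (h : ∀ κ, |p.coeff κ| ≤ c) (κ : ℕ) :
    |((1 - X) * p).coeff κ| ≤ 2 * c := by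
  have e : (1 - X) * p = p - X * p := by ring
  rw [e, Polynomial.coeff_sub]
  have h1 := R20_X hc h κ
  have h2 := h κ
  rw [abs_le] at h1 h2 ⊢
  constructor <;> linarith [h1.1, h1.2, h2.1, h2.2]

private theorem R20_upow (m : ℕ) (κ : ℕ) : |((1 - X : ℤ[X]) ^ m).coeff κ| ≤ 2 ^ m := by
  induction m generalizing κ with
  | zero =>
    rw [pow_zero, pow_zero, Polynomial.coeff_one]
    split_ifs <;> norm_num
  | succ m ih =>
    rw [pow_succ', pow_succ']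
    exact R20_u (by positivity) ih κ

private theorem R20_wpow (m r : ℕ) (κ : ℕ) :
    |((X * (2 - X)) ^ r * (1 - X : ℤ[X]) ^ m).coeff κ| ≤ 3 ^ r * 2 ^ m := by
  induction r generalizing κ with
  | zero =>
    rw [pow_zero, pow_zero, one_mul, one_mul]
    exact R20_upow m κ
  | succ r ih =>
    have e1 : (X * (2 - X)) ^ (r + 1) * (1 - X : ℤ[X]) ^ m =
        X * (2 - X) * ((X * (2 - X)) ^ r * (1 - X : ℤ[X]) ^ m) := by ring
    have e2 : (3 : ℤ) ^ (r + 1) * 2 ^ m = 3 * (3 ^ r * 2 ^ m) := by ring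
    rw [e1, e2]
    exact R20_w (by positivity) ih κ

theorem coeff_le (q n M : ℕ) (l : Fin M) (κ : ℕ) :
    |((((X * (2 - X)) ^ (q + (l : ℕ)) * (1 - X) ^ (2 * n) : ℤ[X]).coeff κ : ℤ) : ℝ)| ≤ 3 ^ (q + M) * 4 ^ n := by
  have h1 := R20_wpow (2 * n) (q + (l : ℕ)) κ
  have h2 : |((((X * (2 - X)) ^ (q + (l : ℕ)) * (1 - X) ^ (2 * n) : ℤ[X]).coeff κ : ℤ) : ℝ)| ≤
      3 ^ (q + (l : ℕ)) * 2 ^ (2 * n) := by
    exact_mod_cast h1
  refine h2.trans ?_
  rw [pow_mul]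
  have h3 : (3 : ℝ) ^ (q + (l : ℕ)) ≤ 3 ^ (q + M) :=
    pow_le_pow_right₀ (by norm_num) (by have := l.isLt; omega)
  have h4 : ((2 : ℝ) ^ 2) ^ n = 4 ^ n := by norm_num
  rw [h4]
  exact mul_le_mul_of_nonneg_right h3 (by positivity)

theorem at1_RU (q n M : ℕ) (x : Fin M → ℤ) (y : ℝ) :
    at1 (RU q n M x) y = ∑ l, (x l : ℝ) * ((1 - y ^ 2) ^ (q + (l : ℕ)) * y ^ (2 * n)) := by
  unfold at1 RU
  rw [Polynomial.map_sum, Polynomial.eval_finsetSum]
  refine Finset.sum_congr rfl fun l _ => ?_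
  simp only [Polynomial.map_mul, Polynomial.map_pow, Polynomial.map_sub, Polynomial.map_one,
    Polynomial.map_X, Polynomial.map_C, Polynomial.map_ofNat, eval_mul, eval_pow, eval_sub,
    eval_one, eval_X, eval_C, eval_ofNat]
  rw [eq_intCast (Int.castRingHom ℝ)]
  have e1 : (1 + y) * (2 - (1 + y)) = 1 - y ^ 2 := by ring
  have e2 : (1 - (1 + y)) ^ (2 * n) = y ^ (2 * n) := by
    rw [pow_mul, pow_mul]
    congr 1
    ring
  rw [e1, e2]

end Pool.Agent.LibCN21
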