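import Mathlib
import Pool.Agent.LibCN21.Defs
import Pool.Agent.LibCN21.R04
import Pool.Agent.LibCN21.R07
import Pool.Agent.LibCN21.R10
import Pool.Agent.LibCN21.R20

/-! Row R21.
main_id (2b+1 <= q since n >= 1). |at1 RU y| <= M H w^q (1-w)^n, w = 1-y^2 in [0,1] (at1_RU, w^(q+l) <= w^q, y^(2n) = (1-w)^n). |ph (2b) (2a+1) y| <= 4 (2b)!/(1-|y|)^(2b+1), 1/(1-|y|) <= 2/w. So the integrand
is <= 4 (2b)! M H 2^(2b+1) w^(q-2b-1) (1-w)^n <= 4 (2b)! M H 2^(2b+1) (w(1-w))^(n-1) <= 4 (2b)! M H 2^(2b+1)/4^(n-1). `intervalIntegral.norm_integral_le_of_norm_le_const` on (-1,1) (values at ±1: RU = 0 there),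
length 2. Total (2a)!/(2 pi (2b)!) * 2 * that = (32/pi) (2a)! M H 2^(2b)/4^n <= 16 .. (pi > 3, (2a)! <= (2m)!).
-/

set_option autoImplicit false

namespace Pool.Agent.LibCN21

open Pool.Agent.LibOT77 Polynomial MeasureTheory Filter Topology

theorem R21_pt {q n M : ℕ} (x : Fin M → ℤ) {H : ℝ} (hx : ∀ l, |(x l : ℝ)| ≤ H) {y : ℝ}
    (hy : |y| ≤ 1) :
    |at1 (RU q n M x) y| ≤ (M : ℝ) * H * ((1 - y ^ 2) ^ q * (y ^ 2) ^ n) := by
  have hw0 : 0 ≤ 1 - y ^ 2 := by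
    have h := (sq_le_one_iff_abs_le_one y).2 hy
    linarith
  have hw1 : 1 - y ^ 2 ≤ 1 := by
    have h := sq_nonneg y
    linarith
  have hy2 : 0 ≤ y ^ 2 := sq_nonneg y
  rw [at1_RU]
  refine (Finset.abs_sum_le_sum_abs _ _).trans ?_
  have h1 : ∀ l ∈ (Finset.univ : Finset (Fin M)),
      |(x l : ℝ) * ((1 - y ^ 2) ^ (q + (l : ℕ)) * y ^ (2 * n))| ≤
        H * ((1 - y ^ 2) ^ q * (y ^ 2) ^ n) := by
    intro l _
    have e : y ^ (2 * n) = (y ^ 2) ^ n := pow_mul y 2 n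
    have e2 : 0 ≤ (1 - y ^ 2) ^ (q + (l : ℕ)) * (y ^ 2) ^ n :=
      mul_nonneg (pow_nonneg hw0 _) (pow_nonneg hy2 _)
    rw [e, abs_mul, abs_of_nonneg e2]
    refine mul_le_mul (hx l) ?_ e2 ((abs_nonneg _).trans (hx l))
    refine mul_le_mul_of_nonneg_right ?_ (pow_nonneg hy2 _)
    rw [pow_add]
    exact mul_le_of_le_one_right (pow_nonneg hw0 q) (pow_le_one₀ hw0 hw1)
  refine (Finset.sum_le_sum h1).trans_eq ?_
  rw [Finset.sum_const, Finset.card_univ, Fintype.card_fin, nsmul_eq_mul]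
  ring

/-- the elementary inequality behind the bound of the integrand -/
theorem R21_el {b c n' : ℕ} {y : ℝ} (hy : |y| < 1) :
    ((1 - y ^ 2) ^ (n' + 1 + 2 * (b + c)) * (y ^ 2) ^ (n' + 1)) / (1 - |y|) ^ (2 * b + 1) ≤
      8 * 2 ^ (2 * b) / 4 ^ (n' + 1) := by
  have hd : 0 < 1 - |y| := by linarith
  have ha : 0 ≤ |y| := abs_nonneg y
  have hw : 1 - y ^ 2 = (1 - |y|) * (1 + |y|) := by
    have h := sq_abs y
    rw [← h]
    ring
  have hw0 : 0 ≤ 1 - y ^ 2 := by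
    rw [hw]
    positivity
  have hw1 : 1 - y ^ 2 ≤ 1 := by
    have h := sq_nonneg y
    linarith
  have hy2 : 0 ≤ y ^ 2 := sq_nonneg y
  have hy1 : y ^ 2 ≤ 1 := by linarith
  have hw2 : 1 - y ^ 2 ≤ 2 * (1 - |y|) := by
    rw [hw]
    nlinarith
  have h1 : (1 - y ^ 2) ^ (2 * b + 1) ≤ 2 ^ (2 * b + 1) * (1 - |y|) ^ (2 * b + 1) := by
    rw [← mul_pow]
    exact pow_le_pow_left₀ hw0 hw2 _
  have h2 : (1 - y ^ 2) ^ (n' + 2 * c) ≤ (1 - y ^ 2) ^ n' :=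
    pow_le_pow_of_le_one hw0 hw1 (by omega)
  have h3 : (y ^ 2) ^ (n' + 1) ≤ (y ^ 2) ^ n' := pow_le_pow_of_le_one hy2 hy1 (by omega)
  have h4 : (1 - y ^ 2) ^ n' * (y ^ 2) ^ n' ≤ (1 / 4 : ℝ) ^ n' := by
    rw [← mul_pow]
    refine pow_le_pow_left₀ (mul_nonneg hw0 hy2) ?_ _
    nlinarith [sq_nonneg (y ^ 2 - 1 / 2)]
  have e1 : (1 - y ^ 2) ^ (n' + 1 + 2 * (b + c)) =
      (1 - y ^ 2) ^ (2 * b + 1) * (1 - y ^ 2) ^ (n' + 2 * c) := by
    rw [← pow_add]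
    congr 1
    omega
  have hD : 0 < (1 - |y|) ^ (2 * b + 1) := pow_pos hd _
  rw [div_le_iff₀ hD, e1]
  have h5 : (1 - y ^ 2) ^ (n' + 2 * c) * (y ^ 2) ^ (n' + 1) ≤ (1 / 4 : ℝ) ^ n' :=
    (mul_le_mul h2 h3 (pow_nonneg hy2 _) (pow_nonneg hw0 _)).trans h4
  have h6 : (1 - y ^ 2) ^ (2 * b + 1) * ((1 - y ^ 2) ^ (n' + 2 * c) * (y ^ 2) ^ (n' + 1)) ≤
      (2 ^ (2 * b + 1) * (1 - |y|) ^ (2 * b + 1)) * (1 / 4 : ℝ) ^ n' :=
    mul_le_mul h1 h5 (mul_nonneg (pow_nonneg hw0 _) (pow_nonneg hy2 _)) (by positivity)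
  have e2 : (8 * 2 ^ (2 * b) / 4 ^ (n' + 1) : ℝ) = 2 ^ (2 * b + 1) * (1 / 4 : ℝ) ^ n' := by
    rw [div_pow, one_pow, pow_succ, pow_succ]
    field_simp
    norm_num
  rw [e2, mul_assoc]
  refine h6.trans_eq ?_
  ring

theorem small {q n M : ℕ} (x : Fin M → ℤ) {H : ℝ} (hx : ∀ l, |(x l : ℝ)| ≤ H) {a b m : ℕ} (ha : a ≤ m) (hb : b ≤ m)
    (hn : 1 ≤ n) (hq : q = n + 2 * m) :
    |FF (SU q n M x a b)| ≤ 16 * M * H * 2 ^ (2 * m) * (2 * m).factorial / 4 ^ n := by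
  have hK : 0 ≤ (M : ℝ) * H := by
    rcases Nat.eq_zero_or_pos M with h | h
    · rw [h]
      simp
    · exact mul_nonneg (Nat.cast_nonneg M) ((abs_nonneg _).trans (hx ⟨0, h⟩))
  obtain ⟨n', rfl⟩ : ∃ n', n = n' + 1 := ⟨n - 1, by omega⟩
  obtain ⟨c, rfl⟩ : ∃ c, m = b + c := ⟨m - b, by omega⟩
  subst hq
  rw [main_id x (by omega : 2 * b + 1 ≤ n' + 1 + 2 * (b + c))]
  have hfb : (0 : ℝ) < ((2 * b).factorial : ℝ) := by exact_mod_cast Nat.factorial_pos _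
  have hfa : (0 : ℝ) < ((2 * a).factorial : ℝ) := by exact_mod_cast Nat.factorial_pos _
  have hint : ‖∫ y in (-1 : ℝ)..1, at1 (RU (n' + 1 + 2 * (b + c)) (n' + 1) M x) y *
      ph (2 * b) (2 * a + 1) y‖ ≤
      ((M : ℝ) * H * (4 * (2 * b).factorial) * (8 * 2 ^ (2 * b) / 4 ^ (n' + 1))) * |1 - (-1 : ℝ)| := by
    refine intervalIntegral.norm_integral_le_of_norm_le_const fun y hy => ?_
    rw [Set.uIoc_of_le (by norm_num : (-1 : ℝ) ≤ 1)] at hy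
    have hC : 0 ≤ (M : ℝ) * H * (4 * (2 * b).factorial) * (8 * 2 ^ (2 * b) / 4 ^ (n' + 1)) := by
      positivity
    rw [Real.norm_eq_abs, abs_mul]
    rcases eq_or_lt_of_le hy.2 with h1 | h1
    · have h2 := R21_pt (q := n' + 1 + 2 * (b + c)) (n := n' + 1) x hx (y := y) (by rw [h1]; simp)
      have h3 : (1 - y ^ 2) ^ (n' + 1 + 2 * (b + c)) = 0 := by
        have h5 : 1 - y ^ 2 = 0 := by
          rw [h1]
          norm_num
        rw [h5]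
        exact zero_pow (by omega)
      rw [h3, zero_mul, mul_zero] at h2
      have h4 : |at1 (RU (n' + 1 + 2 * (b + c)) (n' + 1) M x) y| = 0 :=
        le_antisymm h2 (abs_nonneg _)
      rw [h4, zero_mul]
      exact hC
    · have hy1 : |y| < 1 := abs_lt.2 ⟨hy.1, h1⟩
      have h2 := R21_pt (q := n' + 1 + 2 * (b + c)) (n := n' + 1) x hx hy1.le
      have h3 := ph_bound (2 * b) (2 * a + 1) (by omega) hy1
      have h4 := R21_el (b := b) (c := c) (n' := n') hy1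
      have hw0 : 0 ≤ 1 - y ^ 2 := by
        have h := (sq_lt_one_iff_abs_lt_one y).2 hy1
        linarith
      refine (mul_le_mul h2 h3 (abs_nonneg _) (mul_nonneg hK
        (mul_nonneg (pow_nonneg hw0 _) (pow_nonneg (sq_nonneg y) _)))).trans ?_
      have e1 : (M : ℝ) * H * ((1 - y ^ 2) ^ (n' + 1 + 2 * (b + c)) * (y ^ 2) ^ (n' + 1)) *
          (4 * (2 * b).factorial / (1 - |y|) ^ (2 * b + 1)) =
          (M : ℝ) * H * (4 * (2 * b).factorial) * (((1 - y ^ 2) ^ (n' + 1 + 2 * (b + c)) *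
            (y ^ 2) ^ (n' + 1)) / (1 - |y|) ^ (2 * b + 1)) := by
        ring
      rw [e1]
      exact mul_le_mul_of_nonneg_left h4 (by positivity)
  rw [Real.norm_eq_abs] at hint
  have hpos : 0 < ((2 * a).factorial : ℝ) / (2 * Real.pi * (2 * b).factorial) := by positivity
  rw [abs_mul, abs_of_pos hpos]
  refine (mul_le_mul_of_nonneg_left hint hpos.le).trans ?_
  have e3 : |1 - (-1 : ℝ)| = 2 := by norm_num
  rw [e3]
  have e4 : ((2 * a).factorial : ℝ) / (2 * Real.pi * (2 * b).factorial) *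
      ((M : ℝ) * H * (4 * (2 * b).factorial) * (8 * 2 ^ (2 * b) / 4 ^ (n' + 1)) * 2) =
      (32 / Real.pi) * ((M : ℝ) * H * 2 ^ (2 * b) * (2 * a).factorial / 4 ^ (n' + 1)) := by
    field_simp
    ring
  rw [e4]
  have h5 : 32 / Real.pi ≤ 16 := by
    rw [div_le_iff₀ Real.pi_pos]
    linarith [Real.pi_gt_three]
  have h6 : ((2 * a).factorial : ℝ) ≤ (2 * (b + c)).factorial := by
    exact_mod_cast Nat.factorial_le (by omega)
  have h7 : (2 : ℝ) ^ (2 * b) ≤ 2 ^ (2 * (b + c)) :=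
    pow_le_pow_right₀ (by norm_num) (by omega)
  have h8 : (M : ℝ) * H * 2 ^ (2 * b) * (2 * a).factorial / 4 ^ (n' + 1) ≤
      (M : ℝ) * H * 2 ^ (2 * (b + c)) * (2 * (b + c)).factorial / 4 ^ (n' + 1) := by
    refine div_le_div_of_nonneg_right ?_ (by positivity)
    refine mul_le_mul ?_ h6 hfa.le (by positivity)
    exact mul_le_mul_of_nonneg_left h7 hK
  have h9 : 0 ≤ (M : ℝ) * H * 2 ^ (2 * b) * (2 * a).factorial / 4 ^ (n' + 1) := by positivity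
  refine (mul_le_mul h5 h8 h9 (by norm_num)).trans_eq ?_
  ring

end Pool.Agent.LibCN21
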