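import Mathlib
import Pool.Agent.LibCN21.Defs

/-! Row R22. -/

set_option autoImplicit false

namespace Pool.Agent.LibCN21

open Pool.Agent.LibOT77 Polynomial MeasureTheory Filter Topology

private theorem R22_three : (3 : ℕ) ^ 1056 ≤ 2 ^ 1674 := by
  have h1 : (3 : ℕ) ^ 176 ≤ 2 ^ 140 * 2 ^ 139 := by norm_num
  rw [← pow_add] at h1
  calc (3 : ℕ) ^ 1056 = (3 ^ 176) ^ 6 := by rw [← pow_mul]
    _ ≤ (2 ^ (140 + 139)) ^ 6 := Nat.pow_le_pow_left h1 6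
    _ = 2 ^ 1674 := by rw [← pow_mul]

private theorem R22_nat {e : ℕ} (he : 1 ≤ e) :
    2 ^ 12 * (1024 * e ^ 2) ^ 4 * 3 ^ (2 * (16 * e - 1) + 1024 * e ^ 2) *
      2 ^ (3 * (2 * (16 * e - 1))) * (2 * (16 * e - 1)).factorial ^ 3 ≤ 2 ^ (2310 * e ^ 2) := by
  have hee : e ≤ e ^ 2 := by nlinarith
  have hm : 2 * (16 * e - 1) ≤ 32 * e := by omega
  have h1 : (3 : ℕ) ^ (2 * (16 * e - 1) + 1024 * e ^ 2) ≤ 2 ^ (1674 * e ^ 2) := by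
    calc (3 : ℕ) ^ (2 * (16 * e - 1) + 1024 * e ^ 2) ≤ 3 ^ (1056 * e ^ 2) :=
          Nat.pow_le_pow_right (by norm_num) (by omega)
      _ = (3 ^ 1056) ^ (e ^ 2) := by rw [pow_mul]
      _ ≤ (2 ^ 1674) ^ (e ^ 2) := Nat.pow_le_pow_left R22_three _
      _ = 2 ^ (1674 * e ^ 2) := by rw [pow_mul]
  have h2 : (2 : ℕ) ^ (3 * (2 * (16 * e - 1))) ≤ 2 ^ (96 * e ^ 2) :=
    Nat.pow_le_pow_right (by norm_num) (by omega)
  have h3 : (2 * (16 * e - 1)).factorial ≤ 2 ^ (160 * e ^ 2) := by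
    have h4 : 32 * e ≤ 2 ^ (5 * e) := by
      have h5 : e < 2 ^ e := Nat.lt_two_pow_self
      have h6 : (2 : ℕ) ^ (5 * e) = 2 ^ (4 * e) * 2 ^ e := by rw [← pow_add]; congr 1; omega
      by_cases he1 : e = 1
      · subst he1; norm_num
      · have h7 : (32 : ℕ) ≤ 2 ^ (4 * e) := by
          calc (32 : ℕ) ≤ 2 ^ 8 := by norm_num
            _ ≤ 2 ^ (4 * e) := Nat.pow_le_pow_right (by norm_num) (by omega)
        rw [h6]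
        exact Nat.mul_le_mul h7 h5.le
    calc (2 * (16 * e - 1)).factorial ≤ (32 * e).factorial := Nat.factorial_le hm
      _ ≤ (32 * e) ^ (32 * e) := Nat.factorial_le_pow _
      _ ≤ (2 ^ (5 * e)) ^ (32 * e) := Nat.pow_le_pow_left h4 _
      _ = 2 ^ (160 * e ^ 2) := by rw [← pow_mul]; congr 1; ring
  have h4 : (2 : ℕ) ^ 12 * (1024 * e ^ 2) ^ 4 ≤ 2 ^ (60 * e ^ 2) := by
    have h5 : e < 2 ^ e := Nat.lt_two_pow_self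
    have h6 : e ^ 8 ≤ 2 ^ (8 * e ^ 2) := by
      calc e ^ 8 ≤ (2 ^ e) ^ 8 := Nat.pow_le_pow_left h5.le _
        _ = 2 ^ (8 * e) := by rw [← pow_mul, mul_comm]
        _ ≤ 2 ^ (8 * e ^ 2) := Nat.pow_le_pow_right (by norm_num) (by omega)
    calc (2 : ℕ) ^ 12 * (1024 * e ^ 2) ^ 4 = 2 ^ 52 * e ^ 8 := by ring
      _ ≤ 2 ^ (52 * e ^ 2) * 2 ^ (8 * e ^ 2) := by
        refine Nat.mul_le_mul (Nat.pow_le_pow_right (by norm_num) (by nlinarith)) h6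
      _ = 2 ^ (60 * e ^ 2) := by rw [← pow_add]; congr 1; ring
  calc 2 ^ 12 * (1024 * e ^ 2) ^ 4 * 3 ^ (2 * (16 * e - 1) + 1024 * e ^ 2) *
      2 ^ (3 * (2 * (16 * e - 1))) * (2 * (16 * e - 1)).factorial ^ 3
      ≤ 2 ^ (60 * e ^ 2) * 2 ^ (1674 * e ^ 2) * 2 ^ (96 * e ^ 2) * (2 ^ (160 * e ^ 2)) ^ 3 :=
        Nat.mul_le_mul (Nat.mul_le_mul (Nat.mul_le_mul h4 h1) h2) (Nat.pow_le_pow_left h3 3)
    _ = 2 ^ (2310 * e ^ 2) := by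
      rw [← pow_mul, ← pow_add, ← pow_add, ← pow_add]
      congr 1
      ring

theorem numeric {e n D : ℕ} (he : 1 ≤ e) (hn : 4096 * e ^ 2 ≤ n) (hD : 2 ^ n * D ≤ 3 ^ n) :
    (D : ℝ) * (16 * ((1024 * e ^ 2 : ℕ) : ℝ) *
      (((1024 * e ^ 2 : ℕ) : ℝ) * (3 ^ (n + 2 * (16 * e - 1) + 1024 * e ^ 2) * 4 ^ n)) ^ (1 / 3 : ℝ) *
      2 ^ (2 * (16 * e - 1)) * (2 * (16 * e - 1)).factorial / 4 ^ n) < 1 := by
  have hA := R22_nat he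
  set M : ℕ := 1024 * e ^ 2 with hM
  set m : ℕ := 2 * (16 * e - 1) with hm
  set X : ℝ := (M : ℝ) * (3 ^ (n + m + M) * 4 ^ n) with hX
  have hX0 : 0 ≤ X := by positivity
  have hXr : (X ^ (1 / 3 : ℝ)) ^ 3 = X := by
    rw [← Real.rpow_natCast, ← Real.rpow_mul hX0]
    norm_num
  have hL0 : 0 ≤ (D : ℝ) * (16 * (M : ℝ) * X ^ (1 / 3 : ℝ) * 2 ^ m * m.factorial / 4 ^ n) := by
    positivity
  have hD' : (D : ℝ) ≤ (3 / 2) ^ n := by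
    have h1 : (2 : ℝ) ^ n * D ≤ 3 ^ n := by exact_mod_cast hD
    rw [div_pow, le_div_iff₀ (by positivity)]
    linarith
  have hA' : (2 : ℝ) ^ 12 * (M : ℝ) ^ 4 * 3 ^ (m + M) * 2 ^ (3 * m) * (m.factorial : ℝ) ^ 3 ≤
      2 ^ (2310 * e ^ 2) := by exact_mod_cast hA
  have hcube : ((D : ℝ) * (16 * (M : ℝ) * X ^ (1 / 3 : ℝ) * 2 ^ m * m.factorial / 4 ^ n)) ^ 3 =
      (D : ℝ) ^ 3 * (2 ^ 12 * (M : ℝ) ^ 4 * 3 ^ (m + M) * 2 ^ (3 * m) * (m.factorial : ℝ) ^ 3) *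
        (12 / 64) ^ n := by
    have h1 : ((D : ℝ) * (16 * (M : ℝ) * X ^ (1 / 3 : ℝ) * 2 ^ m * m.factorial / 4 ^ n)) ^ 3 =
        (D : ℝ) ^ 3 * 16 ^ 3 * (M : ℝ) ^ 3 * (X ^ (1 / 3 : ℝ)) ^ 3 * (2 ^ m) ^ 3 *
          (m.factorial : ℝ) ^ 3 / (4 ^ n) ^ 3 := by ring
    rw [h1, hXr, hX]
    have h2 : (3 : ℝ) ^ (n + m + M) = 3 ^ n * 3 ^ (m + M) := by rw [← pow_add]; congr 1; omega
    have h3 : ((4 : ℝ) ^ n) ^ 3 = 64 ^ n := by rw [← pow_mul, mul_comm, pow_mul]; norm_num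
    have h4 : ((2 : ℝ) ^ m) ^ 3 = 2 ^ (3 * m) := by rw [← pow_mul, mul_comm]
    have h5 : (12 / 64 : ℝ) ^ n = 3 ^ n * 4 ^ n / 64 ^ n := by
      rw [← mul_pow, ← div_pow]; norm_num
    rw [h2, h3, h4, h5]
    ring
  have hthree : (2 : ℝ) ^ (2387 * e ^ 2) ≤ (3 / 2) ^ n := by
    calc (2 : ℝ) ^ (2387 * e ^ 2) = (2 ^ 7) ^ (341 * e ^ 2) := by rw [← pow_mul]; congr 1; ring
      _ ≤ ((3 / 2) ^ 12) ^ (341 * e ^ 2) := pow_le_pow_left₀ (by norm_num) (by norm_num) _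
      _ = (3 / 2) ^ (4092 * e ^ 2) := by rw [← pow_mul]; congr 1; ring
      _ ≤ (3 / 2) ^ n := pow_le_pow_right₀ (by norm_num) (by omega)
  have hlt : (2 : ℝ) ^ (2310 * e ^ 2) < (3 / 2) ^ n := by
    refine lt_of_lt_of_le (pow_lt_pow_right₀ (by norm_num) ?_) hthree
    have : 1 ≤ e ^ 2 := Nat.one_le_pow _ _ he
    omega
  have hlt3 : ((D : ℝ) * (16 * (M : ℝ) * X ^ (1 / 3 : ℝ) * 2 ^ m * m.factorial / 4 ^ n)) ^ 3 < 1 := by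
    rw [hcube]
    have hpos : (0 : ℝ) ≤ 2 ^ 12 * (M : ℝ) ^ 4 * 3 ^ (m + M) * 2 ^ (3 * m) *
        (m.factorial : ℝ) ^ 3 := by positivity
    calc (D : ℝ) ^ 3 * (2 ^ 12 * (M : ℝ) ^ 4 * 3 ^ (m + M) * 2 ^ (3 * m) *
          (m.factorial : ℝ) ^ 3) * (12 / 64) ^ n
        ≤ ((3 / 2) ^ n) ^ 3 * 2 ^ (2310 * e ^ 2) * (12 / 64) ^ n := by
          gcongr
      _ < ((3 / 2) ^ n) ^ 3 * (3 / 2) ^ n * (12 / 64) ^ n := by
          gcongr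
      _ = (243 / 256) ^ n := by
          rw [← pow_succ, ← pow_mul, mul_comm n 4, pow_mul, ← mul_pow]
          norm_num
      _ ≤ 1 := pow_le_one₀ (by norm_num) (by norm_num)
  by_contra hcon
  push Not at hcon
  have := one_le_pow₀ hcon (n := 3)
  linarith

end Pool.Agent.LibCN21
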