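import Mathlib
import Pool.Agent.LibCN21.Defs
import Pool.Agent.LibCN21.R09
import Pool.Agent.LibCN21.R10
import Pool.Agent.LibCN21.R17
import Pool.Agent.LibCN21.R19
import Pool.Agent.LibCN21.R20
import Pool.Agent.LibCN21.R21
import Pool.Agent.LibCN21.R22

set_option autoImplicit false

namespace Pool.Agent.LibCN21

open Pool.Agent.LibOT77 Polynomial MeasureTheory Filter Topology

theorem FF_int {S : ℤ[X]} {D : ℕ} (h : ∀ κ : ℕ, S.coeff (2 * κ) ≠ 0 → ∃ z : ℤ, (D : ℝ) * T (2 * κ + 1) = z) :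
    ∃ z : ℤ, (D : ℝ) * FF S = z := by
  have h' : ∀ κ : ℕ, ∃ z : ℤ, (D : ℝ) * ((-1) ^ κ * (S.coeff (2 * κ) : ℝ) * T (2 * κ + 1)) = z := by
    intro κ
    by_cases h0 : S.coeff (2 * κ) = 0
    · exact ⟨0, by rw [h0]; simp⟩
    · obtain ⟨z, hz⟩ := h κ h0
      refine ⟨(-1) ^ κ * S.coeff (2 * κ) * z, ?_⟩
      push_cast
      rw [← hz]
      ring
  choose z hz using h'
  refine ⟨∑ κ ∈ Finset.range (S.natDegree + 1), z κ, ?_⟩
  unfold FF
  rw [Finset.mul_sum, Int.cast_sum]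
  exact Finset.sum_congr rfl fun κ _ => hz κ

/-- the matrix of coefficients -/
noncomputable def coM (q n M : ℕ) (E : Finset ℕ) : Matrix E (Fin M) ℤ :=
  fun κ l => ((X * (2 - X)) ^ (q + (l : ℕ)) * (1 - X) ^ (2 * n) : ℤ[X]).coeff (κ : ℕ)

lemma coM_mulVec (q n M : ℕ) (E : Finset ℕ) (x : Fin M → ℤ) (κ : E) :
    (coM q n M E).mulVec x κ = (RU q n M x).coeff (κ : ℕ) := by
  unfold RU Matrix.mulVec dotProduct coM
  rw [finsetSum_coeff]
  refine Finset.sum_congr rfl fun l _ => ?_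
  rw [coeff_C_mul, mul_comm]


/-- cover form: the odd `k` in `[n,5n]` with `D T k` not an integer are not covered by intervals `[a i, a i + L i]`
with `∑ (L i + 64 e) ≤ 64 e^2` -/
theorem main_cover {e n D t : ℕ} (he : 1 ≤ e) (hn : 4096 * e ^ 2 ≤ n) (hD1 : 1 ≤ D) (hD : 2 ^ n * D ≤ 3 ^ n)
    (c L : Fin t → ℕ) (hL : ∑ i, (L i + 64 * e) ≤ 64 * e ^ 2) :
    ∃ k, n ≤ k ∧ k ≤ 5 * n ∧ Odd k ∧ (∀ i, ¬ (c i ≤ k ∧ k ≤ c i + L i)) ∧ ¬ ∃ z : ℤ, (D : ℝ) * T k = z := by
  by_contra hcon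
  have hcov : ∀ k, n ≤ k → k ≤ 5 * n → Odd k → (¬ ∃ z : ℤ, (D : ℝ) * T k = z) → ∃ i, c i ≤ k ∧ k ≤ c i + L i := by
    intro k h1 h2 h3 h4
    by_contra h5
    exact hcon ⟨k, h1, h2, h3, fun i hi => h5 ⟨i, hi⟩, h4⟩
  set m : ℕ := 16 * e - 1 with hm
  set M : ℕ := 1024 * e ^ 2 with hM
  set q : ℕ := n + 2 * m with hq
  have hee : e ≤ e ^ 2 := by nlinarith
  have hn1 : 1 ≤ n := by nlinarith
  have hm1 : m + 1 = 16 * e := by omega
  have hMm : (2 * m + 1) ^ 2 ≤ M := by
    have h1 : 2 * m + 1 ≤ 32 * e := by omega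
    calc (2 * m + 1) ^ 2 ≤ (32 * e) ^ 2 := Nat.pow_le_pow_left h1 2
      _ = M := by rw [hM]; ring
  set E : Finset ℕ := Finset.univ.biUnion fun i : Fin t => Finset.Icc (c i - 1 - 2 * m) (c i + L i - 1 + 2 * m) with hE
  have hEcard : E.card + 3 * t ≤ 64 * e ^ 2 := by
    have h1 : E.card ≤ ∑ i : Fin t, (L i + (4 * m + 1)) := by
      refine (Finset.card_biUnion_le).trans ?_
      refine Finset.sum_le_sum fun i _ => ?_
      rw [Nat.card_Icc]
      omega
    have h2 : ∑ i : Fin t, (L i + (4 * m + 1)) + 3 * t = ∑ i : Fin t, (L i + 64 * e) := by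
      have h3 : 4 * m + 1 + 3 = 64 * e := by omega
      have h4 : ∑ _i : Fin t, 3 = 3 * t := by
        rw [Finset.sum_const, Finset.card_univ, Fintype.card_fin, smul_eq_mul, mul_comm]
      rw [← h4, ← Finset.sum_add_distrib]
      exact Finset.sum_congr rfl fun i _ => by omega
    omega
  have hE0 : t = 0 → E.card = 0 := by
    intro h0
    subst h0
    rw [hE]
    simp
  -- parameters
  set B : ℝ := 3 ^ (q + M) * 4 ^ n with hB
  have hB1 : 1 ≤ B := by
    rw [hB]
    exact one_le_mul_of_one_le_of_one_le (one_le_pow₀ (by norm_num)) (one_le_pow₀ (by norm_num))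
  set H : ℝ := ((M : ℝ) * B) ^ (1 / 3 : ℝ) with hH
  have key := count (φ := Fin (m + 1) × Fin (m + 1)) (coM q n M E)
    (fun f l => ∫ y in (-1 : ℝ)..1, ((1 - y ^ 2) ^ (q + (l : ℕ)) * y ^ (2 * n)) *
      ph (2 * (f.2 : ℕ)) (2 * (f.1 : ℕ) + 1) y) B H hB1
    (fun κ l => coeff_le q n M l κ) (by rw [Fintype.card_fin]) (rows_indep (by omega) hMm) ?_
  · rw [Fintype.card_prod, Fintype.card_fin, Fintype.card_coe, hm1] at key
    have h4 : 16 * e * (16 * e) = 4 * (64 * e ^ 2) := by ring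
    have h5 : 1 ≤ e ^ 2 := Nat.one_le_pow _ _ he
    rcases Nat.eq_zero_or_pos t with h0 | h0
    · have := hE0 h0
      omega
    · omega
  · intro x hx hxH f
    obtain ⟨a, b⟩ := f
    have ha : (a : ℕ) ≤ m := by have := a.2; omega
    have hb : (b : ℕ) ≤ m := by have := b.2; omega
    -- the coefficients at E vanish
    have hvan : ∀ j ∈ E, (RU q n M x).coeff j = 0 := by
      intro j hj
      have := congrFun hx ⟨j, hj⟩
      rw [coM_mulVec] at this
      exact this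
    -- D FF is an integer
    have hint : ∃ z : ℤ, (D : ℝ) * FF (SU q n M x a b) = z := by
      apply FF_int
      intro κ hκ
      by_contra hz
      apply hκ
      have hr := SU_coeff x ha hb hq hκ
      obtain ⟨i, hi1, hi2⟩ := hcov (2 * κ + 1) (by omega) (by
        have h1 := hr.2
        have h2 : 2 * M ≤ n / 2 := by omega
        have h3 : 6 * m + 1 ≤ 96 * e := by omega
        have h4 : 96 * e ≤ n / 4 := by
          have : 96 * e ≤ 96 * e ^ 2 := Nat.mul_le_mul_left _ hee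
          omega
        omega) ⟨κ, rfl⟩ hz
      apply SU_vanish x ha hb
      intro j h1 h2
      apply hvan
      rw [hE, Finset.mem_biUnion]
      refine ⟨i, Finset.mem_univ _, ?_⟩
      rw [Finset.mem_Icc]
      omega
    -- D FF is small
    have hsm := small x hxH ha hb hn1 hq
    have hnum := numeric he hn hD
    have hlt : |(D : ℝ) * FF (SU q n M x a b)| < 1 := by
      rw [abs_mul, abs_of_nonneg (Nat.cast_nonneg D : (0 : ℝ) ≤ D)]
      refine lt_of_le_of_lt (mul_le_mul_of_nonneg_left hsm (Nat.cast_nonneg D)) ?_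
      exact hnum
    obtain ⟨z, hz⟩ := hint
    have hz0 : z = 0 := by
      rw [hz] at hlt
      have : |z| < 1 := by exact_mod_cast hlt
      exact Int.abs_lt_one_iff.mp this
    have hF0 : FF (SU q n M x a b) = 0 := by
      rw [hz0, Int.cast_zero] at hz
      rcases mul_eq_zero.mp hz with h | h
      · have : (1 : ℝ) ≤ D := by exact_mod_cast hD1
        linarith
      · exact h
    rw [main_id x (by omega : 2 * (b : ℕ) + 1 ≤ q)] at hF0
    have hI : ∫ y in (-1 : ℝ)..1, at1 (RU q n M x) y * ph (2 * (b : ℕ)) (2 * (a : ℕ) + 1) y = 0 := by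
      rcases mul_eq_zero.mp hF0 with h | h
      · have hpi := Real.pi_pos
        have : (0 : ℝ) < (2 * (a : ℕ)).factorial / (2 * Real.pi * (2 * (b : ℕ)).factorial) := by positivity
        linarith
      · exact h
    rw [← hI]
    simp only
    have hsum : ∀ y : ℝ, at1 (RU q n M x) y * ph (2 * (b : ℕ)) (2 * (a : ℕ) + 1) y =
        ∑ l, (x l : ℝ) * (((1 - y ^ 2) ^ (q + (l : ℕ)) * y ^ (2 * n)) * ph (2 * (b : ℕ)) (2 * (a : ℕ) + 1) y) := by
      intro y
      rw [at1_RU, Finset.sum_mul]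
      exact Finset.sum_congr rfl fun l _ => by ring
    simp only [hsum]
    rw [intervalIntegral.integral_finsetSum]
    · exact Finset.sum_congr rfl fun l _ => (intervalIntegral.integral_const_mul _ _).symm
    · intro l _
      apply IntervalIntegrable.const_mul
      have h1 := int_ph (((X * (2 - X)) ^ (q + (l : ℕ)) * (1 - X) ^ (2 * n) : ℝ[X])) (2 * (b : ℕ)) (2 * (a : ℕ) + 1)
        (by omega) (Dvd.dvd.mul_right (pow_dvd_pow _ (by omega)) _)
      refine h1.congr ?_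
      intro y _
      simp only [eval_mul, eval_pow, eval_sub, eval_X, eval_ofNat, eval_one]
      congr 1
      congr 1
      · congr 1
        ring
      · rw [show (1 - (1 + y)) = -y by ring]
        exact Even.neg_pow (even_two_mul n) y


/-- counting form -/
theorem main_count' {e n D : ℕ} (he : 1 ≤ e) (hn : 4096 * e ^ 2 ≤ n) (hD1 : 1 ≤ D) (hD : 2 ^ n * D ≤ 3 ^ n) :
    e < (Bad D n).ncard := by
  have hfin : (Bad D n).Finite := (Set.finite_Icc n (5 * n)).subset fun k hk => ⟨hk.1, hk.2.1⟩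
  by_contra hcon
  push Not at hcon
  obtain ⟨f⟩ : Nonempty (Fin hfin.toFinset.card ≃ hfin.toFinset) := ⟨(hfin.toFinset.equivFin).symm⟩
  have hcard : hfin.toFinset.card ≤ e := by
    rw [← Set.ncard_eq_toFinset_card _ hfin]
    exact hcon
  obtain ⟨k, h1, h2, h3, h4, h5⟩ := main_cover he hn hD1 hD (fun i => ((f i : hfin.toFinset) : ℕ)) (fun _ => 0) (by
    rw [Finset.sum_const, Finset.card_univ, Fintype.card_fin, smul_eq_mul]
    calc hfin.toFinset.card * (0 + 64 * e) ≤ e * (0 + 64 * e) := Nat.mul_le_mul_right _ hcard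
      _ = 64 * e ^ 2 := by ring)
  have hk : k ∈ hfin.toFinset := by
    rw [Set.Finite.mem_toFinset]
    exact ⟨h1, h2, h3, h5⟩
  apply h4 (f.symm ⟨k, hk⟩)
  simp

theorem main_sqrt {n D : ℕ} (hn : 4096 ≤ n) (hD1 : 1 ≤ D) (hD : 2 ^ n * D ≤ 3 ^ n) :
    Real.sqrt n / 64 < (Bad D n).ncard := by
  set e : ℕ := ⌊Real.sqrt n / 64⌋₊ with he
  have hs0 : 0 ≤ Real.sqrt n / 64 := by positivity
  have h64 : (64 : ℝ) ≤ Real.sqrt n := by
    rw [show (64 : ℝ) = Real.sqrt (64 ^ 2) by rw [Real.sqrt_sq (by norm_num)]]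
    apply Real.sqrt_le_sqrt
    have : (4096 : ℝ) ≤ n := by exact_mod_cast hn
    linarith
  have he1 : 1 ≤ e := by
    rw [he]
    apply Nat.le_floor
    push_cast
    linarith
  have he2 : (e : ℝ) ≤ Real.sqrt n / 64 := Nat.floor_le hs0
  have hn2 : 4096 * e ^ 2 ≤ n := by
    have h1 : (64 * (e : ℝ)) ^ 2 ≤ Real.sqrt n ^ 2 := by
      apply pow_le_pow_left₀ (by positivity)
      linarith
    rw [Real.sq_sqrt (Nat.cast_nonneg n)] at h1
    have h2 : ((4096 * e ^ 2 : ℕ) : ℝ) ≤ n := by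
      push_cast
      nlinarith
    exact_mod_cast h2
  have h3 := main_count' he1 hn2 hD1 hD
  have h4 : Real.sqrt n / 64 < e + 1 := by
    rw [he]
    exact Nat.lt_floor_add_one _
  have h5 : ((e + 1 : ℕ) : ℝ) ≤ (Bad D n).ncard := by exact_mod_cast h3
  push_cast at h5
  linarith

end Pool.Agent.LibCN21
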